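import Mathlib

/-! Determinants of matrices given by functions `ℕ → ℕ → A`. -/

namespace W560.Sep

open Finset

variable {A B : Type*} [CommRing A] [CommRing B]

/-- determinant of the `N × N` matrix `(f i j)`, `i, j < N` -/
noncomputable def dt (N : ℕ) (f : ℕ → ℕ → A) : A :=
  Matrix.det (Matrix.of fun (i j : Fin N) => f i j)

theorem dt_map (φ : A →+* B) (N : ℕ) (f : ℕ → ℕ → A) :
    φ (dt N f) = dt N (fun i j => φ (f i j)) := by
  unfold dt
  rw [RingHom.map_det]
  rfl

theorem dt_congr {N : ℕ} {f g : ℕ → ℕ → A} (h : ∀ i < N, ∀ j < N, f i j = g i j) :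
    dt N f = dt N g := by
  unfold dt
  congr 1
  ext i j
  exact h i i.2 j j.2

theorem dt_row (N : ℕ) (v : ℕ → A) (f : ℕ → ℕ → A) :
    dt N (fun i j => v i * f i j) = (∏ i ∈ range N, v i) * dt N f := by
  unfold dt
  rw [← Fin.prod_univ_eq_prod_range, ← Matrix.det_mul_column]
  rfl

theorem dt_col (N : ℕ) (v : ℕ → A) (f : ℕ → ℕ → A) :
    dt N (fun i j => v j * f i j) = (∏ i ∈ range N, v i) * dt N f := by
  unfold dt
  rw [← Fin.prod_univ_eq_prod_range, ← Matrix.det_mul_row]
  rfl

theorem dt_last (N : ℕ) (f : ℕ → ℕ → A) (h : ∀ j < N, f N j = 0) :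
    dt (N + 1) f = f N N * dt N f := by
  unfold dt
  rw [Matrix.det_succ_row _ (Fin.last N), Finset.sum_eq_single (Fin.last N)]
  · simp only [Matrix.of_apply, Fin.val_last]
    rw [← two_mul, pow_mul]
    simp only [even_two, Even.neg_pow, one_pow, one_mul]
    congr 2
    ext i j
    simp
  · intro j _ hj
    have : (j : ℕ) < N := by
      have := j.2
      have h2 : (j : ℕ) ≠ N := fun e => hj (Fin.ext (by simpa using e))
      omega
    simp [h j this]
  · simp

theorem dt_last_col (N : ℕ) (f : ℕ → ℕ → A) (h : ∀ i < N, f i N = 0) :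
    dt (N + 1) f = f N N * dt N f := by
  unfold dt
  rw [Matrix.det_succ_column _ (Fin.last N), Finset.sum_eq_single (Fin.last N)]
  · simp only [Matrix.of_apply, Fin.val_last]
    rw [← two_mul, pow_mul]
    simp only [even_two, Even.neg_pow, one_pow, one_mul]
    congr 2
    ext i j
    simp
  · intro j _ hj
    have : (j : ℕ) < N := by
      have := j.2
      have h2 : (j : ℕ) ≠ N := fun e => hj (Fin.ext (by simpa using e))
      omega
    simp [h j this]
  · simp

/-- Cramer: a vector `t` with `f t = det e_last`. -/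
theorem exists_adj (N : ℕ) (f : ℕ → ℕ → A) :
    ∃ t : ℕ → A, (∀ i < N, ∑ j ∈ range (N + 1), f i j * t j = 0) ∧
      ∑ j ∈ range (N + 1), f N j * t j = dt (N + 1) f := by
  set M : Matrix (Fin (N + 1)) (Fin (N + 1)) A := Matrix.of fun i j => f i j with hM
  set v : Fin (N + 1) → A := M.adjugate.mulVec (Pi.single (Fin.last N) 1) with hv
  have hMv : M.mulVec v = M.det • Pi.single (Fin.last N) 1 := by
    rw [hv, Matrix.mulVec_mulVec, Matrix.mul_adjugate, Matrix.smul_mulVec, Matrix.one_mulVec]
  let t : ℕ → A := fun j => if h : j < N + 1 then v ⟨j, h⟩ else 0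
  have key : ∀ i : Fin (N + 1), ∑ j ∈ range (N + 1), f i j * t j
      = (M.det • (Pi.single (Fin.last N) 1 : Fin (N + 1) → A)) i := by
    intro i
    rw [← hMv, Matrix.mulVec, dotProduct, ← Fin.sum_univ_eq_sum_range]
    refine Finset.sum_congr rfl fun j _ => ?_
    have ht : t j = v j := dif_pos j.2
    rw [ht]; rfl
  refine ⟨t, ?_, ?_⟩
  · intro i hi
    rw [key ⟨i, by omega⟩]
    have : (⟨i, by omega⟩ : Fin (N + 1)) ≠ Fin.last N := by
      intro e
      have := congrArg Fin.val e
      simp at this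
      omega
    simp [this]
  · have := key (Fin.last N)
    simp only [Fin.val_last] at this
    rw [this]
    simp [dt, hM]

theorem eq_zero_of_dt {K : Type*} [Field K] (N : ℕ) (f : ℕ → ℕ → K) (h : dt N f ≠ 0)
    (v : ℕ → K) (hv : ∀ i < N, ∑ j ∈ range N, f i j * v j = 0) : ∀ j < N, v j = 0 := by
  set M : Matrix (Fin N) (Fin N) K := Matrix.of fun i j => f i j with hM
  have h1 : M.mulVec (fun j => v j) = 0 := by
    ext i
    rw [Matrix.mulVec, dotProduct]
    simp only [hM, Matrix.of_apply, Pi.zero_apply]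
    rw [← hv i i.2, ← Fin.sum_univ_eq_sum_range (fun j => f i j * v j)]
  have h2 := Matrix.eq_zero_of_mulVec_eq_zero h h1
  intro j hj
  exact congrFun h2 ⟨j, hj⟩

end W560.Sep
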