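import Mathlib

/-! Irreducibility of the chain polynomial, and the ideal of a generic point. -/

namespace W560.Sep

open Finset Polynomial

variable (k : Type) [Field k] (n s : ℕ)

/-- coordinates -/
noncomputable def Yv (i : ℕ) : MvPolynomial (Fin (n + 2) ⊕ Fin s) k :=
  if h : i < n + 2 then MvPolynomial.X (Sum.inl ⟨i, h⟩) else 0

/-- the part of the chain polynomial without `x` -/
noncomputable def E0 : MvPolynomial (Fin (n + 2) ⊕ Fin s) k :=
  ∑ i ∈ range (n + 1), Yv k n s i ^ (n + 1) * Yv k n s (i + 1)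
    + ∑ j : Fin s, MvPolynomial.X (Sum.inr j) ^ (n + 2)

/-- the chain polynomial, as a polynomial in `x` -/
noncomputable def PP : (MvPolynomial (Fin (n + 2) ⊕ Fin s) k)[X] :=
  X ^ (n + 2) + (C (Yv k n s (n + 1) ^ (n + 1)) * X + C (E0 k n s))

theorem PP_deg : (C (Yv k n s (n + 1) ^ (n + 1)) * X + C (E0 k n s)).degree < ((n + 2 : ℕ) : WithBot ℕ) := by
  refine lt_of_le_of_lt degree_linear_le ?_
  exact_mod_cast (by omega : 1 < n + 2)

theorem PP_monic : (PP k n s).Monic := monic_X_pow_add (PP_deg k n s)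

theorem PP_natDegree : (PP k n s).natDegree = n + 2 := by
  unfold PP
  rw [natDegree_add_eq_left_of_degree_lt, natDegree_X_pow]
  rw [degree_X_pow]
  exact PP_deg k n s

theorem PP_irreducible : Irreducible (PP k n s) := by
  classical
  -- the prime ideal
  let π : MvPolynomial (Fin (n + 2) ⊕ Fin s) k →ₐ[k] k[X] :=
    MvPolynomial.aeval (Sum.elim (fun i : Fin (n + 2) => if (i : ℕ) = 0 then X else 0) (fun _ => 0))
  have π0 : π (Yv k n s 0) = X := by
    unfold Yv
    rw [dif_pos (by omega)]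
    simp [π]
  have πY : ∀ i, i ≠ 0 → π (Yv k n s i) = 0 := by
    intro i hi
    unfold Yv
    split_ifs with h
    · simp [π, hi]
    · exact map_zero π
  have πZ : ∀ j : Fin s, π (MvPolynomial.X (Sum.inr j)) = 0 := by
    intro j; simp [π]
  -- the dual numbers
  let ψ : MvPolynomial (Fin (n + 2) ⊕ Fin s) k →ₐ[k] DualNumber k[X] :=
    MvPolynomial.aeval (Sum.elim (fun i : Fin (n + 2) => if (i : ℕ) = 0 then TrivSqZeroExt.inl X
      else if (i : ℕ) = 1 then DualNumber.eps else 0) (fun _ => 0))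
  have ψ0 : ψ (Yv k n s 0) = TrivSqZeroExt.inl X := by
    unfold Yv
    rw [dif_pos (by omega)]
    simp [ψ]
  have ψ1 : ψ (Yv k n s 1) = DualNumber.eps := by
    unfold Yv
    rw [dif_pos (by omega)]
    simp [ψ]
  have ψY : ∀ i, 2 ≤ i → ψ (Yv k n s i) = 0 := by
    intro i hi
    unfold Yv
    split_ifs with h
    · have h0 : i ≠ 0 := by omega
      have h1 : i ≠ 1 := by omega
      simp [ψ, h0, h1]
    · exact map_zero ψ
  have ψZ : ∀ j : Fin s, ψ (MvPolynomial.X (Sum.inr j)) = 0 := by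
    intro j; simp [ψ]
  have hfst : ∀ a, TrivSqZeroExt.fst (ψ a) = π a := by
    have : (TrivSqZeroExt.fstHom k k[X] k[X]).comp ψ = π := by
      apply MvPolynomial.algHom_ext
      rintro (i | j)
      · simp only [AlgHom.comp_apply, ψ, π, MvPolynomial.aeval_X, Sum.elim_inl]
        split_ifs <;> simp
      · simp only [AlgHom.comp_apply, ψ, π, MvPolynomial.aeval_X, Sum.elim_inr]
        simp
    intro a
    exact DFunLike.congr_fun this a
  set 𝔓 : Ideal (MvPolynomial (Fin (n + 2) ⊕ Fin s) k) := RingHom.ker π.toRingHom with h𝔓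
  have hprime : 𝔓.IsPrime := RingHom.ker_isPrime _
  have mem𝔓 : ∀ a, a ∈ 𝔓 ↔ π a = 0 := fun a => Iff.rfl
  have hsq : ∀ a ∈ 𝔓 ^ 2, ψ a = 0 := by
    intro a ha
    have h1 : 𝔓 ^ 2 ≤ RingHom.ker ψ.toRingHom := by
      rw [pow_two, Ideal.mul_le]
      intro a ha b hb
      change ψ (a * b) = 0
      rw [map_mul]
      have ha' : TrivSqZeroExt.fst (ψ a) = 0 := by rw [hfst]; exact ha
      have hb' : TrivSqZeroExt.fst (ψ b) = 0 := by rw [hfst]; exact hb
      ext
      · rw [TrivSqZeroExt.fst_mul, ha', zero_mul]; rfl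
      · rw [TrivSqZeroExt.snd_mul, ha', hb']; simp
    exact h1 ha
  have hE0 : π (E0 k n s) = 0 := by
    unfold E0
    rw [map_add, map_sum, map_sum]
    rw [Finset.sum_eq_zero, Finset.sum_eq_zero, add_zero]
    · intro j _
      rw [map_pow, πZ, zero_pow (by omega)]
    · intro i _
      rw [map_mul, πY (i + 1) (by omega), mul_zero]
  have hE0' : E0 k n s ∉ 𝔓 ^ 2 := by
    intro h
    have h1 := hsq _ h
    unfold E0 at h1
    rw [map_add, map_sum, map_sum, Finset.sum_eq_zero (s := univ), add_zero,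
      Finset.sum_eq_single 0] at h1
    · rw [map_mul, map_pow, ψ0, ψ1] at h1
      have h2 := congrArg TrivSqZeroExt.snd h1
      rw [TrivSqZeroExt.inl_pow] at h2
      simp at h2
    · intro i _ hi
      rw [map_mul, ψY (i + 1) (by omega), mul_zero]
    · simp
    · intro j _
      rw [map_pow, ψZ, zero_pow (by omega)]
  have hEis : (PP k n s).IsEisensteinAt 𝔓 := by
    refine ⟨?_, ?_, ?_⟩
    · rw [(PP_monic k n s).leadingCoeff]
      exact fun h => hprime.ne_top (Ideal.eq_top_of_isUnit_mem _ h isUnit_one)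
    · intro i hi
      rw [PP_natDegree] at hi
      unfold PP
      rw [coeff_add, coeff_X_pow, if_neg (by omega), zero_add, coeff_add, coeff_C_mul, coeff_X,
        coeff_C]
      apply add_mem
      · split_ifs
        · rw [mul_one, mem𝔓, map_pow, πY (n + 1) (by omega), zero_pow (by omega)]
        · rw [mul_zero]; exact zero_mem _
      · split_ifs
        · exact (mem𝔓 _).mpr hE0
        · exact zero_mem _
    · have : (PP k n s).coeff 0 = E0 k n s := by
        unfold PP
        rw [coeff_add, coeff_X_pow, if_neg (by omega), zero_add, coeff_add, coeff_C_mul, coeff_X,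
          coeff_C]
        simp
      rw [this]
      exact hE0'
  exact hEis.irreducible hprime (PP_monic k n s).isPrimitive (by rw [PP_natDegree]; omega)

variable {k n s}

theorem dvd_of_root {E : Type} [Field E] [Algebra k E] (v : Fin (n + 2) ⊕ Fin s → E)
    (hv : AlgebraicIndependent k v) (x : E)
    (hx : (PP k n s).eval₂ (MvPolynomial.aeval v : MvPolynomial (Fin (n + 2) ⊕ Fin s) k →ₐ[k] E).toRingHom x = 0)
    (G : (MvPolynomial (Fin (n + 2) ⊕ Fin s) k)[X])
    (hG : G.eval₂ (MvPolynomial.aeval v : MvPolynomial (Fin (n + 2) ⊕ Fin s) k →ₐ[k] E).toRingHom x = 0) :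
    PP k n s ∣ G := by
  let _ : Algebra (MvPolynomial (Fin (n + 2) ⊕ Fin s) k) E :=
    (MvPolynomial.aeval v : MvPolynomial (Fin (n + 2) ⊕ Fin s) k →ₐ[k] E).toRingHom.toAlgebra
  have hinj : Function.Injective (algebraMap (MvPolynomial (Fin (n + 2) ⊕ Fin s) k) E) := hv
  have : FaithfulSMul (MvPolynomial (Fin (n + 2) ⊕ Fin s) k) E :=
    (faithfulSMul_iff_algebraMap_injective _ _).mpr hinj
  have hint : IsIntegral (MvPolynomial (Fin (n + 2) ⊕ Fin s) k) x := ⟨PP k n s, PP_monic k n s, hx⟩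
  have h1 : minpoly (MvPolynomial (Fin (n + 2) ⊕ Fin s) k) x ∣ PP k n s :=
    minpoly.isIntegrallyClosed_dvd hint hx
  have h2 : minpoly (MvPolynomial (Fin (n + 2) ⊕ Fin s) k) x ∣ G :=
    minpoly.isIntegrallyClosed_dvd hint hG
  have h3 : Associated (minpoly (MvPolynomial (Fin (n + 2) ⊕ Fin s) k) x) (PP k n s) :=
    (PP_irreducible k n s).dvd_iff.mp h1 |>.resolve_left (minpoly.not_isUnit _ _) |>.symm
  exact h3.symm.dvd.trans h2

end W560.Sep
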