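import Mathlib
import Pool.Agent.W560.Sep.Irr

/-! The chain form: homogeneity, smoothness, comparison with `PP`. -/

namespace W560.Sep

open Finset MvPolynomial

variable (k : Type) [Field k] (m s : ℕ)

/-- the chain variables -/
def vi (i : ℕ) : Option (Fin (m + 2) ⊕ Fin s) :=
  if h : i < m + 2 then some (Sum.inl ⟨i, h⟩) else none

/-- the chain form of degree `m + 2` -/
noncomputable def FV : MvPolynomial (Option (Fin (m + 2) ⊕ Fin s)) k :=
  ∑ i ∈ range (m + 2), X (vi m s i) ^ (m + 1) * X (vi m s (i + 1)) + X none ^ (m + 2)
    + ∑ j : Fin s, X (some (Sum.inr j)) ^ (m + 2)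

theorem FV_homogeneous : (FV k m s).IsHomogeneous (m + 2) := by
  unfold FV
  refine IsHomogeneous.add (IsHomogeneous.add ?_ ?_) ?_
  · refine IsHomogeneous.sum _ _ _ fun i _ => ?_
    exact (isHomogeneous_X_pow _ _).mul (isHomogeneous_X _ _)
  · exact isHomogeneous_X_pow _ _
  · refine IsHomogeneous.sum _ _ _ fun i _ => ?_
    exact isHomogeneous_X_pow _ _

theorem optionEquiv_FV : optionEquivLeft k (Fin (m + 2) ⊕ Fin s) (FV k m s) = PP k m s := by
  have h1 : ∀ i < m + 2, optionEquivLeft k (Fin (m + 2) ⊕ Fin s) (X (vi m s i))
      = Polynomial.C (Yv k m s i) := by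
    intro i hi
    unfold vi Yv
    rw [dif_pos hi, dif_pos hi, optionEquivLeft_X_some]
  have h2 : vi m s (m + 1 + 1) = none := by
    unfold vi; rw [dif_neg (by omega)]
  unfold FV PP E0
  rw [Finset.sum_range_succ, h2]
  simp only [map_add, map_sum, map_mul, map_pow, optionEquivLeft_X_none, optionEquivLeft_X_some]
  rw [h1 (m + 1) (by omega)]
  have h3 : ∑ i ∈ range (m + 1), optionEquivLeft k (Fin (m + 2) ⊕ Fin s) (X (vi m s i)) ^ (m + 1)
      * optionEquivLeft k (Fin (m + 2) ⊕ Fin s) (X (vi m s (i + 1)))
      = ∑ i ∈ range (m + 1), Polynomial.C (Yv k m s i) ^ (m + 1) * Polynomial.C (Yv k m s (i + 1)) := by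
    refine Finset.sum_congr rfl fun i hi => ?_
    have hi' := Finset.mem_range.mp hi
    rw [h1 i (by omega), h1 (i + 1) (by omega)]
  rw [h3]
  ring

theorem FV_irreducible : Irreducible (FV k m s) := by
  rw [← MulEquiv.irreducible_iff (optionEquivLeft k (Fin (m + 2) ⊕ Fin s)), optionEquiv_FV]
  exact PP_irreducible k m s

variable {k m s}

theorem aeval_option {σ E : Type} [Field E] [Algebra k E] (B : Option σ → E)
    (G : MvPolynomial (Option σ) k) :
    aeval B G = (optionEquivLeft k σ G).eval₂
      (aeval (fun v => B (some v)) : MvPolynomial σ k →ₐ[k] E).toRingHom (B none) := by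
  induction G using MvPolynomial.induction_on with
  | C c =>
    rw [optionEquivLeft_C, Polynomial.eval₂_C]
    simp
  | add p q hp hq => rw [map_add, map_add, Polynomial.eval₂_add, hp, hq]
  | mul_X p v hp =>
    rw [map_mul, map_mul, Polynomial.eval₂_mul, hp]
    congr 1
    rcases v with _ | v
    · rw [optionEquivLeft_X_none, Polynomial.eval₂_X, aeval_X]
    · rw [optionEquivLeft_X_some, Polynomial.eval₂_C, aeval_X]
      simp

/-- the ideal of a generic point of the chain hypersurface -/
theorem FV_dvd {E : Type} [Field E] [Algebra k E] (B : Option (Fin (m + 2) ⊕ Fin s) → E)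
    (hv : AlgebraicIndependent k (fun v => B (some v))) (hB : aeval B (FV k m s) = 0)
    (G : MvPolynomial (Option (Fin (m + 2) ⊕ Fin s)) k) (hG : aeval B G = 0) : FV k m s ∣ G := by
  rw [aeval_option] at hB hG
  rw [optionEquiv_FV] at hB
  have h1 := dvd_of_root (fun v => B (some v)) hv (B none) hB _ hG
  rw [← optionEquiv_FV] at h1
  exact (map_dvd_iff (optionEquivLeft k (Fin (m + 2) ⊕ Fin s))).mp h1

theorem FV_smooth [CharZero k] (x : Option (Fin (m + 2) ⊕ Fin s) → k)
    (hx : ∀ v, eval x (pderiv v (FV k m s)) = 0) : x = 0 := by
  classical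
  have hm2 : ((m : k) + 2) ≠ 0 := by
    have : ((m + 2 : ℕ) : k) ≠ 0 := Nat.cast_ne_zero.mpr (by omega)
    push_cast at this; exact this
  have hm1 : ((m : k) + 1) ≠ 0 := by
    have : ((m + 1 : ℕ) : k) ≠ 0 := Nat.cast_ne_zero.mpr (by omega)
    push_cast at this; exact this
  set y : ℕ → k := fun i => x (vi m s i) with hy
  have hlast : ∀ i, m + 2 ≤ i → vi m s i = none := by
    intro i hi; unfold vi; rw [dif_neg (by omega)]
  have hinj : ∀ i ≤ m + 2, ∀ j ≤ m + 2, vi m s i = vi m s j ↔ i = j := by
    intro i hi j hj
    constructor
    · intro h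
      unfold vi at h
      split_ifs at h with h1 h2 h2
      · have := Sum.inl_injective (Option.some_injective _ h)
        exact congrArg Fin.val this
      · omega
    · rintro rfl; rfl
  have hvr : ∀ i (j : Fin s), vi m s i ≠ some (Sum.inr j) := by
    intro i j h
    unfold vi at h
    split_ifs at h
    have := Option.some_injective _ h
    cases this
  -- the partial derivatives
  have hd : ∀ v, eval x (pderiv v (FV k m s))
      = ∑ i ∈ range (m + 2), (((m : k) + 1) * y i ^ m * y (i + 1) * (if vi m s i = v then 1 else 0)
          + y i ^ (m + 1) * (if vi m s (i + 1) = v then 1 else 0))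
        + ((m : k) + 2) * y (m + 2) ^ (m + 1) * (if none = v then 1 else 0)
        + ∑ j : Fin s, ((m : k) + 2) * x (some (Sum.inr j)) ^ (m + 1)
          * (if some (Sum.inr j) = v then 1 else 0) := by
    intro v
    have hX : ∀ u, eval x (pderiv v (X u)) = if u = v then 1 else 0 := by
      intro u
      rw [pderiv_X]
      by_cases h : u = v
      · subst h; simp
      · rw [if_neg h, Pi.single_eq_of_ne h, map_zero]
    unfold FV
    rw [map_add, map_add, map_sum, map_sum, map_add, map_add, map_sum, map_sum]
    congr 1
    · congr 1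
      · refine Finset.sum_congr rfl fun i _ => ?_
        rw [Derivation.leibniz, Derivation.leibniz_pow]
        simp only [smul_eq_mul, nsmul_eq_mul, map_add, map_mul, map_pow, eval_X, map_natCast,
          Nat.add_sub_cancel, hX]
        simp only [hy]
        push_cast
        ring
      · rw [Derivation.leibniz_pow]
        simp only [smul_eq_mul, nsmul_eq_mul, map_mul, map_pow, eval_X, map_natCast, hX]
        simp only [hy]
        rw [hlast (m + 2) le_rfl]
        push_cast
        ring
    · refine Finset.sum_congr rfl fun j _ => ?_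
      rw [Derivation.leibniz_pow]
      simp only [smul_eq_mul, nsmul_eq_mul, map_mul, map_pow, eval_X, map_natCast, hX]
      push_cast
      ring
  have hz : ∀ j : Fin s, x (some (Sum.inr j)) = 0 := by
    intro j
    have h1 := hx (some (Sum.inr j))
    rw [hd] at h1
    rw [Finset.sum_eq_zero, if_neg (by simp), Finset.sum_eq_single j] at h1
    · rw [if_pos rfl] at h1
      simp only [mul_one, mul_zero, zero_add, add_zero] at h1
      exact eq_zero_of_pow_eq_zero ((mul_eq_zero.mp h1).resolve_left hm2)
    · intro j' _ hj'
      rw [if_neg, mul_zero]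
      intro h
      have := Sum.inr_injective (Option.some_injective _ h)
      exact hj' this
    · simp
    · intro i _
      rw [if_neg (hvr i j), if_neg (hvr (i + 1) j)]
      simp
  have hzsum : ∀ l, ∑ j : Fin s, ((m : k) + 2) * x (some (Sum.inr j)) ^ (m + 1)
          * (if some (Sum.inr j) = vi m s l then 1 else 0) = 0 := by
    intro l
    refine Finset.sum_eq_zero fun j _ => ?_
    rw [hz j, zero_pow (by omega)]; ring
  -- derivative with respect to the chain variables
  have e0 : ((m : k) + 1) * y 0 ^ m * y 1 = 0 := by
    have h1 := hx (vi m s 0)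
    rw [hd, hzsum, Finset.sum_eq_single 0] at h1
    · rw [if_pos rfl, if_neg, if_neg] at h1
      · linear_combination h1
      · rw [← hlast (m + 2) le_rfl, hinj _ le_rfl _ (by omega)]; omega
      · rw [hinj _ (by omega) _ (by omega)]; omega
    · intro i hi hi0
      have hi' := Finset.mem_range.mp hi
      rw [if_neg, if_neg]
      · ring
      · rw [hinj _ (by omega) _ (by omega)]; omega
      · rw [hinj _ (by omega) _ (by omega)]; omega
    · simp
  have e1 : ∀ l < m + 1, ((m : k) + 1) * y (l + 1) ^ m * y (l + 2) + y l ^ (m + 1) = 0 := by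
    intro l hl
    have h1 := hx (vi m s (l + 1))
    rw [hd, hzsum, Finset.sum_add_distrib, Finset.sum_eq_single (l + 1), Finset.sum_eq_single l] at h1
    · rw [if_pos rfl, if_neg] at h1
      · linear_combination h1
      · rw [← hlast (m + 2) le_rfl, hinj _ le_rfl _ (by omega)]; omega
    · intro i hi hi0
      have hi' := Finset.mem_range.mp hi
      rw [if_neg]
      · ring
      · rw [hinj _ (by omega) _ (by omega)]; omega
    · intro h; exact absurd (Finset.mem_range.mpr (by omega)) h
    · intro i hi hi0
      have hi' := Finset.mem_range.mp hi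
      rw [if_neg]
      · ring
      · rw [hinj _ (by omega) _ (by omega)]; omega
    · intro h; exact absurd (Finset.mem_range.mpr (by omega)) h
  have e2 : y (m + 1) ^ (m + 1) + ((m : k) + 2) * y (m + 2) ^ (m + 1) = 0 := by
    have h1 := hx (vi m s (m + 2))
    rw [hd, hzsum, Finset.sum_add_distrib, Finset.sum_eq_zero, Finset.sum_eq_single (m + 1)] at h1
    · rw [if_pos rfl, if_pos (hlast (m + 2) le_rfl).symm] at h1
      linear_combination h1
    · intro i hi hi0
      have hi' := Finset.mem_range.mp hi
      rw [if_neg]
      · ring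
      · rw [hinj _ (by omega) _ (by omega)]; omega
    · intro h; exact absurd (Finset.mem_range.mpr (by omega)) h
    · intro i hi
      have hi' := Finset.mem_range.mp hi
      rw [if_neg]
      · ring
      · rw [hinj _ (by omega) _ (by omega)]; omega
  have hall : ∀ i ≤ m + 2, y i = 0 := by
    rcases Nat.eq_zero_or_pos m with hm | hm
    · subst hm
      have a0 : y 1 = 0 := by simpa using e0
      have a1 : y 2 + y 0 = 0 := by simpa using e1 0 (by norm_num)
      have a2 : y 1 + 2 * y 2 = 0 := by simpa using e2
      have a3 : y 2 = 0 := by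
        rw [a0, zero_add] at a2
        exact (mul_eq_zero.mp a2).resolve_left two_ne_zero
      have a4 : y 0 = 0 := by rw [a3, zero_add] at a1; exact a1
      intro i hi
      interval_cases i
      · exact a4
      · exact a0
      · exact a3
    · have step : ∀ i ≤ m + 1, ((m : k) + 1) * y i ^ m * y (i + 1) = 0 → y i = 0 := by
        intro i hi h
        rcases mul_eq_zero.mp h with h1 | h1
        · exact eq_zero_of_pow_eq_zero ((mul_eq_zero.mp h1).resolve_left hm1)
        · rcases Nat.lt_or_ge i (m + 1) with h2 | h2
          · have h3 := e1 i h2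
            rw [h1, zero_pow (by omega), mul_zero, zero_mul, zero_add] at h3
            exact eq_zero_of_pow_eq_zero h3
          · have : i = m + 1 := by omega
            subst this
            rw [h1, zero_pow (by omega), mul_zero, add_zero] at e2
            exact eq_zero_of_pow_eq_zero e2
      have h4 : ∀ i ≤ m + 1, y i = 0 := by
        intro i
        induction i with
        | zero => intro hi; exact step 0 hi e0
        | succ i ih =>
          intro hi
          apply step (i + 1) hi
          have h3 := e1 i (by omega)
          rw [ih (by omega), zero_pow (by omega), add_zero] at h3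
          exact h3
      intro i hi
      rcases Nat.lt_or_ge i (m + 2) with h2 | h2
      · exact h4 i (by omega)
      · have : i = m + 2 := by omega
        subst this
        rw [h4 (m + 1) le_rfl, zero_pow (by omega), zero_add] at e2
        exact eq_zero_of_pow_eq_zero ((mul_eq_zero.mp e2).resolve_left hm2)
  funext v
  rcases v with _ | v
  · have := hall (m + 2) le_rfl
    simp only [hy, hlast (m + 2) le_rfl] at this
    exact this
  · rcases v with ⟨i, hi⟩ | j
    · have := hall i (by omega)
      have h5 : vi m s i = some (Sum.inl ⟨i, hi⟩) := by unfold vi; rw [dif_pos hi]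
      simp only [hy, h5] at this
      exact this
    · exact hz j

end W560.Sep
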