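import Mathlib
import Pool.Agent.W560.Sep.Det

/-! The contact system and its non-degeneracy, by induction. -/

namespace W560.Sep

open Finset Polynomial

variable {A B : Type*} [CommRing A] [CommRing B]

noncomputable def g (n q : ℕ) (r : ℕ → A) (i : ℕ) : A[X] :=
  if i < q then (X + C (r i)) ^ (n + 1) * (X + C (r (i + 1))) else X * (X + C (r i)) ^ (n + 1)

noncomputable def h (n q : ℕ) (r τ : ℕ → A) (i : ℕ) : A[X] :=
  C (((n : A) + 1) * τ i) * (X + C (r i)) ^ n * (if i < q then X + C (r (i + 1)) else X)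
    + (if i = 0 then 0 else C (τ (i - 1)) * (X + C (r (i - 1))) ^ (n + 1))

theorem g_map (φ : A →+* B) (n q : ℕ) (r : ℕ → A) (i : ℕ) :
    (g n q r i).map φ = g n q (fun j => φ (r j)) i := by
  unfold g
  split_ifs <;> simp

theorem h_map (φ : A →+* B) (n q : ℕ) (r τ : ℕ → A) (i : ℕ) :
    (h n q r τ i).map φ = h n q (fun j => φ (r j)) (fun j => φ (τ j)) i := by
  unfold h
  split_ifs <;> simp

theorem g_coeff (φ : A →+* B) (n q : ℕ) (r : ℕ → A) (i l : ℕ) :
    φ ((g n q r i).coeff l) = (g n q (fun j => φ (r j)) i).coeff l := by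
  rw [← g_map, coeff_map]

theorem h_coeff (φ : A →+* B) (n q : ℕ) (r τ : ℕ → A) (i l : ℕ) :
    φ ((h n q r τ i).coeff l) = (h n q (fun j => φ (r j)) (fun j => φ (τ j)) i).coeff l := by
  rw [← h_map, coeff_map]

/-- nodes `r`, weights `τ` solving the contact system of level `q`, non-degenerately -/
structure Lev (n q : ℕ) (r τ : ℕ → A) : Prop where
  p0 : r 0 = 1 ∧ r 2 = 2
  p1 : ∀ l < q, ∑ i ∈ range (q + 1), (g n q r i).coeff l * τ i = 0
  p2 : dt (q + 1) (fun l i => (g n q r i).coeff l) ≠ 0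
  p3 : dt (q + 1) (fun l i => (h n q r τ i).coeff l) ≠ 0
  p4 : ∀ i ≤ q, τ i ≠ 0

theorem Lev.map {n q : ℕ} {r τ : ℕ → A} (H : Lev n q r τ) (φ : A →+* B)
    (hφ : Function.Injective φ) : Lev n q (fun i => φ (r i)) (fun i => φ (τ i)) where
  p0 := by
    refine ⟨?_, ?_⟩
    · simp [H.p0.1]
    · rw [H.p0.2]; exact map_ofNat φ 2
  p1 := by
    intro l hl
    have := congrArg φ (H.p1 l hl)
    rw [map_sum, map_zero] at this
    rw [← this]
    refine Finset.sum_congr rfl fun i _ => ?_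
    rw [map_mul, g_coeff]
  p2 := by
    intro e
    apply H.p2
    apply hφ
    rw [dt_map, map_zero, ← e]
    simp only [g_coeff]
  p3 := by
    intro e
    apply H.p3
    apply hφ
    rw [dt_map, map_zero, ← e]
    simp only [h_coeff]
  p4 := by
    intro i hi e
    exact H.p4 i hi (hφ (by rw [e, map_zero]))

theorem coeff_mul_XC_succ (f : A[X]) (s : A) (l : ℕ) :
    (f * (X + C s)).coeff (l + 1) = f.coeff l + f.coeff (l + 1) * s := by
  rw [mul_add, coeff_add, coeff_mul_X, coeff_mul_C]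

theorem coeff_mul_XC_zero (f : A[X]) (s : A) :
    (f * (X + C s)).coeff 0 = f.coeff 0 * s := by
  rw [mul_add, coeff_add, coeff_mul_X_zero, coeff_mul_C, zero_add]

end W560.Sep
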