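import Mathlib
import Pool.Agent.W560.Sep.Lev

namespace W560.Sep

open Finset Polynomial

theorem lev_base {K : Type*} [Field K] [CharZero K] (n : ℕ) (hn : 1 ≤ n) :
    ∃ r τ : ℕ → K, Lev n 2 r τ := by
  obtain ⟨m, rfl⟩ : ∃ m, n = m + 1 := ⟨n - 1, by omega⟩
  have h2 : (2 : K) ≠ 0 := two_ne_zero
  have hm1 : (m : K) + 1 ≠ 0 := by exact_mod_cast Nat.succ_ne_zero m
  have hm2 : (m : K) + 1 + 1 ≠ 0 := by exact_mod_cast Nat.succ_ne_zero (m + 1)
  have hp : (2 : K) ^ m ≠ 0 := pow_ne_zero _ h2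
  -- coefficients of powers
  have c0 : ∀ (a : K) (k : ℕ), ((X + C a) ^ k).coeff 0 = a ^ k := by
    intro a k; rw [coeff_X_add_C_pow]; simp
  have c1 : ∀ (a : K) (k : ℕ), ((X + C a) ^ (k + 1)).coeff 1 = a ^ k * (k + 1) := by
    intro a k; rw [coeff_X_add_C_pow]; simp
  have c2 : ∀ (a : K) (k : ℕ), ((X + C a) ^ (k + 2)).coeff 2 = a ^ k * ((k + 2) * (k + 1) / 2) := by
    intro a k; rw [coeff_X_add_C_pow, Nat.cast_choose_two]
    simp only [Nat.add_sub_cancel]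
    push_cast; ring
  have c2' : ∀ (k : ℕ), ((X + C (1 : K)) ^ (k + 1)).coeff 2 = (((k : K) + 1) * k / 2) := by
    intro k; rw [coeff_X_add_C_pow, Nat.cast_choose_two]
    push_cast; simp
  let r : ℕ → K := fun i => if i = 2 then 2 else 1
  let τ : ℕ → K := fun i => if i = 0 then 2 else if i = 1 then -1 else - (1 / 2) ^ (m + 2)
  have r0 : r 0 = 1 := by simp [r]
  have r1 : r 1 = 1 := by simp [r]
  have r2 : r 2 = 2 := by simp [r]
  have t0 : τ 0 = 2 := by simp [τ]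
  have t1 : τ 1 = -1 := by simp [τ]
  have t2 : τ 2 = - (1 / 2) ^ (m + 2) := by simp [τ]
  have G0 : g (m + 1) 2 r 0 = (X + C 1) ^ (m + 1 + 1) * (X + C 1) := by
    unfold g; rw [if_pos (by norm_num), r0, r1]
  have G1 : g (m + 1) 2 r 1 = (X + C 1) ^ (m + 1 + 1) * (X + C 2) := by
    unfold g; rw [if_pos (by norm_num), r1, r2]
  have G2 : g (m + 1) 2 r 2 = X * (X + C 2) ^ (m + 1 + 1) := by
    unfold g; rw [if_neg (by norm_num), r2]
  have H0 : h (m + 1) 2 r τ 0 = C (((m + 1 : ℕ) + 1 : K) * 2) * (X + C 1) ^ (m + 1) * (X + C 1) := by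
    unfold h; rw [if_pos (by norm_num), if_pos rfl, r0, r1, t0, add_zero]
  have H1 : h (m + 1) 2 r τ 1 = C (((m + 1 : ℕ) + 1 : K) * (-1)) * (X + C 1) ^ (m + 1) * (X + C 2)
      + C 2 * (X + C 1) ^ (m + 1 + 1) := by
    unfold h; rw [if_pos (by norm_num), if_neg (by norm_num), r1, r2, t1, t0, r0]
  have H2 : h (m + 1) 2 r τ 2 = C (((m + 1 : ℕ) + 1 : K) * (- (1 / 2) ^ (m + 2))) * (X + C 2) ^ (m + 1) * X
      + C (-1) * (X + C 1) ^ (m + 1 + 1) := by
    unfold h; rw [if_neg (by norm_num), if_neg (by norm_num), r2, t2, t1, r1]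
  have g00 : (g (m + 1) 2 r 0).coeff 0 = 1 := by
    rw [G0, coeff_mul_XC_zero, c0]; simp
  have g10 : (g (m + 1) 2 r 0).coeff 1 = m + 3 := by
    rw [G0, coeff_mul_XC_succ, c0, c1]; push_cast; simp; ring
  have g20 : (g (m + 1) 2 r 0).coeff 2 = (m + 3) * (m + 2) / 2 := by
    rw [G0, coeff_mul_XC_succ, c1, c2]; push_cast; simp; ring
  have g01 : (g (m + 1) 2 r 1).coeff 0 = 2 := by
    rw [G1, coeff_mul_XC_zero, c0]; simp
  have g11 : (g (m + 1) 2 r 1).coeff 1 = 2 * m + 5 := by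
    rw [G1, coeff_mul_XC_succ, c0, c1]; push_cast; simp; ring
  have g21 : (g (m + 1) 2 r 1).coeff 2 = (m + 2) ^ 2 := by
    rw [G1, coeff_mul_XC_succ, c1, c2]; push_cast; simp; ring
  have g02 : (g (m + 1) 2 r 2).coeff 0 = 0 := by
    rw [G2, coeff_X_mul_zero]
  have g12 : (g (m + 1) 2 r 2).coeff 1 = 2 ^ (m + 2) := by
    rw [G2, coeff_X_mul, c0]
  have g22 : (g (m + 1) 2 r 2).coeff 2 = 2 ^ (m + 1) * (m + 2) := by
    rw [G2, coeff_X_mul, c1]; push_cast; ring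
  have h00 : (h (m + 1) 2 r τ 0).coeff 0 = 2 * (m + 2) := by
    rw [H0, coeff_mul_XC_zero, coeff_C_mul, c0]; push_cast; simp; ring
  have h10 : (h (m + 1) 2 r τ 0).coeff 1 = 2 * (m + 2) * (m + 2) := by
    rw [H0, coeff_mul_XC_succ, coeff_C_mul, coeff_C_mul, c0, c1]; push_cast; simp; ring
  have h20 : (h (m + 1) 2 r τ 0).coeff 2 = (m + 2) * (m + 2) * (m + 1) := by
    rw [H0, coeff_mul_XC_succ, coeff_C_mul, coeff_C_mul, c1, c2']; push_cast; simp; ring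
  have h01 : (h (m + 1) 2 r τ 1).coeff 0 = - 2 * (m + 1) := by
    rw [H1, coeff_add, coeff_mul_XC_zero, coeff_C_mul, coeff_C_mul, c0, c0]; push_cast; simp; ring
  have h11 : (h (m + 1) 2 r τ 1).coeff 1 = - (m + 2) * (2 * m + 1) := by
    rw [H1, coeff_add, coeff_mul_XC_succ, coeff_C_mul, coeff_C_mul, coeff_C_mul, c0, c1, c1]
    push_cast; simp; ring
  have h21 : (h (m + 1) 2 r τ 1).coeff 2 = - (m + 2) * (m + 1) * m := by
    rw [H1, coeff_add, coeff_mul_XC_succ, coeff_C_mul, coeff_C_mul, coeff_C_mul, c1, c2, c2']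
    push_cast; simp; ring
  have hq : ((1 : K) / 2) ^ (m + 2) * 2 ^ (m + 2) = 1 := by
    rw [← mul_pow]; norm_num
  have h02 : (h (m + 1) 2 r τ 2).coeff 0 = - 1 := by
    rw [H2, coeff_add, coeff_mul_X_zero, coeff_C_mul, c0]; simp
  have h12 : (h (m + 1) 2 r τ 2).coeff 1 = - 3 / 2 * (m + 2) := by
    rw [H2, coeff_add, coeff_mul_X, coeff_C_mul, coeff_C_mul, c0, c1]
    push_cast
    have : ((1 : K) / 2) ^ (m + 2) * 2 ^ (m + 1) = 1 / 2 := by
      have h3 : ((1 : K) / 2) ^ (m + 2) * 2 ^ (m + 1) * 2 = 1 := by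
        rw [mul_assoc, ← pow_succ]; exact hq
      exact eq_div_of_mul_eq h2 h3
    have h5 : ((m : K) + 1 + 1) * -(1 / 2) ^ (m + 2) * 2 ^ (m + 1)
        = - (((m : K) + 1 + 1) * ((1 / 2) ^ (m + 2) * 2 ^ (m + 1))) := by ring
    rw [h5, this]; simp; ring
  have h22 : (h (m + 1) 2 r τ 2).coeff 2 = - 3 / 4 * (m + 2) * (m + 1) := by
    rw [H2, coeff_add, coeff_mul_X, coeff_C_mul, coeff_C_mul, c1, c2]
    push_cast
    have : ((1 : K) / 2) ^ (m + 2) * 2 ^ m = 1 / 4 := by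
      have h3 : ((1 : K) / 2) ^ (m + 2) * 2 ^ m * 4 = 1 := by
        have h4 : (4 : K) = 2 * 2 := by norm_num
        rw [mul_assoc, h4, ← mul_assoc (2 ^ m : K) 2 2, ← pow_succ, ← pow_succ]; exact hq
      exact eq_div_of_mul_eq (by norm_num) h3
    have h5 : ((m : K) + 1 + 1) * -(1 / 2) ^ (m + 2) * (2 ^ m * ((m : K) + 1))
        = - (((m : K) + 1 + 1) * ((m : K) + 1) * ((1 / 2) ^ (m + 2) * 2 ^ m)) := by ring
    rw [h5, this]; simp; ring
  refine ⟨r, τ, ⟨r0, r2⟩, ?_, ?_, ?_, ?_⟩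
  · intro l hl
    rw [Finset.sum_range_succ, Finset.sum_range_succ, Finset.sum_range_succ, Finset.sum_range_zero]
    interval_cases l
    · rw [g00, g01, g02, t0, t1]; ring
    · rw [g10, g11, g12, t0, t1, t2]
      have : (2 : K) ^ (m + 2) * -(1 / 2) ^ (m + 2) = -1 := by rw [mul_neg, mul_comm, hq]
      rw [this]; ring
  · unfold dt
    rw [Matrix.det_fin_three]
    simp only [Matrix.of_apply, Fin.isValue, Fin.val_zero, Fin.val_one, Fin.val_two]
    rw [g00, g01, g02, g10, g11, g12, g20, g21, g22]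
    have : (1 : K) * (2 * m + 5) * (2 ^ (m + 1) * (m + 2)) - 1 * 2 ^ (m + 2) * (m + 2) ^ 2
        - 2 * (m + 3) * (2 ^ (m + 1) * (m + 2)) + 2 * 2 ^ (m + 2) * ((m + 3) * (m + 2) / 2)
        + 0 * (m + 3) * (m + 2) ^ 2 - 0 * (2 * m + 5) * ((m + 3) * (m + 2) / 2)
        = 2 ^ (m + 1) * (m + 2) := by
      ring
    rw [this]
    have h6 : (m : K) + 2 ≠ 0 := by
      have : (m : K) + 2 = m + 1 + 1 := by ring
      rw [this]; exact hm2
    exact mul_ne_zero (pow_ne_zero _ h2) h6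
  · unfold dt
    rw [Matrix.det_fin_three]
    simp only [Matrix.of_apply, Fin.isValue, Fin.val_zero, Fin.val_one, Fin.val_two]
    rw [h00, h01, h02, h10, h11, h12, h20, h21, h22]
    have h6 : (m : K) + 2 ≠ 0 := by
      have : (m : K) + 2 = m + 1 + 1 := by ring
      rw [this]; exact hm2
    have : (2 * ((m : K) + 2)) * (-(m + 2) * (2 * m + 1)) * (-3 / 4 * (m + 2) * (m + 1))
        - 2 * (m + 2) * (-3 / 2 * (m + 2)) * (-(m + 2) * (m + 1) * m)
        - -2 * (m + 1) * (2 * (m + 2) * (m + 2)) * (-3 / 4 * (m + 2) * (m + 1))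
        + -2 * (m + 1) * (-3 / 2 * (m + 2)) * ((m + 2) * (m + 2) * (m + 1))
        + -1 * (2 * (m + 2) * (m + 2)) * (-(m + 2) * (m + 1) * m)
        - -1 * (-(m + 2) * (2 * m + 1)) * ((m + 2) * (m + 2) * (m + 1))
        = (m + 2) ^ 3 * (m + 1) / 2 := by ring
    rw [this]
    exact div_ne_zero (mul_ne_zero (pow_ne_zero _ h6) hm1) h2
  · intro i hi
    interval_cases i
    · rw [t0]; exact h2
    · rw [t1]; exact neg_ne_zero.mpr one_ne_zero
    · rw [t2]; exact neg_ne_zero.mpr (pow_ne_zero _ (div_ne_zero one_ne_zero h2))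

end W560.Sep
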