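import Mathlib
import Pool.Agent.W560.Sep.Base

/-! The induction step: adding one node close to zero. -/

namespace W560.Sep

open Finset Polynomial

theorem lev_step {K : Type*} [Field K] [CharZero K] {n q : ℕ} (hq2 : 2 ≤ q) (hqn : q ≤ n)
    {r τ : ℕ → K} (H : Lev n q r τ) :
    ∃ r' τ' : ℕ → K[X], Lev n (q + 1) r' τ' := by
  classical
  -- nodes
  set r' : ℕ → K[X] := fun i => if i ≤ q then C (r i) else X with hr'
  have r'le : ∀ i ≤ q, r' i = C (r i) := fun i hi => by simp [hr', hi]
  have r'q : r' (q + 1) = X := by simp [hr']
  let ev : K[X] →+* K := evalRingHom 0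
  have evC : ∀ a : K, ev (C a) = a := fun a => by simp [ev]
  have evX : ev X = 0 := by simp [ev]
  -- entries at epsilon = 0
  have e1 : ∀ i ≤ q, ∀ l, ev ((g n (q + 1) r' i).coeff l) = (g n q r i).coeff l := by
    intro i hi l
    rw [g_coeff]
    congr 1
    unfold g
    rw [if_pos (by omega)]
    simp only [r'le i hi, evC]
    rcases Nat.lt_or_ge i q with h1 | h1
    · rw [if_pos h1]
      simp only [r'le (i + 1) (by omega), evC]
    · have : i = q := by omega
      subst this
      rw [if_neg (by omega)]
      simp only [r'q, evX, map_zero, add_zero]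
      ring
  set ch : ℕ → K := fun l => ((n + 1).choose l : K) with hch
  have chne : ∀ l ≤ n + 1, ch l ≠ 0 := by
    intro l hl
    simp only [hch]
    exact_mod_cast (Nat.choose_pos hl).ne'
  -- the normalised matrix with an extra row
  set gh : ℕ → ℕ → K[X] := fun l i => if l = q + 1 then (if i = q + 1 then 1 else 0)
    else if i = q + 1 then (if l = 0 then 0 else C (ch (l - 1)) * X ^ (q - l))
    else (g n (q + 1) r' i).coeff l with hgh
  obtain ⟨t, ht1, ht2⟩ := exists_adj (q + 1) gh
  set Δ : K := dt (q + 1) (fun l i => (g n q r i).coeff l) with hΔ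
  have hΔ0 : Δ ≠ 0 := H.p2
  have e2 : ev (dt (q + 2) gh) = Δ := by
    rw [dt_map, dt_last]
    · have h1 : ev (gh (q + 1) (q + 1)) = 1 := by simp [hgh]
      rw [h1, one_mul]
      apply dt_congr
      intro l hl i hi
      have h2 : gh l i = (g n (q + 1) r' i).coeff l := by
        simp only [hgh]
        rw [if_neg (by omega), if_neg (by omega)]
      rw [h2, e1 i (by omega)]
    · intro j hj
      have : gh (q + 1) j = 0 := by
        simp only [hgh, if_true]
        rw [if_neg (by omega)]
      rw [this, map_zero]
  have htq : t (q + 1) = dt (q + 2) gh := by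
    rw [← ht2, Finset.sum_range_succ, Finset.sum_eq_zero]
    · simp [hgh]
    · intro j hj
      have hj' := Finset.mem_range.mp hj
      have : gh (q + 1) j = 0 := by
        simp only [hgh, if_true]
        rw [if_neg (by omega)]
      rw [this, zero_mul]
  set t0 : ℕ → K := fun i => ev (t i) with ht0
  have t0q : t0 (q + 1) = Δ := by simp only [ht0, htq, e2]
  have ghg : ∀ l < q + 1, ∀ i < q + 1, gh l i = (g n (q + 1) r' i).coeff l := by
    intro l hl i hi
    simp only [hgh]
    rw [if_neg (by omega), if_neg (by omega)]
  -- equations at epsilon = 0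
  have e3 : ∀ l < q, ∑ i ∈ range (q + 1), (g n q r i).coeff l * t0 i = 0 := by
    intro l hl
    have h1 := congrArg ev (ht1 l (by omega))
    rw [Finset.sum_range_succ, map_add, map_zero, map_mul, map_sum] at h1
    have h2 : ev (gh l (q + 1)) = 0 := by
      simp only [hgh]
      rw [if_neg (by omega), if_pos trivial]
      split_ifs
      · exact map_zero ev
      · rw [map_mul, map_pow, evX, zero_pow (by omega), mul_zero]
    rw [h2, zero_mul, add_zero] at h1
    rw [← h1]
    refine Finset.sum_congr rfl fun i hi => ?_
    have hi' := Finset.mem_range.mp hi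
    rw [ghg l (by omega) i hi', map_mul, e1 i (by omega)]
  have e3' : ∑ i ∈ range (q + 1), (g n q r i).coeff q * t0 i = - (ch (q - 1) * Δ) := by
    have h1 := congrArg ev (ht1 q (by omega))
    rw [Finset.sum_range_succ, map_add, map_zero, map_mul, map_sum] at h1
    have h2 : ev (gh q (q + 1)) = ch (q - 1) := by
      simp only [hgh]
      rw [if_neg (by omega), if_pos trivial, if_neg (by omega), Nat.sub_self, pow_zero, mul_one, evC]
    have h3 : ev (t (q + 1)) = Δ := t0q
    rw [h2, h3] at h1
    rw [← sub_eq_zero, sub_neg_eq_add, ← h1]
    congr 1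
    refine Finset.sum_congr rfl fun i hi => ?_
    have hi' := Finset.mem_range.mp hi
    rw [ghg q (by omega) i hi', map_mul, e1 i (by omega)]
  -- comparison with the old weights
  set T : K := ∑ i ∈ range (q + 1), (g n q r i).coeff q * τ i with hT
  have hT0 : T ≠ 0 := by
    intro e
    have := eq_zero_of_dt (q + 1) (fun l i => (g n q r i).coeff l) H.p2 τ (by
      intro i hi
      rcases Nat.lt_or_ge i q with h1 | h1
      · exact H.p1 i h1
      · have : i = q := by omega
        subst this
        exact e) 0 (by omega)
    exact H.p4 0 (by omega) this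
  set lam : K := - (ch (q - 1) * Δ) / T with hlam
  have hlam0 : lam ≠ 0 := div_ne_zero (neg_ne_zero.mpr (mul_ne_zero (chne _ (by omega)) hΔ0)) hT0
  have e4 : ∀ i ≤ q, t0 i = lam * τ i := by
    intro i hi
    have := eq_zero_of_dt (q + 1) (fun l i => (g n q r i).coeff l) H.p2
      (fun i => t0 i - lam * τ i) (by
        intro l hl
        have h1 : ∑ j ∈ range (q + 1), (g n q r j).coeff l * (t0 j - lam * τ j)
            = ∑ j ∈ range (q + 1), (g n q r j).coeff l * t0 j
              - lam * ∑ j ∈ range (q + 1), (g n q r j).coeff l * τ j := by
          rw [Finset.mul_sum, ← Finset.sum_sub_distrib]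
          refine Finset.sum_congr rfl fun j _ => by ring
        rw [h1]
        rcases Nat.lt_or_ge l q with h2 | h2
        · rw [e3 l h2, H.p1 l h2]; ring
        · have : l = q := by omega
          subst this
          rw [e3', ← hT, hlam]
          field_simp
          ring) i (by omega)
    exact sub_eq_zero.mp this
  have tne : ∀ i ≤ q + 1, t i ≠ 0 := by
    intro i hi e
    have h1 : t0 i = 0 := by simp only [ht0, e, map_zero]
    rcases Nat.lt_or_ge i (q + 1) with h2 | h2
    · rw [e4 i (by omega)] at h1
      exact mul_ne_zero hlam0 (H.p4 i (by omega)) h1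
    · have : i = q + 1 := by omega
      subst this
      rw [t0q] at h1
      exact hΔ0 h1
  -- the new weights
  set τ' : ℕ → K[X] := fun i => if i ≤ q then X ^ (n + 2 - q) * t i else t i with hτ'
  have τ'le : ∀ i ≤ q, τ' i = X ^ (n + 2 - q) * t i := fun i hi => by simp [hτ', hi]
  have τ'q : τ' (q + 1) = t (q + 1) := by simp [hτ']
  -- the coefficients of the last column
  have glast0 : (g n (q + 1) r' (q + 1)).coeff 0 = 0 := by
    unfold g
    rw [if_neg (by omega), coeff_X_mul_zero]
  have glast : ∀ l, (g n (q + 1) r' (q + 1)).coeff (l + 1) = X ^ (n + 1 - l) * C (ch l) := by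
    intro l
    unfold g
    rw [if_neg (by omega), coeff_X_mul, r'q, coeff_X_add_C_pow]
    simp [hch]
  refine ⟨r', τ', ?_, ?_, ?_, ?_, ?_⟩
  · -- p0
    rw [r'le 0 (by omega), r'le 2 hq2, H.p0.1, H.p0.2]
    exact ⟨C_1, rfl⟩
  · -- p1
    intro l hl
    have h1 : ∑ i ∈ range (q + 1 + 1), (g n (q + 1) r' i).coeff l * τ' i
        = X ^ (n + 2 - q) * ∑ i ∈ range (q + 1 + 1), gh l i * t i := by
      rw [Finset.sum_range_succ, Finset.sum_range_succ (fun i => gh l i * t i) (q + 1), mul_add,
        Finset.mul_sum]
      congr 1
      · refine Finset.sum_congr rfl fun i hi => ?_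
        have hi' := Finset.mem_range.mp hi
        rw [ghg l hl i hi', τ'le i (by omega)]
        ring
      · rw [τ'q]
        have h2 : (g n (q + 1) r' (q + 1)).coeff l = X ^ (n + 2 - q) * gh l (q + 1) := by
          simp only [hgh]
          rw [if_neg (by omega), if_pos trivial]
          rcases l with _ | l
          · rw [if_pos rfl, glast0, mul_zero]
          · rw [if_neg (by omega), glast, Nat.add_sub_cancel, mul_comm (C (ch l)), ← mul_assoc,
              ← pow_add]
            congr 2
            omega
        rw [h2, mul_assoc]
    rw [h1, ht1 l hl, mul_zero]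
  · -- p2
    set G2 : ℕ → ℕ → K[X] := fun l i => if i = q + 1 then
      (if l = 0 then 0 else C (ch (l - 1)) * X ^ (q + 1 - l)) else (g n (q + 1) r' i).coeff l with hG2
    have h1 : dt (q + 1 + 1) (fun l i => (g n (q + 1) r' i).coeff l)
        = (∏ i ∈ range (q + 1 + 1), (if i = q + 1 then X ^ (n + 1 - q) else 1 : K[X]))
          * dt (q + 1 + 1) G2 := by
      rw [← dt_col]
      apply dt_congr
      intro l hl i hi
      by_cases hi1 : i = q + 1
      · subst hi1
        simp only [if_true, hG2]
        rcases l with _ | l
        · rw [if_pos rfl, glast0, mul_zero]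
        · rw [if_neg (by omega), glast, Nat.add_sub_cancel, mul_comm (C (ch l)), ← mul_assoc,
            ← pow_add]
          congr 2
          omega
      · simp only [hG2, if_neg hi1, one_mul]
    rw [h1]
    apply mul_ne_zero
    · rw [Finset.prod_ne_zero_iff]
      intro i _
      split_ifs
      · exact pow_ne_zero _ X_ne_zero
      · exact one_ne_zero
    · intro e
      have h2 := congrArg ev e
      rw [map_zero, dt_map, dt_last_col] at h2
      · have h3 : ev (G2 (q + 1) (q + 1)) = ch q := by
          simp only [hG2]
          rw [if_pos trivial, if_neg (by omega), Nat.sub_self, pow_zero, mul_one, evC,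
            Nat.add_sub_cancel]
        rw [h3] at h2
        have h4 : dt (q + 1) (fun i j => ev (G2 i j)) = Δ := by
          apply dt_congr
          intro l hl i hi
          have : G2 l i = (g n (q + 1) r' i).coeff l := by
            simp only [hG2]
            rw [if_neg (by omega)]
          rw [this, e1 i (by omega)]
        rw [h4] at h2
        exact mul_ne_zero (chne q (by omega)) hΔ0 h2
      · intro l hl
        simp only [hG2]
        rw [if_pos trivial]
        split_ifs
        · exact map_zero ev
        · rw [map_mul, map_pow, evX, zero_pow (by omega), mul_zero]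
  · -- p3
    -- scaled matrix
    set u : ℕ → K[X] := fun l => ((X + C (C (r q)) : K[X][X]) ^ (n + 1)).coeff l with hu
    set v : ℕ → K[X] := fun l => if l = q + 1 then X else 1 with hv
    set w : ℕ → K[X] := fun i => if i = q + 1 then X ^ (n + 1 - q) else X ^ (n + 2 - q) with hw
    set S : ℕ → ℕ → K[X] := fun l i => if i = q + 1 then
      (if l = 0 then X * t q * u 0
        else if l = q + 1 then ((n : K[X]) + 1) * t (q + 1) * C ((n.choose q : ℕ) : K) + X ^ 2 * t q * u (q + 1)
        else ((n : K[X]) + 1) * t (q + 1) * C ((n.choose (l - 1) : ℕ) : K) * X ^ (q - l) + X * t q * u l)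
      else v l * (h n (q + 1) r' t i).coeff l with hS
    have hscale : ∀ i ≤ q, h n (q + 1) r' τ' i = C (X ^ (n + 2 - q)) * h n (q + 1) r' t i := by
      intro i hi
      unfold h
      rw [τ'le i hi]
      rcases i with _ | i
      · simp only [if_true]
        simp only [map_mul]
        ring
      · rw [if_neg (Nat.succ_ne_zero i), if_neg (Nat.succ_ne_zero i), Nat.add_sub_cancel,
          τ'le i (by omega)]
        simp only [map_mul]
        ring
    have hlast : ∀ l, (h n (q + 1) r' τ' (q + 1)).coeff l
        = ((n : K[X]) + 1) * t (q + 1) * (X * (X + C X) ^ n : K[X][X]).coeff l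
          + X ^ (n + 2 - q) * t q * u l := by
      intro l
      unfold h
      rw [if_neg (by omega), if_neg (by omega), Nat.add_sub_cancel, τ'q, τ'le q le_rfl, r'q,
        r'le q le_rfl, coeff_add, coeff_C_mul, mul_assoc, coeff_C_mul, mul_comm (((X : K[X][X]) + C X) ^ n) X]
    have key : dt (q + 1 + 1) (fun l i => v l * (h n (q + 1) r' τ' i).coeff l)
        = dt (q + 1 + 1) (fun l i => w i * S l i) := by
      apply dt_congr
      intro l hl i hi
      by_cases hi1 : i = q + 1
      · subst hi1
        simp only [hw, hS, if_true]
        rw [hlast]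
        rcases l with _ | l
        · rw [if_pos rfl, coeff_X_mul_zero]
          simp only [hv]
          rw [if_neg (by omega)]
          have h5 : (X : K[X]) ^ (n + 2 - q) = X ^ (n + 1 - q) * X := by
            rw [← pow_succ]; congr 1; omega
          rw [h5]; ring
        · rw [if_neg (by omega), coeff_X_mul, coeff_X_add_C_pow]
          by_cases hl1 : l = q
          · subst hl1
            simp only [hv, if_true]
            have h5 : (X : K[X]) ^ (n + 2 - l) = X ^ (n + 1 - l) * X := by
              rw [← pow_succ]; congr 1; omega
            have h6 : (X : K[X]) ^ (n + 1 - l) = X ^ (n - l) * X := by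
              rw [← pow_succ]; congr 1; omega
            rw [h5, h6, map_natCast]
            ring
          · rw [if_neg (by omega)]
            simp only [hv]
            rw [if_neg (by omega), Nat.add_sub_cancel]
            have h5 : (X : K[X]) ^ (n + 2 - q) = X ^ (n + 1 - q) * X := by
              rw [← pow_succ]; congr 1; omega
            have h6 : (X : K[X]) ^ (n - l) = X ^ (n + 1 - q) * X ^ (q - (l + 1)) := by
              rw [← pow_add]; congr 1; omega
            rw [h5, h6, map_natCast]
            ring
      · simp only [hw, hS, if_neg hi1]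
        rw [hscale i (by omega), coeff_C_mul]
        ring
    rw [dt_row, dt_col] at key
    intro e
    rw [e, mul_zero] at key
    have hS0 : dt (q + 1 + 1) S = 0 := by
      rcases mul_eq_zero.mp key.symm with h1 | h1
      · exfalso
        rw [Finset.prod_eq_zero_iff] at h1
        obtain ⟨i, _, hi⟩ := h1
        simp only [hw] at hi
        split_ifs at hi
        · exact pow_ne_zero _ X_ne_zero hi
        · exact pow_ne_zero _ X_ne_zero hi
      · exact h1
    have h2 := congrArg ev hS0
    rw [map_zero, dt_map, dt_last] at h2
    · have h3 : ev (S (q + 1) (q + 1)) = ((n : K) + 1) * Δ * (n.choose q : K) := by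
        simp only [hS, if_true]
        rw [if_neg (by omega)]
        simp only [map_add, map_mul, map_pow, evX, map_natCast, map_one]
        have : ev (t (q + 1)) = Δ := t0q
        rw [this]
        ring
      have h4 : dt (q + 1) (fun i j => ev (S i j))
          = lam ^ (q + 1) * dt (q + 1) (fun l i => (h n q r τ i).coeff l) := by
        have h5 : lam ^ (q + 1) = ∏ _i ∈ range (q + 1), lam := by simp
        rw [h5, ← dt_col]
        apply dt_congr
        intro l hl i hi
        have h6 : S l i = (h n (q + 1) r' t i).coeff l := by
          simp only [hS]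
          rw [if_neg (by omega)]
          simp only [hv]
          rw [if_neg (by omega), one_mul]
        rw [h6, h_coeff]
        have h7 : h n (q + 1) (fun j => ev (r' j)) (fun j => ev (t j)) i = C lam * h n q r τ i := by
          unfold h
          beta_reduce
          have a1 : ev (t i) = lam * τ i := e4 i (by omega)
          have a2 : ev (r' i) = r i := by rw [r'le i (by omega), evC]
          rw [a1, a2]
          have a3 : (if i < q + 1 then (X + C (ev (r' (i + 1))) : K[X]) else X)
              = (if i < q then (X + C (r (i + 1))) else X) := by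
            rw [if_pos (by omega)]
            rcases Nat.lt_or_ge i q with h8 | h8
            · rw [if_pos h8, r'le (i + 1) (by omega), evC]
            · have : i = q := by omega
              subst this
              rw [if_neg (by omega), r'q, evX, map_zero, add_zero]
          rw [a3]
          rcases i with _ | i
          · simp only [if_true]
            simp only [map_mul]
            ring
          · rw [if_neg (Nat.succ_ne_zero i), if_neg (Nat.succ_ne_zero i), Nat.add_sub_cancel]
            have a4 : ev (t i) = lam * τ i := e4 i (by omega)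
            have a5 : ev (r' i) = r i := by rw [r'le i (by omega), evC]
            rw [a4, a5]
            simp only [map_mul]
            ring
        rw [h7, coeff_C_mul]
      rw [h3, h4] at h2
      have n1 : (n : K) + 1 ≠ 0 := by exact_mod_cast Nat.succ_ne_zero n
      have n2 : (n.choose q : K) ≠ 0 := by exact_mod_cast (Nat.choose_pos hqn).ne'
      exact mul_ne_zero (mul_ne_zero (mul_ne_zero n1 hΔ0) n2)
        (mul_ne_zero (pow_ne_zero _ hlam0) H.p3) h2
    · intro j hj
      have : S (q + 1) j = X * (h n (q + 1) r' t j).coeff (q + 1) := by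
        simp only [hS]
        rw [if_neg (by omega)]
        simp only [hv, if_true]
      rw [this, map_mul, evX, zero_mul]
  · -- p4
    intro i hi
    rcases Nat.lt_or_ge i (q + 1) with h2 | h2
    · rw [τ'le i (by omega)]
      exact mul_ne_zero (pow_ne_zero _ X_ne_zero) (tne i hi)
    · have : i = q + 1 := by omega
      subst this
      rw [τ'q]
      exact tne _ hi

/-- The contact system has a non-degenerate solution over some field. -/
theorem lev_exists (k : Type) [Field k] [CharZero k] (n q : ℕ) (hn : 1 ≤ n) (hq2 : 2 ≤ q)
    (hqn : q ≤ n + 1) :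
    ∃ (K : Type) (_ : Field K) (_ : k →+* K) (r τ : ℕ → K), Lev n q r τ := by
  induction q with
  | zero => omega
  | succ q ih =>
    rcases Nat.lt_or_ge q 2 with h1 | h1
    · have : q = 1 := by omega
      subst this
      obtain ⟨r, τ, H⟩ := lev_base (K := k) n hn
      exact ⟨k, inferInstance, RingHom.id k, r, τ, H⟩
    · obtain ⟨K, iK, f, r, τ, H⟩ := ih h1 (by omega)
      have : CharZero K := charZero_of_injective_ringHom f.injective
      obtain ⟨r', τ', H'⟩ := lev_step h1 (by omega) H
      refine ⟨FractionRing K[X], inferInstance,
        ((algebraMap K[X] (FractionRing K[X])).comp C).comp f, _, _,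
        H'.map (algebraMap K[X] (FractionRing K[X])) (IsFractionRing.injective _ _)⟩

end W560.Sep
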