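import Mathlib
import Pool.Agent.W560.Sep.Step

/-! The contact system at generic nodes. -/

namespace W560.Sep

open Finset Polynomial

theorem g_congr {A : Type*} [CommRing A] {n q : ℕ} {r r' : ℕ → A} (hr : ∀ i ≤ q, r i = r' i)
    {i : ℕ} (hi : i ≤ q) : g n q r i = g n q r' i := by
  unfold g
  rw [hr i hi]
  split_ifs with h1
  · rw [hr (i + 1) (by omega)]
  · rfl

theorem h_congr {A : Type*} [CommRing A] {n q : ℕ} {r r' τ τ' : ℕ → A}
    (hr : ∀ i ≤ q, r i = r' i) (hτ : ∀ i ≤ q, τ i = τ' i)
    {i : ℕ} (hi : i ≤ q) : h n q r τ i = h n q r' τ' i := by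
  unfold h
  rw [hr i hi, hτ i hi]
  congr 1
  · split_ifs with h1
    · rw [hr (i + 1) (by omega)]
    · rfl
  · split_ifs with h1
    · rfl
    · rw [hr (i - 1) (by omega), hτ (i - 1) (by omega)]

theorem h_smul {A : Type*} [CommRing A] (n q : ℕ) (r τ : ℕ → A) (c : A) (i : ℕ) :
    h n q r (fun j => c * τ j) i = C c * h n q r τ i := by
  unfold h
  split_ifs
  all_goals
    simp only [map_mul]
    ring

theorem Lev.prop {K : Type*} [Field K] {n q : ℕ} {r τ : ℕ → K} (H : Lev n q r τ) (t : ℕ → K)
    (ht : ∀ l < q, ∑ i ∈ range (q + 1), (g n q r i).coeff l * t i = 0) :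
    ∃ lam : K, ∀ i ≤ q, t i = lam * τ i := by
  set T : K := ∑ i ∈ range (q + 1), (g n q r i).coeff q * τ i with hT
  have hT0 : T ≠ 0 := by
    intro e
    have := eq_zero_of_dt (q + 1) (fun l i => (g n q r i).coeff l) H.p2 τ (by
      intro i hi
      rcases Nat.lt_or_ge i q with h1 | h1
      · exact H.p1 i h1
      · have : i = q := by omega
        subst this
        exact e) 0 (by omega)
    exact H.p4 0 (by omega) this
  refine ⟨(∑ i ∈ range (q + 1), (g n q r i).coeff q * t i) / T, fun i hi => ?_⟩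
  set lam : K := (∑ i ∈ range (q + 1), (g n q r i).coeff q * t i) / T with hlam
  have := eq_zero_of_dt (q + 1) (fun l i => (g n q r i).coeff l) H.p2
    (fun i => t i - lam * τ i) (by
      intro l hl
      have h1 : ∑ j ∈ range (q + 1), (g n q r j).coeff l * (t j - lam * τ j)
          = ∑ j ∈ range (q + 1), (g n q r j).coeff l * t j
            - lam * ∑ j ∈ range (q + 1), (g n q r j).coeff l * τ j := by
        rw [Finset.mul_sum, ← Finset.sum_sub_distrib]
        refine Finset.sum_congr rfl fun j _ => by ring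
      rw [h1]
      rcases Nat.lt_or_ge l q with h2 | h2
      · rw [ht l h2, H.p1 l h2]; ring
      · have : l = q := by omega
        subst this
        rw [← hT, hlam]
        field_simp
        ring) i (by omega)
  exact sub_eq_zero.mp this

/-- generic nodes, normalised by `r 0 = 1`, `r 2 = 2` -/
noncomputable def rG (k : Type) [Field k] (n s : ℕ) (i : ℕ) :
    MvPolynomial (Fin (n + 2) ⊕ Fin s) k :=
  if i = 0 then 1 else if i = 2 then 2 else if hi : i < n + 2 then MvPolynomial.X (Sum.inl ⟨i, hi⟩)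
    else 0

theorem lev_generic (k : Type) [Field k] [CharZero k] (n s : ℕ) (hn : 1 ≤ n) :
    ∃ t : ℕ → MvPolynomial (Fin (n + 2) ⊕ Fin s) k, Lev n (n + 1) (rG k n s) t := by
  obtain ⟨K, iK, f, r, τ, H⟩ := lev_exists k n (n + 1) hn (by omega) le_rfl
  let φ : MvPolynomial (Fin (n + 2) ⊕ Fin s) k →+* K :=
    MvPolynomial.eval₂Hom f (Sum.elim (fun i : Fin (n + 2) => r i) (fun _ => 0))
  have hφ : ∀ i ≤ n + 1, φ (rG k n s i) = r i := by
    intro i hi
    unfold rG
    split_ifs with h1 h2 h3
    · subst h1; rw [map_one, H.p0.1]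
    · subst h2; rw [map_ofNat, H.p0.2]
    · simp [φ]
    · omega
  have hg : ∀ i ≤ n + 1, ∀ l, φ ((g n (n + 1) (rG k n s) i).coeff l) = (g n (n + 1) r i).coeff l := by
    intro i hi l
    rw [g_coeff, g_congr hφ hi]
  obtain ⟨t, ht1, ht2⟩ := exists_adj (n + 1) (fun l i => (g n (n + 1) (rG k n s) i).coeff l)
  have h1 : ∀ l < n + 1, ∑ i ∈ range (n + 1 + 1), (g n (n + 1) r i).coeff l * φ (t i) = 0 := by
    intro l hl
    have := congrArg φ (ht1 l hl)
    rw [map_zero, map_sum] at this
    rw [← this]
    refine Finset.sum_congr rfl fun i hi => ?_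
    have hi' := Finset.mem_range.mp hi
    rw [map_mul, hg i (by omega)]
  have h2 : ∑ i ∈ range (n + 1 + 1), (g n (n + 1) r i).coeff (n + 1) * φ (t i)
      = dt (n + 1 + 1) (fun l i => (g n (n + 1) r i).coeff l) := by
    have := congrArg φ ht2
    rw [map_sum, dt_map] at this
    rw [dt_congr (g := fun l i => (g n (n + 1) r i).coeff l)
      (fun l _ i hi => hg i (by omega) l)] at this
    rw [← this]
    refine Finset.sum_congr rfl fun i hi => ?_
    have hi' := Finset.mem_range.mp hi
    rw [map_mul, hg i (by omega)]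
  obtain ⟨lam, hlam⟩ := H.prop (fun i => φ (t i)) h1
  have hlam0 : lam ≠ 0 := by
    intro e
    apply H.p2
    rw [← h2]
    refine Finset.sum_eq_zero fun i hi => ?_
    have hi' := Finset.mem_range.mp hi
    have := hlam i (by omega)
    change φ (t i) = lam * τ i at this
    rw [this, e, zero_mul, mul_zero]
  refine ⟨t, ?_, ht1, ?_, ?_, ?_⟩
  · refine ⟨by simp [rG], by simp [rG]⟩
  · intro e
    have := congrArg φ e
    rw [map_zero, dt_map, dt_congr (g := fun l i => (g n (n + 1) r i).coeff l)
      (fun l _ i hi => hg i (by omega) l)] at this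
    exact H.p2 this
  · intro e
    have := congrArg φ e
    rw [map_zero, dt_map, dt_congr (g := fun l i => lam * (h n (n + 1) r τ i).coeff l)
      (fun l _ i hi => by
        rw [h_coeff, h_congr (r' := r) (τ' := fun j => lam * τ j) hφ hlam (by omega), h_smul,
          coeff_C_mul]), dt_col (n + 1 + 1) (fun _ => lam)] at this
    rcases mul_eq_zero.mp this with h3 | h3
    · rw [Finset.prod_const] at h3
      exact pow_ne_zero _ hlam0 h3
    · exact H.p3 h3
  · intro i hi e
    have := hlam i hi
    change φ (t i) = lam * τ i at this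
    rw [e, map_zero] at this
    exact mul_ne_zero hlam0 (H.p4 i hi) this.symm

end W560.Sep
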