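import Mathlib
import Pool.Agent.W560.Sep.Gen

/-! The main differential computation. -/

namespace W560.Sep

open Finset Polynomial

section

variable {E : Type*} [Field E] {n : ℕ} {r τ : ℕ → E}

/-- the sum over the contact system is `X ^ m + A X ^ (m+1)` -/
theorem psi_eq (H : Lev n (n + 1) r τ)
    (hT : ∑ i ∈ range (n + 1 + 1), (g n (n + 1) r i).coeff (n + 1) * τ i = 1) :
    ∑ i ∈ range (n + 1 + 1), C (τ i) * g n (n + 1) r i
      = X ^ (n + 1) + C (∑ i ∈ range (n + 1 + 1), τ i) * X ^ (n + 2) := by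
  have hdeg : ∀ (a : E) (k l : ℕ), k < l → ((X + C a) ^ k).coeff l = 0 := by
    intro a k l hkl
    rw [coeff_X_add_C_pow, Nat.choose_eq_zero_of_lt hkl]; simp
  have htop : ∀ (a : E) (k : ℕ), ((X + C a) ^ k).coeff k = 1 := by
    intro a k
    rw [coeff_X_add_C_pow]; simp
  have gtop : ∀ i, (g n (n + 1) r i).coeff (n + 2) = 1 := by
    intro i
    unfold g
    split_ifs with h1
    · rw [coeff_mul_XC_succ, htop, hdeg _ _ _ (by omega), zero_mul, add_zero]
    · rw [coeff_X_mul, htop]
  have gbig : ∀ i l, n + 2 < l → (g n (n + 1) r i).coeff l = 0 := by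
    intro i l hl
    obtain ⟨l, rfl⟩ : ∃ l', l = l' + 1 := ⟨l - 1, by omega⟩
    unfold g
    split_ifs with h1
    · rw [coeff_mul_XC_succ, hdeg _ _ _ (by omega), hdeg _ _ _ (by omega), zero_mul, add_zero]
    · rw [coeff_X_mul, hdeg _ _ _ (by omega)]
  ext l
  rw [finsetSum_coeff, coeff_add, coeff_X_pow, coeff_C_mul, coeff_X_pow]
  have h1 : ∀ i ∈ range (n + 1 + 1), (C (τ i) * g n (n + 1) r i).coeff l
      = (g n (n + 1) r i).coeff l * τ i := by
    intro i _
    rw [coeff_C_mul, mul_comm]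
  rw [Finset.sum_congr rfl h1]
  rcases Nat.lt_trichotomy l (n + 1) with h2 | h2 | h2
  · rw [H.p1 l h2, if_neg (by omega), if_neg (by omega)]; simp
  · subst h2
    rw [hT, if_pos rfl, if_neg (by omega)]; simp
  · rw [if_neg (by omega)]
    rcases Nat.lt_trichotomy l (n + 2) with h3 | h3 | h3
    · omega
    · subst h3
      rw [if_pos rfl]
      simp only [gtop]
      simp
    · rw [if_neg (by omega)]
      simp only [gbig _ l h3]
      simp

theorem h_sum (e : ℕ → E) (z : E) :
    ∑ i ∈ range (n + 1 + 1), e i * (h n (n + 1) r τ i).eval z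
      = ∑ i ∈ range (n + 1), τ i * (((n : E) + 1) * (z + r i) ^ n * (z + r (i + 1)) * e i
          + (z + r i) ^ (n + 1) * e (i + 1))
        + ((n : E) + 1) * τ (n + 1) * (z + r (n + 1)) ^ n * z * e (n + 1) := by
  have h1 : ∀ i, (h n (n + 1) r τ i).eval z
      = ((n : E) + 1) * τ i * (z + r i) ^ n * (if i < n + 1 then z + r (i + 1) else z)
        + (if i = 0 then 0 else τ (i - 1) * (z + r (i - 1)) ^ (n + 1)) := by
    intro i
    unfold h
    split_ifs <;> simp
  have hL : ∑ i ∈ range (n + 1 + 1), e i * (h n (n + 1) r τ i).eval z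
      = ∑ i ∈ range (n + 1 + 1), e i * (((n : E) + 1) * τ i * (z + r i) ^ n *
          (if i < n + 1 then z + r (i + 1) else z))
        + ∑ i ∈ range (n + 1 + 1), e i *
          (if i = 0 then 0 else τ (i - 1) * (z + r (i - 1)) ^ (n + 1)) := by
    rw [← Finset.sum_add_distrib]
    refine Finset.sum_congr rfl fun i _ => by rw [h1]; ring
  rw [hL, Finset.sum_range_succ, Finset.sum_range_succ' (fun i => e i *
    (if i = 0 then 0 else τ (i - 1) * (z + r (i - 1)) ^ (n + 1)))]
  simp only [if_true, mul_zero, add_zero, Nat.add_sub_cancel, Nat.succ_ne_zero, if_false,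
    lt_irrefl]
  have h2 : ∑ x ∈ range (n + 1), e x * (((n : E) + 1) * τ x * (z + r x) ^ n *
      (if x < n + 1 then z + r (x + 1) else z))
      = ∑ x ∈ range (n + 1), e x * (((n : E) + 1) * τ x * (z + r x) ^ n * (z + r (x + 1))) := by
    refine Finset.sum_congr rfl fun i hi => ?_
    rw [if_pos (Finset.mem_range.mp hi)]
  have h4 : ∑ i ∈ range (n + 1), τ i * (((n : E) + 1) * (z + r i) ^ n * (z + r (i + 1)) * e i
          + (z + r i) ^ (n + 1) * e (i + 1))
      = ∑ x ∈ range (n + 1), e x * (((n : E) + 1) * τ x * (z + r x) ^ n * (z + r (x + 1)))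
        + ∑ x ∈ range (n + 1), e (x + 1) * (τ x * (z + r x) ^ (n + 1)) := by
    rw [← Finset.sum_add_distrib]
    refine Finset.sum_congr rfl fun i _ => by ring
  rw [h2, h4]
  ring

/-- Euler identity -/
theorem euler (H : Lev n (n + 1) r τ)
    (hT : ∑ i ∈ range (n + 1 + 1), (g n (n + 1) r i).coeff (n + 1) * τ i = 1) (z : E) :
    ∑ i ∈ range (n + 1 + 1), r i * (h n (n + 1) r τ i).eval z = z ^ (n + 1) := by
  rw [h_sum]
  have h1 := psi_eq H hT
  have h2 := congrArg (fun P : E[X] => P.eval z) h1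
  have h3 := congrArg (fun P : E[X] => (derivative P).eval z) h1
  simp only [eval_finsetSum, derivative_sum, eval_add, eval_mul, eval_C, eval_pow, eval_X,
    derivative_add, derivative_mul, derivative_C, zero_mul, zero_add, derivative_X_pow,
    Nat.add_sub_cancel] at h2 h3
  rw [Finset.sum_range_succ] at h2 h3
  have g1 : ∀ i ∈ range (n + 1), (g n (n + 1) r i).eval z = (z + r i) ^ (n + 1) * (z + r (i + 1)) := by
    intro i hi
    unfold g
    rw [if_pos (Finset.mem_range.mp hi)]
    simp
  have g2 : (g n (n + 1) r (n + 1)).eval z = z * (z + r (n + 1)) ^ (n + 1) := by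
    unfold g
    rw [if_neg (by omega)]
    simp
  have d1 : ∀ i ∈ range (n + 1), (derivative (g n (n + 1) r i)).eval z
      = ((n : E) + 1) * (z + r i) ^ n * (z + r (i + 1)) + (z + r i) ^ (n + 1) := by
    intro i hi
    unfold g
    rw [if_pos (Finset.mem_range.mp hi)]
    simp [derivative_pow]
  have d2 : (derivative (g n (n + 1) r (n + 1))).eval z
      = (z + r (n + 1)) ^ (n + 1) + z * (((n : E) + 1) * (z + r (n + 1)) ^ n) := by
    unfold g
    rw [if_neg (by omega)]
    simp [derivative_pow]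
  rw [Finset.sum_congr rfl (fun i hi => by rw [g1 i hi]), g2] at h2
  rw [Finset.sum_congr rfl (fun i hi => by rw [d1 i hi]), d2] at h3
  have key : ∑ i ∈ range (n + 1), τ i * (((n : E) + 1) * (z + r i) ^ n * (z + r (i + 1)) * r i
          + (z + r i) ^ (n + 1) * r (i + 1))
      = ((n : E) + 2) * ∑ i ∈ range (n + 1), τ i * ((z + r i) ^ (n + 1) * (z + r (i + 1)))
        - z * ∑ i ∈ range (n + 1), τ i * (((n : E) + 1) * (z + r i) ^ n * (z + r (i + 1))
          + (z + r i) ^ (n + 1)) := by
    rw [Finset.mul_sum, Finset.mul_sum, ← Finset.sum_sub_distrib]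
    refine Finset.sum_congr rfl fun i _ => by ring
  rw [key]
  push_cast at h2 h3
  have hz : (n + 1 + 1 : ℕ) = n + 2 := rfl
  linear_combination ((n : E) + 2) * h2 - z * h3

end

end W560.Sep
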