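import Mathlib
import Pool.Agent.W560.Sep.Der

/-! A derivation killing the point kills the parameters. -/

namespace W560.Sep

open Finset Polynomial

theorem D3 {R E : Type*} [CommRing R] [Field E] [Algebra R E] (D : Derivation R E E)
    (w a b : E) (n : ℕ) : D (w * a ^ (n + 1) * b)
      = D w * a ^ (n + 1) * b + w * (((n : E) + 1) * a ^ n * D a) * b + w * a ^ (n + 1) * D b := by
  rw [Derivation.leibniz, Derivation.leibniz, Derivation.leibniz_pow]
  simp only [smul_eq_mul, nsmul_eq_mul, Nat.add_sub_cancel]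
  push_cast
  ring

theorem der_zero {R E : Type*} [CommRing R] [Field E] [CharZero E] [Algebra R E]
    (D : Derivation R E E) {n : ℕ} {r τ : ℕ → E} (hn : 1 ≤ n) (H : Lev n (n + 1) r τ)
    (hT : ∑ i ∈ range (n + 1 + 1), (g n (n + 1) r i).coeff (n + 1) * τ i = 1)
    (μ c hv : E) (y0 : ℕ → E) (hμ : μ ≠ 0)
    (hw : ∀ i ≤ n + 1, (y0 i) ^ (n + 1) * y0 (i + 1) = μ * τ i)
    (hc : μ * (∑ i ∈ range (n + 1 + 1), τ i + c) + hv = 0)
    (hz : ∀ i ≤ n + 1, 1 + r i * c ≠ 0)
    (hDy : ∀ i ≤ n + 1, D (y0 i * (1 + r i * c)) = 0) (hDx : D (y0 (n + 2)) = 0)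
    (hDh : D hv = 0) :
    (∀ i ≤ n + 1, D (r i) = 0) ∧ D μ = 0 ∧ D (y0 0) = 0 := by
  set A0 := ∑ i ∈ range (n + 1 + 1), τ i with hA0
  set δ : ℕ → E := fun i => D (1 + r i * c) / (1 + r i * c) with hδ
  set κ : ℕ → E := fun i => D (r i) - δ i * r i with hκ
  have hδκ : ∀ i ≤ n + 1, δ i = r i * D c + c * κ i := by
    intro i hi
    have h1 : D (1 + r i * c) = r i * D c + c * D (r i) := by
      rw [map_add, Derivation.map_one_eq_zero, Derivation.leibniz, zero_add]
      simp only [smul_eq_mul]
    have h2 : δ i * (1 + r i * c) = r i * D c + c * D (r i) := by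
      rw [← h1, hδ]
      exact div_mul_cancel₀ _ (hz i hi)
    simp only [hκ]
    linear_combination h2
  have hDy0 : ∀ i ≤ n + 1, D (y0 i) = - δ i * y0 i := by
    intro i hi
    have h1 := hDy i hi
    rw [Derivation.leibniz] at h1
    simp only [smul_eq_mul] at h1
    have h2 : δ i * (1 + r i * c) = D (1 + r i * c) := div_mul_cancel₀ _ (hz i hi)
    have h3 : (1 + r i * c) * (D (y0 i) + δ i * y0 i) = 0 := by
      linear_combination h1 + y0 i * h2
    have h4 := (mul_eq_zero.mp h3).resolve_left (hz i hi)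
    linear_combination h4
  set W : ℕ → E := fun i => μ * τ i with hW
  have hDW : ∀ i < n + 1, D (W i) = - (((n : E) + 1) * δ i + δ (i + 1)) * W i := by
    intro i hi
    have h1 : W i = 1 * y0 i ^ (n + 1) * y0 (i + 1) := by
      simp only [hW]; rw [one_mul, hw i (by omega)]
    rw [h1, D3, hDy0 i (by omega), hDy0 (i + 1) (by omega), Derivation.map_one_eq_zero]
    ring
  have hDWl : D (W (n + 1)) = - (((n : E) + 1) * δ (n + 1)) * W (n + 1) := by
    have h1 : W (n + 1) = 1 * y0 (n + 1) ^ (n + 1) * y0 (n + 2) := by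
      simp only [hW]; rw [one_mul, hw (n + 1) le_rfl]
    rw [h1, D3, hDy0 (n + 1) (by omega), hDx, Derivation.map_one_eq_zero]
    ring
  -- the identity at natural numbers
  have hpsi := psi_eq H hT
  have hI : ∀ z : E, ∑ i ∈ range (n + 1), W i * (z + r i) ^ (n + 1) * (z + r (i + 1))
      + W (n + 1) * (z + r (n + 1)) ^ (n + 1) * z
      = μ * z ^ (n + 1) - (hv + μ * c) * z ^ (n + 2) := by
    intro z
    have h2 := congrArg (fun P : E[X] => P.eval z) hpsi
    simp only [eval_finsetSum, eval_add, eval_mul, eval_C, eval_pow, eval_X] at h2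
    rw [Finset.sum_range_succ] at h2
    have g1 : ∀ i ∈ range (n + 1), (g n (n + 1) r i).eval z
        = (z + r i) ^ (n + 1) * (z + r (i + 1)) := by
      intro i hi
      unfold g
      rw [if_pos (Finset.mem_range.mp hi)]
      simp
    have g2 : (g n (n + 1) r (n + 1)).eval z = z * (z + r (n + 1)) ^ (n + 1) := by
      unfold g
      rw [if_neg (by omega)]
      simp
    rw [Finset.sum_congr rfl (fun i hi => by rw [g1 i hi]), g2] at h2
    have h3 : ∑ i ∈ range (n + 1), W i * (z + r i) ^ (n + 1) * (z + r (i + 1))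
        = μ * ∑ i ∈ range (n + 1), τ i * ((z + r i) ^ (n + 1) * (z + r (i + 1))) := by
      rw [Finset.mul_sum]
      refine Finset.sum_congr rfl fun i _ => by simp only [hW]; ring
    rw [h3]
    simp only [hW]
    linear_combination μ * h2 + z ^ (n + 2) * hc
  have hmain : ∀ z : ℕ, (1 - c * z) * (∑ i ∈ range (n + 1 + 1), κ i * (h n (n + 1) r τ i).eval (z : E)
      - D μ / μ * (z : E) ^ (n + 1)) = 0 := by
    intro z
    have h1 := congrArg D (hI (z : E))
    have hDz : D (z : E) = 0 := Derivation.map_natCast D z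
    have hDzr : ∀ i, D ((z : E) + r i) = D (r i) := by
      intro i; rw [map_add, hDz, zero_add]
    rw [map_add, map_sum, map_sub] at h1
    have h2 : D (μ * (z : E) ^ (n + 1)) = D μ * (z : E) ^ (n + 1) := by
      have := D3 D μ (z : E) 1 n
      rw [mul_one, hDz, Derivation.map_one_eq_zero] at this
      rw [this]; ring
    have h3 : D ((hv + μ * c) * (z : E) ^ (n + 2)) = (D μ * c + μ * D c) * (z : E) ^ (n + 2) := by
      have := D3 D (hv + μ * c) (z : E) 1 (n + 1)
      rw [mul_one, hDz, Derivation.map_one_eq_zero] at this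
      rw [this, map_add, hDh, Derivation.leibniz]
      simp only [smul_eq_mul]
      ring
    rw [h2, h3, D3, hDWl, hDzr, hDz] at h1
    set e : ℕ → E := fun i => D (r i) - δ i * ((z : E) + r i) with he
    have h4 : ∀ i ∈ range (n + 1), D (W i * ((z : E) + r i) ^ (n + 1) * ((z : E) + r (i + 1)))
        = μ * (τ i * (((n : E) + 1) * ((z : E) + r i) ^ n * ((z : E) + r (i + 1)) * e i
          + ((z : E) + r i) ^ (n + 1) * e (i + 1))) := by
      intro i hi
      rw [D3, hDW i (Finset.mem_range.mp hi), hDzr, hDzr]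
      simp only [he, hW]
      ring
    rw [Finset.sum_congr rfl h4, ← Finset.mul_sum] at h1
    have h5 := h_sum (n := n) (r := r) (τ := τ) e (z : E)
    have h6 : ∑ i ∈ range (n + 1 + 1), e i * (h n (n + 1) r τ i).eval (z : E)
        = (1 - c * z) * ∑ i ∈ range (n + 1 + 1), κ i * (h n (n + 1) r τ i).eval (z : E)
          - z * D c * ∑ i ∈ range (n + 1 + 1), r i * (h n (n + 1) r τ i).eval (z : E) := by
      rw [Finset.mul_sum, Finset.mul_sum, ← Finset.sum_sub_distrib]
      refine Finset.sum_congr rfl fun i hi => ?_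
      have hi' := Finset.mem_range.mp hi
      have h7 : e i = κ i * (1 - c * z) - r i * z * D c := by
        have := hδκ i (by omega)
        simp only [he, hκ] at this ⊢
        linear_combination (-(z : E)) * this
      rw [h7]; ring
    rw [euler H hT] at h6
    rw [h6] at h5
    have h8 : μ * (D μ / μ) = D μ := mul_div_cancel₀ _ hμ
    apply mul_left_cancel₀ hμ
    rw [mul_zero]
    simp only [hW, he] at h1
    simp only [he] at h5
    linear_combination h1 + μ * h5 - (1 - c * z) * (z : E) ^ (n + 1) * h8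
  -- polynomial identities
  have hroot : ∀ P : E[X], (∀ z : ℕ, P.eval (z : E) = 0) → P = 0 := by
    intro P hP
    apply Polynomial.eq_zero_of_infinite_isRoot
    apply Set.Infinite.mono (s := Set.range (fun z : ℕ => (z : E)))
    · rintro _ ⟨z, rfl⟩
      exact hP z
    · exact Set.infinite_range_of_injective Nat.cast_injective
  set η := D μ / μ with hη
  have hP1 : ∑ i ∈ range (n + 1 + 1), C (κ i) * h n (n + 1) r τ i - C η * X ^ (n + 1) = 0 := by
    have h1 : (1 - C c * X) * (∑ i ∈ range (n + 1 + 1), C (κ i) * h n (n + 1) r τ i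
        - C η * X ^ (n + 1)) = 0 := by
      apply hroot
      intro z
      have := hmain z
      simpa [eval_finsetSum] using this
    rcases mul_eq_zero.mp h1 with h2 | h2
    · exfalso
      have := congrArg (fun P : E[X] => P.eval 0) h2
      simp at this
    · exact h2
  have hP2 : ∑ i ∈ range (n + 1 + 1), C (r i) * h n (n + 1) r τ i - X ^ (n + 1) = 0 := by
    apply hroot
    intro z
    have := euler H hT (z : E)
    simp only [eval_sub, eval_finsetSum, eval_mul, eval_C, eval_pow, eval_X]
    rw [this, sub_self]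
  have hv : ∀ i < n + 1 + 1, κ i - η * r i = 0 := by
    apply eq_zero_of_dt (n + 1 + 1) (fun l i => (h n (n + 1) r τ i).coeff l) H.p3
      (fun i => κ i - η * r i)
    intro l _
    have h1 := congrArg (fun P : E[X] => P.coeff l) hP1
    have h2 := congrArg (fun P : E[X] => P.coeff l) hP2
    simp only [coeff_sub, finsetSum_coeff, coeff_C_mul, coeff_zero] at h1 h2
    have h3 : ∑ j ∈ range (n + 1 + 1), (h n (n + 1) r τ j).coeff l * (κ j - η * r j)
        = ∑ j ∈ range (n + 1 + 1), κ j * (h n (n + 1) r τ j).coeff l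
          - η * ∑ j ∈ range (n + 1 + 1), r j * (h n (n + 1) r τ j).coeff l := by
      rw [Finset.mul_sum, ← Finset.sum_sub_distrib]
      refine Finset.sum_congr rfl fun i _ => by ring
    rw [h3]
    linear_combination h1 - η * h2
  have hκη : ∀ i ≤ n + 1, κ i = η * r i := fun i hi => sub_eq_zero.mp (hv i (by omega))
  set θ := D c + c * η with hθ
  have hδθ : ∀ i ≤ n + 1, δ i = r i * θ := by
    intro i hi
    rw [hδκ i hi, hκη i hi, hθ]; ring
  have hρ : ∀ i ≤ n + 1, D (r i) = (η + θ * r i) * r i := by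
    intro i hi
    have h1 := hκη i hi
    have h2 := hδθ i hi
    have h3 : κ i = D (r i) - δ i * r i := rfl
    rw [h3, h2] at h1
    linear_combination h1
  have q0 := hρ 0 (by omega)
  have q2 := hρ 2 (by omega)
  rw [H.p0.1, Derivation.map_one_eq_zero] at q0
  have hD2 : D (2 : E) = 0 := by
    have := Derivation.map_natCast D 2
    simpa using this
  rw [H.p0.2, hD2] at q2
  have hθ0 : θ = 0 := by linear_combination (1 / 2) * q2.symm - q0.symm
  have hη0 : η = 0 := by rw [hθ0] at q0; linear_combination - q0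
  refine ⟨fun i hi => ?_, ?_, ?_⟩
  · rw [hρ i hi, hη0, hθ0]; ring
  · have : D μ / μ = 0 := hη0
    rcases div_eq_zero_iff.mp this with h1 | h1
    · exact h1
    · exact absurd h1 hμ
  · rw [hDy0 0 (by omega), hδθ 0 (by omega), hθ0]; ring

end W560.Sep
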