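import Mathlib
import Pool.Agent.W560.Sep.Der2
import Pool.Agent.W560.Ueno.Indep

/-! The parametrised point on the chain hypersurface. -/

namespace W560.Sep

open Finset Polynomial

theorem Lev.normalise {K : Type*} [Field K] {n q : ℕ} {r t : ℕ → K} (H : Lev n q r t) :
    ∃ τ : ℕ → K, Lev n q r τ ∧ ∑ i ∈ range (q + 1), (g n q r i).coeff q * τ i = 1 := by
  set T : K := ∑ i ∈ range (q + 1), (g n q r i).coeff q * t i with hT
  have hT0 : T ≠ 0 := by
    intro e
    have := eq_zero_of_dt (q + 1) (fun l i => (g n q r i).coeff l) H.p2 t (by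
      intro i hi
      rcases Nat.lt_or_ge i q with h1 | h1
      · exact H.p1 i h1
      · have : i = q := by omega
        subst this
        exact e) 0 (by omega)
    exact H.p4 0 (by omega) this
  have hsum : ∀ l, ∑ i ∈ range (q + 1), (g n q r i).coeff l * (T⁻¹ * t i)
      = T⁻¹ * ∑ i ∈ range (q + 1), (g n q r i).coeff l * t i := by
    intro l
    rw [Finset.mul_sum]
    refine Finset.sum_congr rfl fun i _ => by ring
  refine ⟨fun i => T⁻¹ * t i, ⟨H.p0, ?_, H.p2, ?_, ?_⟩, ?_⟩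
  · intro l hl
    rw [hsum, H.p1 l hl, mul_zero]
  · have h1 : dt (q + 1) (fun l i => (h n q r (fun i => T⁻¹ * t i) i).coeff l)
        = (∏ _i ∈ range (q + 1), T⁻¹) * dt (q + 1) (fun l i => (h n q r t i).coeff l) := by
      rw [← dt_col]
      apply dt_congr
      intro l _ i _
      rw [h_smul, coeff_C_mul]
    rw [h1]
    apply mul_ne_zero _ H.p3
    rw [Finset.prod_const]
    exact pow_ne_zero _ (inv_ne_zero hT0)
  · intro i hi
    exact mul_ne_zero (inv_ne_zero hT0) (H.p4 i hi)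
  · rw [hsum]
    exact inv_mul_cancel₀ hT0

/-- points on the line at parameter `0` -/
noncomputable def yy {E : Type*} [Field E] (n : ℕ) (μ a : E) (τ : ℕ → E) : ℕ → E
  | 0 => a
  | i + 1 => μ * τ i / (yy n μ a τ i) ^ (n + 1)

theorem yy_ne {E : Type*} [Field E] {n N : ℕ} {μ a : E} {τ : ℕ → E} (hμ : μ ≠ 0) (ha : a ≠ 0)
    (hτ : ∀ i ≤ N, τ i ≠ 0) : ∀ i ≤ N + 1, yy n μ a τ i ≠ 0 := by
  intro i
  induction i with
  | zero => intro _; exact ha
  | succ i ih =>
    intro hi
    exact div_ne_zero (mul_ne_zero hμ (hτ i (by omega))) (pow_ne_zero _ (ih (by omega)))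

theorem yy_mul {E : Type*} [Field E] {n N : ℕ} {μ a : E} {τ : ℕ → E} (hμ : μ ≠ 0) (ha : a ≠ 0)
    (hτ : ∀ i ≤ N, τ i ≠ 0) (i : ℕ) (hi : i ≤ N) :
    (yy n μ a τ i) ^ (n + 1) * yy n μ a τ (i + 1) = μ * τ i := by
  have h1 := yy_ne (n := n) hμ ha hτ i (by omega)
  change yy n μ a τ i ^ (n + 1) * (μ * τ i / (yy n μ a τ i) ^ (n + 1)) = μ * τ i
  exact mul_div_cancel₀ _ (pow_ne_zero _ h1)

theorem yy_map {E : Type*} [Field E] {n N : ℕ} {μ a : E} {τ : ℕ → E} (σ : E →+* E)
    (hμ : σ μ = μ) (ha : σ a = 2 * a) (hτ : ∀ i ≤ N, σ (τ i) = τ i) :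
    ∀ i ≤ N + 1, σ (yy n μ a τ i) = (2 : E) ^ ((-((n : ℤ) + 1)) ^ i) * yy n μ a τ i := by
  intro i
  induction i with
  | zero => intro _; simp [yy, ha]
  | succ i ih =>
    intro hi
    change σ (μ * τ i / (yy n μ a τ i) ^ (n + 1))
      = (2 : E) ^ ((-((n : ℤ) + 1)) ^ (i + 1)) * (μ * τ i / (yy n μ a τ i) ^ (n + 1))
    rw [map_div₀, map_mul, hμ, hτ i (by omega), map_pow, ih (by omega), mul_pow, ← zpow_natCast,
      ← zpow_mul]
    have h1 : (-((n : ℤ) + 1)) ^ (i + 1) = - ((-((n : ℤ) + 1)) ^ i * ((n + 1 : ℕ) : ℤ)) := by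
      push_cast; ring
    rw [h1, zpow_neg]
    field_simp

variable (k : Type) [Field k] (n s : ℕ)

/-- parameter space -/
abbrev EE := FractionRing (MvPolynomial (Fin (n + 2) ⊕ Fin s) k)

/-- the variables -/
noncomputable def tv (j : Fin (n + 2) ⊕ Fin s) : EE k n s :=
  algebraMap (MvPolynomial (Fin (n + 2) ⊕ Fin s) k) _ (MvPolynomial.X j)

/-- an endomorphism doubling one variable -/
theorem exists_sigma [CharZero k] (j0 : Fin (n + 2) ⊕ Fin s) :
    ∃ σ : EE k n s →+* EE k n s, σ (tv k n s j0) = 2 * tv k n s j0 ∧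
      ∀ j ≠ j0, σ (tv k n s j) = tv k n s j := by
  classical
  set f : MvPolynomial (Fin (n + 2) ⊕ Fin s) k →ₐ[k] MvPolynomial (Fin (n + 2) ⊕ Fin s) k :=
    MvPolynomial.aeval
    (fun j => if j = j0 then 2 * MvPolynomial.X j else MvPolynomial.X j) with hf
  set f' : MvPolynomial (Fin (n + 2) ⊕ Fin s) k →ₐ[k] MvPolynomial (Fin (n + 2) ⊕ Fin s) k :=
    MvPolynomial.aeval
    (fun j => if j = j0 then MvPolynomial.C (1 / 2) * MvPolynomial.X j else MvPolynomial.X j)
    with hf'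
  have fX0 : f (MvPolynomial.X j0) = 2 * MvPolynomial.X j0 := by
    rw [hf, MvPolynomial.aeval_X, if_pos rfl]
  have fX : ∀ j ≠ j0, f (MvPolynomial.X j) = MvPolynomial.X j := by
    intro j hj
    rw [hf, MvPolynomial.aeval_X, if_neg hj]
  have fX0' : f' (MvPolynomial.X j0) = MvPolynomial.C (1 / 2) * MvPolynomial.X j0 := by
    rw [hf', MvPolynomial.aeval_X, if_pos rfl]
  have fX' : ∀ j ≠ j0, f' (MvPolynomial.X j) = MvPolynomial.X j := by
    intro j hj
    rw [hf', MvPolynomial.aeval_X, if_neg hj]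
  have hff : f'.comp f = AlgHom.id k (MvPolynomial (Fin (n + 2) ⊕ Fin s) k) := by
    apply MvPolynomial.algHom_ext
    intro j
    rw [AlgHom.comp_apply, AlgHom.id_apply]
    by_cases hj : j = j0
    · subst hj
      rw [fX0, map_mul, map_ofNat, fX0', ← mul_assoc]
      have : (2 : MvPolynomial (Fin (n + 2) ⊕ Fin s) k) * MvPolynomial.C (1 / 2) = 1 := by
        have h2 : (2 : MvPolynomial (Fin (n + 2) ⊕ Fin s) k) = MvPolynomial.C 2 := by
          rw [map_ofNat]
        rw [h2, ← map_mul]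
        norm_num
      rw [this, one_mul]
    · rw [fX j hj, fX' j hj]
  have hinj : Function.Injective f := by
    intro a b hab
    have := congrArg f' hab
    have h1 := DFunLike.congr_fun hff a
    have h2 := DFunLike.congr_fun hff b
    simp only [AlgHom.comp_apply, AlgHom.id_apply] at h1 h2
    rw [← h1, ← h2, this]
  set g0 : MvPolynomial (Fin (n + 2) ⊕ Fin s) k →+* EE k n s :=
    (algebraMap (MvPolynomial (Fin (n + 2) ⊕ Fin s) k) (EE k n s)).comp f.toRingHom with hg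
  have hg0 : Function.Injective g0 :=
    (IsFractionRing.injective (MvPolynomial (Fin (n + 2) ⊕ Fin s) k) (EE k n s)).comp hinj
  refine ⟨IsFractionRing.lift hg0, ?_, ?_⟩
  · unfold tv
    rw [IsFractionRing.lift_algebraMap]
    change (algebraMap _ (EE k n s)) (f (MvPolynomial.X j0)) = _
    rw [fX0, map_mul, map_ofNat]
  · intro j hj
    unfold tv
    rw [IsFractionRing.lift_algebraMap]
    change (algebraMap _ (EE k n s)) (f (MvPolynomial.X j)) = _
    rw [fX j hj]

end W560.Sep
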