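import Mathlib
import Pool.Agent.W560.Sep.Param

/-! The generic point of the chain hypersurface. -/

namespace W560.Sep

open Finset

variable (k : Type) [Field k] (n s : ℕ)

theorem tv_basis : IsTranscendenceBasis k (tv k n s) := by
  have h := IsTranscendenceBasis.mvPolynomial (Fin (n + 2) ⊕ Fin s) k
  have : Algebra.IsAlgebraic (MvPolynomial (Fin (n + 2) ⊕ Fin s) k) (EE k n s) :=
    IsLocalization.isAlgebraic _ (nonZeroDivisors (MvPolynomial (Fin (n + 2) ⊕ Fin s) k))
  exact h.algebraMap_comp (A := EE k n s)

theorem adjoin_tv : IntermediateField.adjoin k (Set.range (tv k n s)) = ⊤ := by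
  rw [eq_top_iff]
  intro a _
  obtain ⟨p, q, hq, rfl⟩ := IsFractionRing.div_surjective
    (A := MvPolynomial (Fin (n + 2) ⊕ Fin s) k) a
  have hmem : ∀ p : MvPolynomial (Fin (n + 2) ⊕ Fin s) k, algebraMap _ (EE k n s) p
      ∈ IntermediateField.adjoin k (Set.range (tv k n s)) := by
    intro p
    induction p using MvPolynomial.induction_on with
    | C c =>
      have : algebraMap (MvPolynomial (Fin (n + 2) ⊕ Fin s) k) (EE k n s) (MvPolynomial.C c)
          = algebraMap k (EE k n s) c := rfl
      rw [this]
      exact IntermediateField.algebraMap_mem _ c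
    | add p q hp hq => rw [map_add]; exact add_mem hp hq
    | mul_X p i hp =>
      rw [map_mul]
      exact mul_mem hp (IntermediateField.subset_adjoin _ _ ⟨i, rfl⟩)
  exact div_mem (hmem p) (hmem q)

open scoped IntermediateField.algebraAdjoinAdjoin in
theorem indep_of_alg (v : Fin (n + 2) ⊕ Fin s → EE k n s) (x : EE k n s)
    (hx : IsAlgebraic (IntermediateField.adjoin k (Set.range v)) x)
    (halg : Algebra.IsAlgebraic (IntermediateField.adjoin k (insert x (Set.range v))) (EE k n s)) :
    AlgebraicIndependent k v := by
  set K1 := IntermediateField.adjoin k (Set.range v) with hK1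
  set M1 : IntermediateField K1 (EE k n s) := algebraicClosure K1 (EE k n s) with hM1
  have hle : IntermediateField.adjoin k (insert x (Set.range v)) ≤ M1.restrictScalars k := by
    rw [IntermediateField.adjoin_le_iff]
    rintro a (rfl | ha)
    · exact mem_algebraicClosure_iff.mpr hx
    · exact M1.algebraMap_mem ⟨a, IntermediateField.subset_adjoin _ _ ha⟩
  have h1 : Algebra.IsAlgebraic K1 (EE k n s) := by
    refine ⟨fun a => ?_⟩
    have ha := halg.isAlgebraic a
    let _ : Algebra (IntermediateField.adjoin k (insert x (Set.range v))) M1 :=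
      (IntermediateField.inclusion hle).toRingHom.toAlgebra
    have : IsScalarTower (IntermediateField.adjoin k (insert x (Set.range v))) M1 (EE k n s) :=
      IsScalarTower.of_algebraMap_eq fun c => rfl
    have h2 : IsAlgebraic M1 a :=
      ha.extendScalars (algebraMap (IntermediateField.adjoin k (insert x (Set.range v))) M1).injective
    exact mem_algebraicClosure_iff.mp (Ueno.mem_of_isAlgebraic h2)
  have h2 : Algebra.IsAlgebraic (Algebra.adjoin k (Set.range v)) (EE k n s) :=
    (IsFractionRing.comap_isAlgebraic_iff (K := K1)).mpr h1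
  have h3 := Algebra.IsAlgebraic.isTranscendenceBasis_of_lift_le_trdeg_of_finite k v (by
    have := (tv_basis k n s).lift_cardinalMk_eq_trdeg
    rw [← this])
  exact h3.1

end W560.Sep
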