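import Mathlib
import Pool.Agent.W560.Sep.Point

/-! The generic point of the chain hypersurface (continued). -/

namespace W560.Sep

open Finset

theorem D_eq_zero {K L : Type} [Field K] [Field L] [Algebra K L] (a : L)
    (h : ∀ D : Derivation K L L, D a = 0) : KaehlerDifferential.D K L a = 0 := by
  rw [← Module.forall_dual_apply_eq_zero_iff L]
  intro φ
  have := h (φ.compDer (KaehlerDifferential.D K L))
  exact this

theorem alg_of_der {K L : Type} [Field K] [Field L] [Algebra K L] [CharZero K] (S : Set L)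
    (hfin : S.Finite) (hS : IntermediateField.adjoin K S = ⊤)
    (h : ∀ D : Derivation K L L, ∀ a ∈ S, D a = 0) : Algebra.IsAlgebraic K L := by
  apply Ueno.isAlgebraic_of_D K L hfin.toFinset (by rw [Set.Finite.coe_toFinset]; exact hS)
  intro a ha
  apply D_eq_zero
  intro D
  exact h D a (by simpa using ha)

section generic

variable {E : Type} [Field E] {n : ℕ} {r τ : ℕ → E}

theorem line_eval (H : Lev n (n + 1) r τ)
    (hT : ∑ i ∈ range (n + 1 + 1), (g n (n + 1) r i).coeff (n + 1) * τ i = 1) (c : E) :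
    ∑ i ∈ range (n + 1), τ i * ((1 + r i * c) ^ (n + 1) * (1 + r (i + 1) * c))
        + τ (n + 1) * (1 + r (n + 1) * c) ^ (n + 1) = ∑ i ∈ range (n + 1 + 1), τ i + c := by
  have hpsi := psi_eq H hT
  by_cases hc0 : c = 0
  · subst hc0
    simp only [mul_zero, add_zero, one_pow, mul_one]
    exact (Finset.sum_range_succ _ _).symm
  · have h2 := congrArg (fun P : Polynomial E => P.eval c⁻¹) hpsi
    simp only [Polynomial.eval_finsetSum, Polynomial.eval_add, Polynomial.eval_mul,
      Polynomial.eval_C, Polynomial.eval_pow, Polynomial.eval_X] at h2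
    rw [Finset.sum_range_succ] at h2
    have g1 : ∀ i ∈ range (n + 1), τ i * (g n (n + 1) r i).eval c⁻¹
        = (c⁻¹) ^ (n + 2) * (τ i * ((1 + r i * c) ^ (n + 1) * (1 + r (i + 1) * c))) := by
      intro i hi
      unfold g
      rw [if_pos (Finset.mem_range.mp hi)]
      simp only [Polynomial.eval_add, Polynomial.eval_mul,
        Polynomial.eval_C, Polynomial.eval_pow, Polynomial.eval_X]
      have e1 : c⁻¹ + r i = c⁻¹ * (1 + r i * c) := by field_simp
      have e2 : c⁻¹ + r (i + 1) = c⁻¹ * (1 + r (i + 1) * c) := by field_simp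
      rw [e1, e2, mul_pow]; ring
    have g2 : τ (n + 1) * (g n (n + 1) r (n + 1)).eval c⁻¹
        = (c⁻¹) ^ (n + 2) * (τ (n + 1) * (1 + r (n + 1) * c) ^ (n + 1)) := by
      unfold g
      rw [if_neg (by omega)]
      simp only [Polynomial.eval_add, Polynomial.eval_mul,
        Polynomial.eval_C, Polynomial.eval_pow, Polynomial.eval_X]
      have e1 : c⁻¹ + r (n + 1) = c⁻¹ * (1 + r (n + 1) * c) := by field_simp
      rw [e1, mul_pow]; ring
    rw [Finset.sum_congr rfl g1, g2, ← Finset.mul_sum, ← mul_add] at h2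
    have h3 : (c⁻¹) ^ (n + 1) + (∑ i ∈ range (n + 1 + 1), τ i) * (c⁻¹) ^ (n + 2)
        = (c⁻¹) ^ (n + 2) * (∑ i ∈ range (n + 1 + 1), τ i + c) := by
      have : (c⁻¹) ^ (n + 1) = (c⁻¹) ^ (n + 2) * c := by
        rw [pow_succ (c⁻¹) (n + 1), mul_assoc, inv_mul_cancel₀ hc0, mul_one]
      rw [this]; ring
    rw [h3] at h2
    exact mul_left_cancel₀ (pow_ne_zero _ (inv_ne_zero hc0)) h2

theorem point_eq (H : Lev n (n + 1) r τ)
    (hT : ∑ i ∈ range (n + 1 + 1), (g n (n + 1) r i).coeff (n + 1) * τ i = 1) (μ c hv : E)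
    (y0 : ℕ → E) (hw : ∀ i ≤ n + 1, (y0 i) ^ (n + 1) * y0 (i + 1) = μ * τ i)
    (hc : μ * (∑ i ∈ range (n + 1 + 1), τ i + c) + hv = 0) :
    ∑ i ∈ range (n + 1), (y0 i * (1 + r i * c)) ^ (n + 1) * (y0 (i + 1) * (1 + r (i + 1) * c))
      + (y0 (n + 1) * (1 + r (n + 1) * c)) ^ (n + 1) * y0 (n + 2) + hv = 0 := by
  have h1 : ∑ i ∈ range (n + 1), (y0 i * (1 + r i * c)) ^ (n + 1) * (y0 (i + 1) * (1 + r (i + 1) * c))
      = μ * ∑ i ∈ range (n + 1), τ i * ((1 + r i * c) ^ (n + 1) * (1 + r (i + 1) * c)) := by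
    rw [Finset.mul_sum]
    refine Finset.sum_congr rfl fun i hi => ?_
    have hi' := Finset.mem_range.mp hi
    rw [mul_pow]
    have := hw i (by omega)
    linear_combination (1 + r i * c) ^ (n + 1) * (1 + r (i + 1) * c) * this
  have h2 : (y0 (n + 1) * (1 + r (n + 1) * c)) ^ (n + 1) * y0 (n + 2)
      = μ * (τ (n + 1) * (1 + r (n + 1) * c) ^ (n + 1)) := by
    rw [mul_pow]
    have := hw (n + 1) le_rfl
    linear_combination (1 + r (n + 1) * c) ^ (n + 1) * this
  rw [h1, h2]
  linear_combination μ * line_eval H hT c + hc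

theorem fixed_tau (H : Lev n (n + 1) r τ)
    (hT : ∑ i ∈ range (n + 1 + 1), (g n (n + 1) r i).coeff (n + 1) * τ i = 1)
    (σ : E →+* E) (hσr : ∀ i ≤ n + 1, σ (r i) = r i) : ∀ i ≤ n + 1, σ (τ i) = τ i := by
  have hσg : ∀ i ≤ n + 1, ∀ l, σ ((g n (n + 1) r i).coeff l) = (g n (n + 1) r i).coeff l := by
    intro i hi l
    rw [g_coeff, g_congr hσr hi]
  have key := eq_zero_of_dt (n + 1 + 1) (fun l i => (g n (n + 1) r i).coeff l) H.p2
    (fun i => σ (τ i) - τ i) (by
      intro l hl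
      have h1 : ∑ j ∈ range (n + 1 + 1), (g n (n + 1) r j).coeff l * (σ (τ j) - τ j)
          = σ (∑ j ∈ range (n + 1 + 1), (g n (n + 1) r j).coeff l * τ j)
            - ∑ j ∈ range (n + 1 + 1), (g n (n + 1) r j).coeff l * τ j := by
        rw [map_sum, ← Finset.sum_sub_distrib]
        refine Finset.sum_congr rfl fun j hj => ?_
        have hj' := Finset.mem_range.mp hj
        rw [map_mul, hσg j (by omega)]
        ring
      rw [h1]
      rcases Nat.lt_or_ge l (n + 1) with h2 | h2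
      · rw [H.p1 l h2, map_zero, sub_zero]
      · have : l = n + 1 := by omega
        subst this
        rw [hT, map_one, sub_self])
  intro i hi
  exact sub_eq_zero.mp (key i (by omega))

theorem z_ne [CharZero E] (H : Lev n (n + 1) r τ)
    (hT : ∑ i ∈ range (n + 1 + 1), (g n (n + 1) r i).coeff (n + 1) * τ i = 1)
    (μ a c hv rest : E) (hμ0 : μ ≠ 0) (ha0 : a ≠ 0)
    (hhv : hv = (yy n μ a τ (n + 2)) ^ (n + 2) + rest)
    (hceq : c = - (∑ i ∈ range (n + 1 + 1), τ i + hv / μ))
    (σ : E →+* E) (hσr : ∀ i ≤ n + 1, σ (r i) = r i) (hσμ : σ μ = μ) (hσa : σ a = 2 * a)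
    (hσrest : σ rest = rest) : ∀ i ≤ n + 1, 1 + r i * c ≠ 0 := by
  have hστ := fixed_tau H hT σ hσr
  have hσy := yy_map (n := n) (N := n + 1) (μ := μ) (a := a) (τ := τ) σ hσμ hσa hστ
  have hy0ne : ∀ i ≤ n + 2, yy n μ a τ i ≠ 0 := yy_ne hμ0 ha0 (fun i hi => H.p4 i hi)
  intro i hi e
  have hri : r i ≠ 0 := by
    intro e0
    rw [e0, zero_mul, add_zero] at e
    exact one_ne_zero e
  have h1 := congrArg σ e
  rw [map_add, map_one, map_mul, hσr i hi, map_zero] at h1
  have h2 : r i * (σ c - c) = 0 := by linear_combination h1 - e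
  have h3 : σ c = c := sub_eq_zero.mp ((mul_eq_zero.mp h2).resolve_left hri)
  have h4 : σ (∑ i ∈ range (n + 1 + 1), τ i) = ∑ i ∈ range (n + 1 + 1), τ i := by
    rw [map_sum]
    refine Finset.sum_congr rfl fun j hj => ?_
    have hj' := Finset.mem_range.mp hj
    exact hστ j (by omega)
  have h5 : σ hv = hv := by
    rw [hceq, map_neg, map_add, map_div₀, hσμ, h4] at h3
    have h6 : σ hv / μ = hv / μ := by linear_combination - h3
    exact (div_left_inj' hμ0).mp h6
  have h6 : σ (yy n μ a τ (n + 2)) ^ (n + 2) = (yy n μ a τ (n + 2)) ^ (n + 2) := by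
    rw [hhv, map_add, map_pow, hσrest] at h5
    linear_combination h5
  rw [hσy (n + 2) le_rfl, mul_pow] at h6
  have hxne : (yy n μ a τ (n + 2)) ^ (n + 2) ≠ 0 := pow_ne_zero _ (hy0ne (n + 2) le_rfl)
  have h7 : ((2 : E) ^ ((-((n : ℤ) + 1)) ^ (n + 2))) ^ (n + 2) = 1 := by
    have h8 : (((2 : E) ^ ((-((n : ℤ) + 1)) ^ (n + 2))) ^ (n + 2) - 1)
        * (yy n μ a τ (n + 2)) ^ (n + 2) = 0 := by
      linear_combination h6
    exact sub_eq_zero.mp ((mul_eq_zero.mp h8).resolve_right hxne)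
  rw [← zpow_natCast, ← zpow_mul] at h7
  have h9 : (-((n : ℤ) + 1)) ^ (n + 2) * ((n + 2 : ℕ) : ℤ) ≠ 0 := by
    apply mul_ne_zero
    · apply pow_ne_zero; omega
    · omega
  have h10 : ((2 : ℚ) ^ ((-((n : ℤ) + 1)) ^ (n + 2) * ((n + 2 : ℕ) : ℤ)) : ℚ) = 1 := by
    have : (((2 : ℚ) ^ ((-((n : ℤ) + 1)) ^ (n + 2) * ((n + 2 : ℕ) : ℤ)) : ℚ) : E) = ((1 : ℚ) : E) := by
      push_cast
      push_cast at h7
      exact h7
    exact_mod_cast this
  rw [zpow_eq_one_iff_right₀ (by norm_num) (by norm_num)] at h10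
  exact h9 h10

end generic

theorem adjoin_over' {k E : Type} [Field k] [Field E] [Algebra k E] (K0 : IntermediateField k E)
    (S : Set E) (hS : IntermediateField.adjoin k S = ⊤) : IntermediateField.adjoin K0 S = ⊤ := by
  apply IntermediateField.restrictScalars_injective k
  rw [IntermediateField.restrictScalars_adjoin, IntermediateField.restrictScalars_top, eq_top_iff,
    ← hS]
  exact IntermediateField.adjoin.mono _ _ _ (Set.subset_union_right)

variable (k : Type) [Field k] (n s : ℕ)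

theorem adjoin_over (K0 : IntermediateField k (EE k n s)) :
    IntermediateField.adjoin K0 (Set.range (tv k n s)) = ⊤ :=
  adjoin_over' K0 _ (adjoin_tv k n s)

/-- the `y`-part of the point -/
theorem exists_point [CharZero k] (hn : 1 ≤ n) :
    ∃ (y : ℕ → EE k n s) (x : EE k n s),
      ∑ i ∈ range (n + 1), y i ^ (n + 1) * y (i + 1) + y (n + 1) ^ (n + 1) * x + x ^ (n + 2)
        + ∑ j : Fin s, tv k n s (Sum.inr j) ^ (n + 2) = 0 ∧
      Algebra.IsAlgebraic (IntermediateField.adjoin k (insert x (Set.range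
        (Sum.elim (fun i : Fin (n + 2) => y i) (fun j : Fin s => tv k n s (Sum.inr j))))))
        (EE k n s) := by
  have hE : CharZero (EE k n s) :=
    charZero_of_injective_algebraMap (algebraMap k (EE k n s)).injective
  obtain ⟨t, Ht⟩ := lev_generic k n s hn
  set r : ℕ → EE k n s := fun i => algebraMap (MvPolynomial (Fin (n + 2) ⊕ Fin s) k) _ (rG k n s i)
    with hr
  obtain ⟨τ, H, hT⟩ := (Ht.map (algebraMap (MvPolynomial (Fin (n + 2) ⊕ Fin s) k) (EE k n s))
    (IsFractionRing.injective _ _)).normalise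
  change Lev n (n + 1) r τ at H
  change ∑ i ∈ range (n + 1 + 1), (g n (n + 1) r i).coeff (n + 1) * τ i = 1 at hT
  have tv_ne : ∀ j, tv k n s j ≠ 0 := by
    intro j e
    have : (MvPolynomial.X j : MvPolynomial (Fin (n + 2) ⊕ Fin s) k) = 0 := by
      apply IsFractionRing.injective (MvPolynomial (Fin (n + 2) ⊕ Fin s) k) (EE k n s)
      rw [map_zero]; exact e
    exact MvPolynomial.X_ne_zero j this
  set μ := tv k n s (Sum.inl ⟨0, by omega⟩) with hμ
  set a := tv k n s (Sum.inl ⟨2, by omega⟩) with ha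
  have hμ0 : μ ≠ 0 := tv_ne _
  have ha0 : a ≠ 0 := tv_ne _
  have hr_tv : ∀ (i : ℕ) (hi : i < n + 2), i ≠ 0 → i ≠ 2 → r i = tv k n s (Sum.inl ⟨i, hi⟩) := by
    intro i hi h0 h2
    simp only [hr, rG]
    rw [if_neg h0, if_neg h2, dif_pos hi]
    rfl
  set y0 := yy n μ a τ with hy0
  have hy0ne : ∀ i ≤ n + 2, y0 i ≠ 0 := yy_ne hμ0 ha0 (fun i hi => H.p4 i hi)
  have hw : ∀ i ≤ n + 1, (y0 i) ^ (n + 1) * y0 (i + 1) = μ * τ i :=
    yy_mul hμ0 ha0 (fun i hi => H.p4 i hi)
  set x := y0 (n + 2) with hx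
  set hv := x ^ (n + 2) + ∑ j : Fin s, tv k n s (Sum.inr j) ^ (n + 2) with hhv
  set A0 := ∑ i ∈ range (n + 1 + 1), τ i with hA0
  set c := - (A0 + hv / μ) with hc
  have hceq : μ * (A0 + c) + hv = 0 := by
    rw [hc]; field_simp; ring
  -- the endomorphism
  obtain ⟨σ, hσ1, hσ2⟩ := exists_sigma k n s (Sum.inl ⟨2, by omega⟩)
  have hσr : ∀ i ≤ n + 1, σ (r i) = r i := by
    intro i hi
    by_cases h0 : i = 0
    · subst h0; rw [H.p0.1, map_one]
    · by_cases h2 : i = 2
      · subst h2; rw [H.p0.2, map_ofNat]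
      · rw [hr_tv i (by omega) h0 h2]
        apply hσ2
        intro e
        have := Sum.inl_injective e
        have := congrArg Fin.val this
        exact h2 this
  have hσμ : σ μ = μ := by
    apply hσ2
    intro e
    have := Sum.inl_injective e
    have := congrArg Fin.val this
    simp at this
  have hσZ : ∀ j : Fin s, σ (tv k n s (Sum.inr j)) = tv k n s (Sum.inr j) := by
    intro j
    apply hσ2
    intro e
    cases e
  have hz : ∀ i ≤ n + 1, 1 + r i * c ≠ 0 :=
    z_ne H hT μ a c hv _ hμ0 ha0 hhv hc σ hσr hσμ hσ1 (by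
      rw [map_sum]
      simp only [map_pow, hσZ])
  -- the point
  set y : ℕ → EE k n s := fun i => y0 i * (1 + r i * c) with hy
  have hF : ∑ i ∈ range (n + 1), y i ^ (n + 1) * y (i + 1) + y (n + 1) ^ (n + 1) * x + hv = 0 :=
    point_eq H hT μ c hv y0 hw hceq
  refine ⟨y, x, ?_, ?_⟩
  · rw [hhv] at hF
    linear_combination hF
  · set v : Fin (n + 2) ⊕ Fin s → EE k n s :=
      Sum.elim (fun i : Fin (n + 2) => y i) (fun j : Fin s => tv k n s (Sum.inr j)) with hvdef
    set K0 := IntermediateField.adjoin k (insert x (Set.range v)) with hK0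
    have : CharZero K0 := charZero_of_injective_algebraMap (algebraMap k K0).injective
    apply alg_of_der (Set.range (tv k n s)) (Set.finite_range _) (adjoin_over k n s _)
    intro D
    have hD : ∀ b ∈ insert x (Set.range v), D b = 0 := by
      intro b hb
      exact D.map_algebraMap ⟨b, IntermediateField.subset_adjoin _ _ hb⟩
    have hDx : D x = 0 := hD x (Set.mem_insert _ _)
    have hDv : ∀ j, D (v j) = 0 := fun j => hD _ (Set.mem_insert_of_mem _ ⟨j, rfl⟩)
    have hDZ : ∀ j : Fin s, D (tv k n s (Sum.inr j)) = 0 := fun j => hDv (Sum.inr j)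
    have hDy : ∀ i ≤ n + 1, D (y0 i * (1 + r i * c)) = 0 := by
      intro i hi
      exact hDv (Sum.inl ⟨i, by omega⟩)
    have hDh : D hv = 0 := by
      rw [hhv, map_add, map_sum]
      have h1 : ∀ b : EE k n s, D b = 0 → D (b ^ (n + 2)) = 0 := by
        intro b hb
        have := D3 D 1 b 1 (n + 1)
        rw [one_mul, mul_one, hb, Derivation.map_one_eq_zero] at this
        rw [this]; ring
      rw [h1 x hDx, Finset.sum_eq_zero (fun j _ => h1 _ (hDZ j)), add_zero]
    obtain ⟨f1, f2, f3⟩ := der_zero D hn H hT μ c hv y0 hμ0 hw hceq hz hDy hDx hDh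
    rintro _ ⟨j, rfl⟩
    rcases j with ⟨i, hi⟩ | j
    · by_cases h0 : i = 0
      · subst h0; exact f2
      · by_cases h2 : i = 2
        · subst h2; exact f3
        · rw [← hr_tv i hi h0 h2]
          exact f1 i (by omega)
    · exact hDZ j

end W560.Sep
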