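import Mathlib
import Pool.Agent.W560.Sep.Point2
import Pool.Agent.W560.Sep.Form

/-! A generic point of the chain hypersurface over a purely transcendental extension. -/

namespace W560.Sep

open Finset MvPolynomial

variable (k : Type) [Field k] (m s : ℕ)

theorem exists_point_zero :
    ∃ (y : ℕ → EE k 0 s) (x : EE k 0 s),
      ∑ i ∈ range (0 + 1), y i ^ (0 + 1) * y (i + 1) + y (0 + 1) ^ (0 + 1) * x + x ^ (0 + 2)
        + ∑ j : Fin s, tv k 0 s (Sum.inr j) ^ (0 + 2) = 0 ∧
      Algebra.IsAlgebraic (IntermediateField.adjoin k (insert x (Set.range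
        (Sum.elim (fun i : Fin (0 + 2) => y i) (fun j : Fin s => tv k 0 s (Sum.inr j))))))
        (EE k 0 s) := by
  set x : EE k 0 s := tv k 0 s (Sum.inl 0) with hx
  set y1 : EE k 0 s := tv k 0 s (Sum.inl 1) with hy1
  have hy10 : y1 ≠ 0 := by
    rw [hy1]; unfold tv
    rw [Ne, IsFractionRing.to_map_eq_zero_iff]
    exact X_ne_zero _
  set S : EE k 0 s := ∑ j : Fin s, tv k 0 s (Sum.inr j) ^ (0 + 2) with hS
  refine ⟨fun i => if i = 0 then - (y1 * x + x ^ 2 + S) / y1 else y1, x, ?_, ?_⟩
  · simp only [zero_add, Finset.sum_range_one, if_pos, pow_one, one_ne_zero, if_false]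
    field_simp
    ring
  · have htop : IntermediateField.adjoin k (insert x (Set.range
        (Sum.elim (fun i : Fin (0 + 2) => (fun i : ℕ => if i = 0 then - (y1 * x + x ^ 2 + S) / y1
          else y1) i) (fun j : Fin s => tv k 0 s (Sum.inr j))))) = ⊤ := by
      rw [eq_top_iff, ← adjoin_tv k 0 s, IntermediateField.adjoin_le_iff]
      rintro _ ⟨j, rfl⟩
      rcases j with i | j
      · fin_cases i
        · exact IntermediateField.subset_adjoin _ _ (Set.mem_insert _ _)
        · refine IntermediateField.subset_adjoin _ _ (Set.mem_insert_of_mem _ ⟨Sum.inl 1, ?_⟩)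
          simp [hy1]
      · exact IntermediateField.subset_adjoin _ _ (Set.mem_insert_of_mem _ ⟨Sum.inr j, rfl⟩)
    rw [htop]
    refine ⟨fun a => ?_⟩
    exact isAlgebraic_algebraMap (⟨a, trivial⟩ : (⊤ : IntermediateField k (EE k 0 s)))

theorem exists_point_all [CharZero k] :
    ∃ (y : ℕ → EE k m s) (x : EE k m s),
      ∑ i ∈ range (m + 1), y i ^ (m + 1) * y (i + 1) + y (m + 1) ^ (m + 1) * x + x ^ (m + 2)
        + ∑ j : Fin s, tv k m s (Sum.inr j) ^ (m + 2) = 0 ∧
      Algebra.IsAlgebraic (IntermediateField.adjoin k (insert x (Set.range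
        (Sum.elim (fun i : Fin (m + 2) => y i) (fun j : Fin s => tv k m s (Sum.inr j))))))
        (EE k m s) := by
  rcases Nat.eq_zero_or_pos m with hm | hm
  · subst hm; exact exists_point_zero k s
  · exact exists_point k m s hm

theorem exists_B [CharZero k] :
    ∃ B : Option (Fin (m + 2) ⊕ Fin s) → EE k m s,
      AlgebraicIndependent k (fun v => B (some v)) ∧ aeval B (FV k m s) = 0 := by
  obtain ⟨y, x, heq, halg⟩ := exists_point_all k m s
  set B : Option (Fin (m + 2) ⊕ Fin s) → EE k m s := fun o =>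
    match o with
    | none => x
    | some (Sum.inl i) => y i
    | some (Sum.inr j) => tv k m s (Sum.inr j) with hB
  have hv : (fun v => B (some v)) =
      Sum.elim (fun i : Fin (m + 2) => y i) (fun j : Fin s => tv k m s (Sum.inr j)) := by
    funext v
    rcases v with i | j <;> rfl
  have hBy : ∀ i < m + 2, B (vi m s i) = y i := by
    intro i hi
    unfold vi; rw [dif_pos hi]
  have hBx : B (vi m s (m + 1 + 1)) = x := by
    unfold vi; rw [dif_neg (by omega)]
  have h0 : aeval B (FV k m s) = 0 := by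
    unfold FV
    rw [Finset.sum_range_succ]
    simp only [map_add, map_sum, map_mul, map_pow, aeval_X]
    rw [hBx, hBy (m + 1) (by omega), ← heq]
    have : ∑ i ∈ range (m + 1), B (vi m s i) ^ (m + 1) * B (vi m s (i + 1))
        = ∑ i ∈ range (m + 1), y i ^ (m + 1) * y (i + 1) := by
      refine Finset.sum_congr rfl fun i hi => ?_
      have hi' := Finset.mem_range.mp hi
      rw [hBy i (by omega), hBy (i + 1) (by omega)]
    rw [this]
  refine ⟨B, ?_, h0⟩
  rw [hv]
  apply indep_of_alg k m s _ x _ halg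
  set K1 := IntermediateField.adjoin k (Set.range
    (Sum.elim (fun i : Fin (m + 2) => y i) (fun j : Fin s => tv k m s (Sum.inr j)))) with hK1
  have hmem : ∀ v, B (some v) ∈ K1 := by
    intro v
    have : B (some v) = (fun v => B (some v)) v := rfl
    rw [this, hv]
    exact IntermediateField.subset_adjoin _ _ ⟨v, rfl⟩
  -- a monic polynomial over `K1` killing `x`
  let f : MvPolynomial (Fin (m + 2) ⊕ Fin s) k →ₐ[k] K1 := aeval (fun v => ⟨B (some v), hmem v⟩)
  have hf : (algebraMap K1 (EE k m s)).comp f.toRingHom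
      = (aeval (fun v => B (some v)) : MvPolynomial (Fin (m + 2) ⊕ Fin s) k →ₐ[k] EE k m s).toRingHom := by
    apply MvPolynomial.ringHom_ext
    · intro c
      simp [f]
    · intro v
      simp [f]
  refine ⟨(PP k m s).map f.toRingHom, ?_, ?_⟩
  · exact ((PP_monic k m s).map _).ne_zero
  · rw [Polynomial.aeval_def, Polynomial.eval₂_map, hf]
    rw [aeval_option, optionEquiv_FV] at h0
    exact h0

/-- the chain hypersurface has a generic point with coordinates in a purely transcendental
extension. -/
theorem exists_generic [CharZero k] :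
    ∃ B : Option (Fin (m + 2) ⊕ Fin s) → EE k m s,
      B ≠ 0 ∧ aeval B (FV k m s) = 0 ∧
        ∀ G : MvPolynomial (Option (Fin (m + 2) ⊕ Fin s)) k, aeval B G = 0 → FV k m s ∣ G := by
  obtain ⟨B, h1, h2⟩ := exists_B k m s
  refine ⟨B, ?_, h2, fun G hG => FV_dvd B h1 h2 G hG⟩
  rintro rfl
  exact h1.ne_zero (Sum.inl 0) rfl

end W560.Sep
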