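import Mathlib
import Pool.Agent.W560.Sep.Upper

/-! Existence of smooth unirational hypersurfaces of degree `d` in `P^n` for `d ≤ n`. -/

namespace W560.Sep

open MvPolynomial

theorem exists_hom {σ τ k : Type} [Field k] (e : σ ≃ τ) :
    ∃ φ : FractionRing (MvPolynomial σ k) →ₐ[k] FractionRing (MvPolynomial τ k),
      Function.Injective φ := by
  have hinj : Function.Injective ((IsScalarTower.toAlgHom k (MvPolynomial τ k)
      (FractionRing (MvPolynomial τ k))).comp (renameEquiv k e).toAlgHom) :=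
    (IsFractionRing.injective (MvPolynomial τ k) (FractionRing (MvPolynomial τ k))).comp
      (renameEquiv k e).injective
  refine ⟨IsFractionRing.liftAlgHom (K := FractionRing (MvPolynomial σ k)) hinj, ?_⟩
  exact RingHom.injective _

theorem eval_aeval {σ τ k : Type} [Field k] (f : σ → MvPolynomial τ k) (g : τ → k)
    (G : MvPolynomial σ k) : eval g (aeval f G) = eval (fun i => eval g (f i)) G := by
  induction G using MvPolynomial.induction_on with
  | C c => simp
  | add p q hp hq => rw [map_add, map_add, map_add, hp, hq]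
  | mul_X p i hp => rw [map_mul, map_mul, map_mul, hp, aeval_X, eval_X]

theorem upper_two (m s : ℕ) : ∃ F : MvPolynomial (Fin (m + 2 + s + 1)) ℂ,
    F.IsHomogeneous (m + 2) ∧ Irreducible F ∧
    (∀ x : Fin (m + 2 + s + 1) → ℂ, x ≠ 0 → ∃ i, eval x (pderiv i F) ≠ 0) ∧
    ∃ x : Fin (m + 2 + s + 1) → FractionRing (MvPolynomial (Fin (m + 2 + s)) ℂ),
      x ≠ 0 ∧ aeval x F = 0 ∧ ∀ G, aeval x G = 0 → F ∣ G := by
  obtain ⟨B, hB0, hBF, hB⟩ := exists_generic ℂ m s
  have c1 : Fintype.card (Option (Fin (m + 2) ⊕ Fin s)) = Fintype.card (Fin (m + 2 + s + 1)) := by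
    simp
  have c2 : Fintype.card (Fin (m + 2) ⊕ Fin s) = Fintype.card (Fin (m + 2 + s)) := by simp
  let e : Option (Fin (m + 2) ⊕ Fin s) ≃ Fin (m + 2 + s + 1) := Fintype.equivOfCardEq c1
  let e' : Fin (m + 2) ⊕ Fin s ≃ Fin (m + 2 + s) := Fintype.equivOfCardEq c2
  obtain ⟨φ, hφ⟩ := exists_hom (k := ℂ) e'
  refine ⟨rename e (FV ℂ m s), ?_, ?_, ?_, fun i => φ (B (e.symm i)), ?_, ?_, ?_⟩
  · exact (FV_homogeneous ℂ m s).rename_isHomogeneous
  · have := (MulEquiv.irreducible_iff (renameEquiv ℂ e)).mpr (FV_irreducible ℂ m s)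
    exact this
  · intro x hx
    by_contra hcon
    push Not at hcon
    apply hx
    have h1 := FV_smooth (k := ℂ) (m := m) (s := s) (fun v => x (e v)) (by
      intro v
      have h2 := hcon (e v)
      rw [pderiv_rename e.injective, eval_rename] at h2
      exact h2)
    funext i
    have := congrFun h1 (e.symm i)
    simpa using this
  · intro h
    apply hB0
    funext v
    have := congrFun h (e v)
    simp only [Equiv.symm_apply_apply, Pi.zero_apply] at this
    exact hφ (by rw [this]; simp)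
  · rw [aeval_rename]
    have : (fun i => φ (B (e.symm i))) ∘ e = fun v => φ (B v) := by
      funext v; simp
    rw [this]
    have h2 := MvPolynomial.map_aeval B φ.toRingHom (FV ℂ m s)
    have h3 : φ (aeval B (FV ℂ m s)) = aeval (fun v => φ (B v)) (FV ℂ m s) := by
      rw [← MvPolynomial.comp_aeval_apply]
    rw [← h3, hBF, map_zero]
  · intro G hG
    obtain ⟨G', rfl⟩ := (renameEquiv ℂ e).surjective G
    change aeval _ (rename e G') = 0 at hG
    change rename e _ ∣ rename e _
    apply map_dvd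
    apply hB
    rw [aeval_rename] at hG
    have : (fun i => φ (B (e.symm i))) ∘ e = fun v => φ (B v) := by
      funext v; simp
    rw [this] at hG
    have h3 : φ (aeval B G') = aeval (fun v => φ (B v)) G' := by
      rw [← MvPolynomial.comp_aeval_apply]
    apply hφ
    rw [h3, hG, map_zero]

theorem upper_one (n : ℕ) (hn : 1 ≤ n) : ∃ F : MvPolynomial (Fin (n + 1)) ℂ,
    F.IsHomogeneous 1 ∧ Irreducible F ∧
    (∀ x : Fin (n + 1) → ℂ, x ≠ 0 → ∃ i, eval x (pderiv i F) ≠ 0) ∧
    ∃ x : Fin (n + 1) → FractionRing (MvPolynomial (Fin n) ℂ),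
      x ≠ 0 ∧ aeval x F = 0 ∧ ∀ G, aeval x G = 0 → ∀ p, eval p F = 0 → eval p G = 0 := by
  refine ⟨X 0, isHomogeneous_X _ _, ?_, ?_, fun i => algebraMap _ _
    ((Fin.cons 0 (fun j => X j) : Fin (n + 1) → MvPolynomial (Fin n) ℂ) i), ?_, ?_, ?_⟩
  · exact (MvPolynomial.X_prime).irreducible
  · intro x hx
    exact ⟨0, by simp⟩
  · intro h
    have := congrFun h (Fin.succ ⟨0, hn⟩)
    simp only [Fin.cons_succ, Pi.zero_apply] at this
    rw [IsFractionRing.to_map_eq_zero_iff] at this
    exact X_ne_zero _ this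
  · rw [aeval_X]; simp
  · intro G hG p hp
    rw [eval_X] at hp
    have h1 : aeval (fun i => algebraMap (MvPolynomial (Fin n) ℂ)
        (FractionRing (MvPolynomial (Fin n) ℂ))
        ((Fin.cons 0 (fun j => X j) : Fin (n + 1) → MvPolynomial (Fin n) ℂ) i)) G
        = algebraMap _ _ (aeval (Fin.cons 0 (fun j => X j) : Fin (n + 1) → MvPolynomial (Fin n) ℂ) G) := by
      rw [← MvPolynomial.aeval_algebraMap_apply]; rfl
    rw [h1, IsFractionRing.to_map_eq_zero_iff] at hG
    have h2 := congrArg (eval (fun j => p j.succ)) hG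
    rw [map_zero] at h2
    rw [← h2]
    rw [eval_aeval]
    have h3 : p = fun i => (eval fun j => p j.succ)
        ((Fin.cons 0 (fun j => X j) : Fin (n + 1) → MvPolynomial (Fin n) ℂ) i) := by
      funext i
      refine Fin.cases ?_ (fun j => ?_) i
      · simp [hp]
      · simp
    exact congrArg (fun q => eval q G) h3

theorem upper (d n : ℕ) (hd : 1 ≤ d) (hn : d ≤ n) : ∃ F : MvPolynomial (Fin (n + 1)) ℂ,
    F.IsHomogeneous d ∧ Irreducible F ∧
    (∀ x : Fin (n + 1) → ℂ, x ≠ 0 → ∃ i, eval x (pderiv i F) ≠ 0) ∧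
    ∃ x : Fin (n + 1) → FractionRing (MvPolynomial (Fin n) ℂ),
      x ≠ 0 ∧ aeval x F = 0 ∧ ∀ G, aeval x G = 0 → ∀ p, eval p F = 0 → eval p G = 0 := by
  rcases Nat.lt_or_ge d 2 with h | h
  · have : d = 1 := by omega
    subst this
    exact upper_one n hn
  · obtain ⟨m, rfl⟩ := Nat.exists_eq_add_of_le' h
    obtain ⟨s, rfl⟩ := Nat.exists_eq_add_of_le hn
    obtain ⟨F, h1, h2, h3, x, h4, h5, h6⟩ := upper_two m s
    refine ⟨F, h1, h2, h3, x, h4, h5, fun G hG p hp => ?_⟩
    obtain ⟨Q, rfl⟩ := h6 G hG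
    rw [map_mul, hp, zero_mul]

end W560.Sep
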