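import Mathlib

/-! Tools for the lower bound. -/

namespace W560.Sep

open MvPolynomial Finset

/-- chain rule -/
theorem der_aeval {k A M σ : Type} [Field k] [CommRing A] [Algebra k A] [AddCommGroup M] [Module A M]
    [Module k M] [IsScalarTower k A M] [Fintype σ] (D : Derivation k A M) (f : σ → A)
    (H : MvPolynomial σ k) : D (aeval f H) = ∑ b, aeval f (pderiv b H) • D (f b) := by
  classical
  induction H using MvPolynomial.induction_on with
  | C c => simp
  | add p q hp hq =>
    rw [map_add, map_add, hp, hq, ← Finset.sum_add_distrib]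
    refine Finset.sum_congr rfl fun b _ => ?_
    rw [map_add, map_add, add_smul]
  | mul_X p i hp =>
    rw [map_mul, aeval_X, Derivation.leibniz, hp, Finset.smul_sum]
    have h1 : ∀ b, aeval f (pderiv b (p * X i)) • D (f b)
        = (if b = i then aeval f p • D (f i) else 0) + f i • aeval f (pderiv b p) • D (f b) := by
      intro b
      rw [Derivation.leibniz, pderiv_X]
      by_cases hb : b = i
      · subst hb
        simp only [Pi.single_eq_same, smul_eq_mul, mul_one, map_add, map_mul, aeval_X, if_true,
          add_smul, mul_smul]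
      · rw [Pi.single_eq_of_ne (Ne.symm hb), if_neg hb]
        simp only [smul_eq_mul, mul_zero, zero_add, map_mul, aeval_X, mul_smul]
    rw [Finset.sum_congr rfl fun b _ => h1 b, Finset.sum_add_distrib, Finset.sum_ite_eq',
      if_pos (Finset.mem_univ _)]

theorem dvd_of_forall_dvd {R σ : Type} [CommRing R] [IsDomain R] [UniqueFactorizationMonoid R]
    (w : σ → R) (hw : ∀ π : R, Prime π → ∃ i, ¬ π ∣ w i) (c : R) (hc : c ≠ 0) :
    ∀ Δ : R, (∀ i, c ∣ Δ * w i) → c ∣ Δ := by
  induction c using UniqueFactorizationMonoid.induction_on_prime with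
  | h₁ => exact absurd rfl hc
  | h₂ x hx => exact fun Δ _ => hx.dvd
  | h₃ a p ha hp ih =>
    intro Δ h
    obtain ⟨i0, hi0⟩ := hw p hp
    have h1 : p ∣ Δ := (hp.dvd_or_dvd (dvd_trans (dvd_mul_right p a) (h i0))).resolve_right hi0
    obtain ⟨Δ', rfl⟩ := h1
    refine mul_dvd_mul_left p (ih ha Δ' fun i => ?_)
    have h2 := h i
    rw [mul_assoc] at h2
    exact (mul_dvd_mul_iff_left hp.ne_zero).mp h2

theorem cramer_dvd {R τ : Type} [CommRing R] [Fintype τ] [DecidableEq τ] (M : Matrix τ τ R)
    (w m : τ → R) (a : R) (h : ∀ b, ∑ i, M b i * w i + m b * a = 0) (i : τ) : a ∣ M.det * w i := by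
  have h1 : M.mulVec w = - (a • m) := by
    funext b
    have := h b
    rw [Matrix.mulVec, dotProduct]
    simp only [Pi.neg_apply, Pi.smul_apply, smul_eq_mul]
    linear_combination this
  have h2 := congrArg (fun v => M.adjugate.mulVec v) h1
  simp only [Matrix.mulVec_mulVec, Matrix.adjugate_mul, Matrix.mulVec_neg, Matrix.mulVec_smul,
    Matrix.smul_mulVec, Matrix.one_mulVec] at h2
  have h3 := congrFun h2 i
  simp only [Pi.neg_apply, Pi.smul_apply, smul_eq_mul] at h3
  rw [h3]
  exact ⟨- (M.adjugate.mulVec m) i, by ring⟩

theorem det_homogeneous {k σ τ : Type} [Field k] [Fintype τ] [DecidableEq τ] {e : ℕ}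
    (M : Matrix τ τ (MvPolynomial σ k)) (h : ∀ a b, (M a b).IsHomogeneous e) :
    M.det.IsHomogeneous (Fintype.card τ * e) := by
  rw [Matrix.det_apply']
  refine IsHomogeneous.sum _ _ _ fun s _ => ?_
  have h1 : (∏ i, M (s i) i).IsHomogeneous (∑ _i : τ, e) :=
    IsHomogeneous.prod _ _ _ fun i _ => h _ _
  rw [Finset.sum_const, Finset.card_univ, smul_eq_mul] at h1
  have h2 : ((Equiv.Perm.sign s : ℤ) : MvPolynomial σ k) = C ((Equiv.Perm.sign s : ℤ) : k) := by
    simp
  rw [h2]
  exact h1.C_mul _

/-- elements algebraic over a subalgebra killed by a derivation are killed -/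
theorem der_algebraic {k A M : Type} [Field k] [CharZero k] [CommRing A] [IsDomain A] [Algebra k A]
    [AddCommGroup M] [Module A M] [Module k M] [IsScalarTower k A M]
    (hM : ∀ (a : A) (x : M), a • x = 0 → a = 0 ∨ x = 0)
    (D : Derivation k A M) (A0 : Subalgebra k A) (h0 : ∀ a ∈ A0, D a = 0) (x : A)
    (hx : IsAlgebraic A0 x) : D x = 0 := by
  obtain ⟨p, hp0, hp⟩ := hx
  have hsum : ∀ p : Polynomial A0, D (Polynomial.aeval x p)
      = Polynomial.aeval x (Polynomial.derivative p) • D x := by
    intro p
    induction p using Polynomial.induction_on' with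
    | add p q hp hq => rw [map_add, map_add, map_add, map_add, hp, hq, add_smul]
    | monomial n a =>
      rw [Polynomial.aeval_monomial, Derivation.leibniz, Derivation.leibniz_pow,
        Polynomial.derivative_monomial, Polynomial.aeval_monomial]
      have : D (algebraMap A0 A a) = 0 := h0 _ a.2
      rw [this, smul_zero, add_zero, map_mul, map_natCast, ← Nat.cast_smul_eq_nsmul A n,
        smul_smul, smul_smul]
  induction hN : p.natDegree using Nat.strong_induction_on generalizing p with
  | _ N ih =>
    by_cases h1 : Polynomial.derivative p = 0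
    · exfalso
      have h2 : CharZero A0 := by
        exact charZero_of_injective_algebraMap (algebraMap k A0).injective
      obtain ⟨a, ha⟩ := Polynomial.natDegree_eq_zero.mp (Polynomial.derivative_eq_zero.mp h1)
      rw [← ha, Polynomial.aeval_C] at hp
      apply hp0
      rw [← ha]
      have : a = 0 := by
        apply Subtype.ext
        exact hp
      rw [this, map_zero]
    · by_cases h2 : Polynomial.aeval x (Polynomial.derivative p) = 0
      · refine ih (Polynomial.derivative p).natDegree ?_ _ h1 h2 rfl
        rw [← hN]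
        apply Polynomial.natDegree_derivative_lt
        intro h3
        apply h1
        exact Polynomial.derivative_of_natDegree_zero h3
      · have h3 := hsum p
        rw [hp, map_zero] at h3
        exact (hM _ _ h3.symm).resolve_left h2

end W560.Sep
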