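import Mathlib
import Pool.Agent.W560.Sep.Low1

/-! Jacobian criterion: algebraically independent polynomials have a nonzero Jacobian minor. -/

namespace W560.Sep

open MvPolynomial Finset

theorem jacobian {k τ : Type} [Field k] [CharZero k] [Fintype τ] [DecidableEq τ] {N : ℕ}
    (v : τ → MvPolynomial (Fin N) k) (hv : AlgebraicIndependent k v) :
    ∃ J : τ → Fin N, (Matrix.of fun b i => pderiv (J b) (v i)).det ≠ 0 := by
  classical
  obtain ⟨t, hst, ht⟩ := exists_isTranscendenceBasis_superset (R := k) (s := Set.range v)
    ((algebraicIndependent_subtype_range hv.injective).mpr hv)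
  have hX := IsTranscendenceBasis.mvPolynomial (Fin N) k
  have hcard := ht.cardinalMk_eq hX
  have hfin : Finite t := by
    rw [← Cardinal.mk_lt_aleph0_iff, hcard, Cardinal.mk_lt_aleph0_iff]
    infer_instance
  have : Fintype t := Fintype.ofFinite t
  have hc : Fintype.card t = N := by
    have := hcard
    rw [Cardinal.mk_fintype, Cardinal.mk_fintype, Fintype.card_fin] at this
    exact_mod_cast this
  set E := FractionRing (MvPolynomial (Fin N) k) with hE
  let ι := algebraMap (MvPolynomial (Fin N) k) E
  let L : (Fin N → E) →ₗ[E] (t → E) :=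
    Matrix.mulVecLin (Matrix.of fun (b : t) l => ι (pderiv l (b : MvPolynomial (Fin N) k)))
  have hLapp : ∀ c b, L c b = ∑ l, ι (pderiv l (b : MvPolynomial (Fin N) k)) * c l := by
    intro c b
    rfl
  have hinj : Function.Injective L := by
    rw [← LinearMap.ker_eq_bot, LinearMap.ker_eq_bot']
    intro c hcz
    set D : Derivation k (MvPolynomial (Fin N) k) E := mkDerivation k c with hD
    have hDX : ∀ j, D (X j) = c j := fun j => mkDerivation_X k c j
    have hDb : ∀ b : MvPolynomial (Fin N) k, D b = ∑ l, ι (pderiv l b) * c l := by
      intro b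
      have h1 := der_aeval D X b
      simp only [aeval_X_left_apply, hDX] at h1
      rw [h1]
      refine Finset.sum_congr rfl fun l _ => ?_
      rw [Algebra.smul_def]
    have hkill : ∀ a ∈ Algebra.adjoin k (Set.range ((↑) : t → MvPolynomial (Fin N) k)), D a = 0 := by
      intro a ha
      induction ha using Algebra.adjoin_induction with
      | mem x hx =>
        obtain ⟨b, rfl⟩ := hx
        rw [hDb, ← hLapp, hcz]; rfl
      | algebraMap r => exact D.map_algebraMap r
      | add x y _ _ hx hy => rw [map_add, hx, hy, add_zero]
      | mul x y _ _ hx hy => rw [Derivation.leibniz, hx, hy, smul_zero, smul_zero, add_zero]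
    funext j
    rw [← hDX j]
    have halg := ht.isAlgebraic.isAlgebraic (X j)
    refine der_algebraic ?_ D _ hkill (X j) halg
    intro a x hax
    rw [Algebra.smul_def, mul_eq_zero, IsFractionRing.to_map_eq_zero_iff] at hax
    exact hax
  have hsurj : Function.Surjective L := by
    rw [← LinearMap.injective_iff_surjective_of_finrank_eq_finrank]
    · exact hinj
    · rw [Module.finrank_pi, Module.finrank_pi, Fintype.card_fin, hc]
  -- columns span
  let col : Fin N → (τ → E) := fun l i => ι (pderiv l (v i))
  have hspan : Submodule.span E (Set.range col) = ⊤ := by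
    rw [eq_top_iff]
    intro u _
    let g : τ → t := fun i => ⟨v i, hst ⟨i, rfl⟩⟩
    have hg : Function.Injective g := fun i j h => hv.injective (congrArg Subtype.val h)
    obtain ⟨c, hcu⟩ := hsurj (Function.extend g u 0)
    have : u = ∑ l, c l • col l := by
      funext i
      have h1 := congrFun hcu (g i)
      rw [hg.extend_apply, hLapp] at h1
      rw [← h1, Finset.sum_apply]
      refine Finset.sum_congr rfl fun l _ => ?_
      simp only [Pi.smul_apply, smul_eq_mul, col]
      rw [mul_comm]
    rw [this]
    exact Submodule.sum_mem _ fun l _ => Submodule.smul_mem _ _ (Submodule.subset_span ⟨l, rfl⟩)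
  obtain ⟨κ, a, ha, hsp, hli⟩ := exists_linearIndependent' E col
  rw [hspan] at hsp
  have : Finite κ := Finite.of_injective a ha
  have : Fintype κ := Fintype.ofFinite κ
  have hκ : Fintype.card κ = Fintype.card τ := by
    have b := Module.Basis.mk hli hsp.ge
    have h1 := Module.finrank_eq_card_basis b
    rw [Module.finrank_pi] at h1
    exact h1.symm
  let e : τ ≃ κ := (Fintype.equivOfCardEq hκ).symm
  refine ⟨fun b => a (e b), ?_⟩
  have h2 : LinearIndependent E (fun b => col (a (e b))) := hli.comp e e.injective
  set M : Matrix τ τ E := Matrix.of fun b i => ι (pderiv (a (e b)) (v i)) with hM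
  have h3 : IsUnit M := by
    rw [← Matrix.linearIndependent_rows_iff_isUnit]
    exact h2
  have h4 : M.det ≠ 0 := by
    rw [Matrix.isUnit_iff_isUnit_det] at h3
    exact h3.ne_zero
  intro h5
  apply h4
  have h6 : M = (Matrix.of fun b i => pderiv (a (e b)) (v i)).map ι := rfl
  have h7 := RingHom.map_det ι (Matrix.of fun b i => pderiv (a (e b)) (v i))
  rw [h5, map_zero] at h7
  rw [h6]
  exact h7.symm

end W560.Sep
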