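import Mathlib
import Pool.Agent.W560.Sep.Low2

/-! The canonical form argument: a smooth hypersurface of degree `> n` is not unirational. -/

namespace W560.Sep

open MvPolynomial Finset

theorem grad_primitive {σ : Type} [Fintype σ] {N d : ℕ} (F : MvPolynomial σ ℂ)
    (hF : F.IsHomogeneous d) (hd : 1 ≤ d)
    (hsm : ∀ p : σ → ℂ, p ≠ 0 → eval p F = 0 → ∃ i, eval p (pderiv i F) ≠ 0)
    (P : σ → MvPolynomial (Fin N) ℂ) (hprim : ∀ π : MvPolynomial (Fin N) ℂ, Prime π → ∃ i, ¬ π ∣ P i)
    (π : MvPolynomial (Fin N) ℂ) (hπ : Prime π) : ∃ i, ¬ π ∣ aeval P (pderiv i F) := by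
  by_contra hcon
  push Not at hcon
  obtain ⟨a, ha⟩ := hprim π hπ
  apply ha
  let I : Ideal (MvPolynomial σ ℂ) := Ideal.span (Set.range fun i => pderiv i F)
  have hX : (X a : MvPolynomial σ ℂ) ∈ I.radical := by
    rw [← vanishingIdeal_zeroLocus_eq_radical (K := ℂ), mem_vanishingIdeal_iff]
    intro p hp
    rw [mem_zeroLocus_iff] at hp
    have h1 : ∀ i, eval p (pderiv i F) = 0 := by
      intro i
      have := hp (pderiv i F) (Ideal.subset_span ⟨i, rfl⟩)
      simpa using this
    have h2 : p = 0 := by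
      by_contra hp0
      have h3 := congrArg (eval p) hF.sum_X_mul_pderiv
      rw [map_sum, Finset.sum_eq_zero (fun i _ => by rw [map_mul, h1 i, mul_zero]),
        nsmul_eq_mul, map_mul, map_natCast] at h3
      have h4 : eval p F = 0 := by
        rcases mul_eq_zero.mp h3.symm with h5 | h5
        · exact absurd (Nat.cast_eq_zero.mp h5) (by omega)
        · exact h5
      obtain ⟨i, hi⟩ := hsm p hp0 h4
      exact hi (h1 i)
    rw [h2]; simp
  obtain ⟨k, hk⟩ := hX
  have hall : ∀ G ∈ I, π ∣ aeval P G := by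
    intro G hG
    induction hG using Submodule.span_induction with
    | mem x hx => obtain ⟨i, rfl⟩ := hx; exact hcon i
    | zero => rw [map_zero]; exact dvd_zero _
    | add x y _ _ hx hy => rw [map_add]; exact dvd_add hx hy
    | smul c x _ hx => rw [smul_eq_mul, map_mul]; exact Dvd.dvd.mul_left hx _
  have := hall _ hk
  rw [map_pow, aeval_X] at this
  exact hπ.dvd_of_dvd_pow this

theorem core {τ : Type} [Fintype τ] [DecidableEq τ] (F : MvPolynomial (Option τ) ℂ) (d e N : ℕ)
    (hF : F.IsHomogeneous d)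
    (hsm : ∀ p : Option τ → ℂ, p ≠ 0 → eval p F = 0 → ∃ i, eval p (pderiv i F) ≠ 0)
    (hd : Fintype.card τ + 1 ≤ d) (P : Option τ → MvPolynomial (Fin N) ℂ)
    (hP : ∀ i, (P i).IsHomogeneous e) (he : 1 ≤ e)
    (hprim : ∀ π : MvPolynomial (Fin N) ℂ, Prime π → ∃ i, ¬ π ∣ P i) (hPF : aeval P F = 0)
    (hind : AlgebraicIndependent ℂ (fun i : τ => P (some i))) (hτ : 0 < Fintype.card τ) : False := by
  set w : Option τ → MvPolynomial (Fin N) ℂ := fun i => aeval P (pderiv i F) with hw
  have hwhom : ∀ i, (w i).IsHomogeneous (e * (d - 1)) := fun i => (hF.pderiv).aeval _ hP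
  have hwprim := grad_primitive F hF (by omega) hsm P hprim
  obtain ⟨J, hJ⟩ := jacobian _ hind
  set M : Matrix τ τ (MvPolynomial (Fin N) ℂ) :=
    Matrix.of fun b i => pderiv (J b) (P (some i)) with hM
  have hrel : ∀ b, ∑ i, M b i * w (some i) + pderiv (J b) (P none) * w none = 0 := by
    intro b
    have h1 := der_aeval (pderiv (J b)) P F
    rw [hPF, map_zero, Fintype.sum_option] at h1
    rw [add_comm, ← h1.symm]
    simp only [smul_eq_mul, hw, hM, Matrix.of_apply]
    congr 1
    · rw [mul_comm]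
    · exact Finset.sum_congr rfl fun i _ => mul_comm _ _
  have hcr := cramer_dvd M (fun i => w (some i)) (fun b => pderiv (J b) (P none)) (w none) hrel
  have hall : ∀ i, w none ∣ M.det * w i := by
    intro i
    rcases i with _ | i
    · exact Dvd.intro_left _ rfl
    · exact hcr i
  have hw0 : w none ≠ 0 := by
    intro h0
    obtain ⟨b⟩ := Fintype.card_pos_iff.mp hτ
    obtain ⟨i, hi⟩ := hwprim (X (J b)) X_prime
    apply hi
    have h1 := hall i
    rw [h0, zero_dvd_iff] at h1
    have h2 : w i = 0 := (mul_eq_zero.mp h1).resolve_left hJ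
    change X (J b) ∣ w i
    rw [h2]
    exact dvd_zero _
  obtain ⟨Q, hQ⟩ := dvd_of_forall_dvd w hwprim (w none) hw0 M.det hall
  have hMdet : M.det.IsHomogeneous (Fintype.card τ * (e - 1)) :=
    det_homogeneous M fun b i => (hP (some i)).pderiv
  have h1 := hMdet.totalDegree hJ
  have hQ0 : Q ≠ 0 := by
    rintro rfl
    rw [mul_zero] at hQ
    exact hJ hQ
  rw [hQ, totalDegree_mul_of_isDomain hw0 hQ0, (hwhom none).totalDegree hw0] at h1
  obtain ⟨e', rfl⟩ := Nat.exists_eq_add_of_le' he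
  obtain ⟨d', rfl⟩ := Nat.exists_eq_add_of_le' (by omega : 1 ≤ d)
  simp only [Nat.add_sub_cancel] at h1
  have h2 : (e' + 1) * Fintype.card τ ≤ (e' + 1) * d' := Nat.mul_le_mul_left _ (by omega)
  nlinarith

end W560.Sep
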