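import Mathlib
import Pool.Agent.W560.Sep.Low1

/-! Homogenisation of a rational parametrisation and reduction to coprime coordinates. -/

namespace W560.Sep

open MvPolynomial Finset

theorem hc_mul {σ k : Type} [Field k] (p q : MvPolynomial σ k) (a b : ℕ) (hp : p.totalDegree ≤ a)
    (hq : q.totalDegree ≤ b) :
    homogeneousComponent (a + b) (p * q) = homogeneousComponent a p * homogeneousComponent b q := by
  classical
  ext m
  rw [coeff_homogeneousComponent, coeff_mul, coeff_mul]
  by_cases hm : m.degree = a + b
  · rw [if_pos hm]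
    refine Finset.sum_congr rfl fun uv huv => ?_
    obtain ⟨u, v⟩ := uv
    rw [HasAntidiagonal.mem_antidiagonal] at huv
    simp only at huv ⊢
    rw [coeff_homogeneousComponent, coeff_homogeneousComponent]
    have h1 : u.degree + v.degree = a + b := by rw [← hm, ← huv, map_add]
    rcases lt_trichotomy u.degree a with h2 | h2 | h2
    · have h3 : coeff v q = 0 := by
        apply coeff_eq_zero_of_totalDegree_lt
        rw [← Finsupp.degree_apply]
        omega
      rw [h3, if_neg (by omega : ¬ v.degree = b)]
      ring
    · rw [if_pos h2, if_pos (by omega)]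
    · have h3 : coeff u p = 0 := by
        apply coeff_eq_zero_of_totalDegree_lt
        rw [← Finsupp.degree_apply]
        omega
      rw [h3, if_neg (by omega : ¬ u.degree = a)]
      ring
  · rw [if_neg hm]
    symm
    refine Finset.sum_eq_zero fun uv huv => ?_
    obtain ⟨u, v⟩ := uv
    rw [HasAntidiagonal.mem_antidiagonal] at huv
    simp only at huv ⊢
    rw [coeff_homogeneousComponent, coeff_homogeneousComponent]
    by_cases h2 : u.degree = a
    · have : ¬ v.degree = b := by
        intro h3
        apply hm
        rw [← huv, map_add, h2, h3]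
      rw [if_neg this, mul_zero]
    · rw [if_neg h2, zero_mul]

theorem aeval_scale {σ k A : Type} [Field k] [CommRing A] [Algebra k A] (G : MvPolynomial σ k)
    {d : ℕ} (hG : G.IsHomogeneous d) (t : A) (y : σ → A) :
    aeval (fun i => t * y i) G = t ^ d * aeval y G := by
  rw [aeval_def, aeval_def, eval₂_eq, eval₂_eq, Finset.mul_sum]
  refine Finset.sum_congr rfl fun m hm => ?_
  have h1 : ∏ i ∈ m.support, (t * y i) ^ m i = t ^ d * ∏ i ∈ m.support, y i ^ m i := by
    simp only [mul_pow]
    rw [Finset.prod_mul_distrib, Finset.prod_pow_eq_pow_sum, ← hG.degree_eq_sum_deg_support hm]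
  rw [h1]
  ring

/-- homogenisation -/
theorem homogenise {σ : Type} [Fintype σ] {N : ℕ}
    (x : σ → FractionRing (MvPolynomial (Fin N) ℂ)) (hx : x ≠ 0) :
    ∃ (e : ℕ) (P : σ → MvPolynomial (Fin (N + 1)) ℂ), (∀ i, (P i).IsHomogeneous e) ∧ P ≠ 0 ∧
      ∀ (d : ℕ) (G : MvPolynomial σ ℂ), G.IsHomogeneous d → (aeval P G = 0 ↔ aeval x G = 0) := by
  classical
  obtain ⟨q, hq⟩ := IsLocalization.exist_integer_multiples_of_finite
    (nonZeroDivisors (MvPolynomial (Fin N) ℂ)) x
  choose p hp using hq
  have hp' : ∀ i, algebraMap _ (FractionRing (MvPolynomial (Fin N) ℂ)) (p i)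
      = algebraMap _ (FractionRing (MvPolynomial (Fin N) ℂ)) (q : MvPolynomial (Fin N) ℂ) * x i := by
    intro i
    rw [hp i, Algebra.smul_def]
  have hq0 : algebraMap _ (FractionRing (MvPolynomial (Fin N) ℂ)) (q : MvPolynomial (Fin N) ℂ) ≠ 0 := by
    rw [Ne, IsFractionRing.to_map_eq_zero_iff]
    exact nonZeroDivisors.coe_ne_zero q
  obtain ⟨e, he⟩ : ∃ e, ∀ i, (p i).totalDegree ≤ e :=
    ⟨Finset.univ.sup fun i => (p i).totalDegree, fun i =>
      Finset.le_sup (f := fun i => (p i).totalDegree) (Finset.mem_univ i)⟩
  set P : σ → MvPolynomial (Fin (N + 1)) ℂ := fun i =>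
    ∑ j ∈ range (e + 1), rename Fin.succ (homogeneousComponent j (p i)) * X 0 ^ (e - j) with hP
  let θ : MvPolynomial (Fin (N + 1)) ℂ →ₐ[ℂ] MvPolynomial (Fin N) ℂ :=
    aeval (Fin.cons 1 X : Fin (N + 1) → MvPolynomial (Fin N) ℂ)
  have hθ : ∀ i, θ (P i) = p i := by
    intro i
    simp only [hP, map_sum, map_mul, map_pow]
    have h1 : ∀ j ∈ range (e + 1), θ (rename Fin.succ (homogeneousComponent j (p i)))
        * θ (X 0) ^ (e - j) = homogeneousComponent j (p i) := by
      intro j _
      simp only [θ, aeval_rename, aeval_X, Fin.cons_zero, one_pow, mul_one]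
      have : (Fin.cons 1 X : Fin (N + 1) → MvPolynomial (Fin N) ℂ) ∘ Fin.succ = X := by
        funext l; simp
      rw [this, aeval_X_left_apply]
    rw [Finset.sum_congr rfl h1]
    have h2 := sum_homogeneousComponent (p i)
    conv_rhs => rw [← h2]
    symm
    apply Finset.sum_subset
    · intro j hj
      have := Finset.mem_range.mp hj
      exact Finset.mem_range.mpr (by have := he i; omega)
    · intro j _ hj
      apply homogeneousComponent_eq_zero
      have := mt Finset.mem_range.mpr hj
      omega
  let K := FractionRing (MvPolynomial (Fin (N + 1)) ℂ)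
  let ι := algebraMap (MvPolynomial (Fin (N + 1)) ℂ) K
  have hX0 : ι (X 0) ≠ 0 := by
    rw [Ne, IsFractionRing.to_map_eq_zero_iff]
    exact X_ne_zero _
  have hι : ∀ g, ι g = aeval (fun l => ι (X l)) g := by
    intro g
    have h1 : ι g = ι (aeval X g) := by rw [aeval_X_left_apply]
    rw [h1, ← MvPolynomial.aeval_algebraMap_apply]
    rfl
  let ψ : MvPolynomial (Fin N) ℂ →ₐ[ℂ] K := aeval (fun l => ι (X l.succ) / ι (X 0))
  have hψ : ∀ i, ι (P i) = ι (X 0) ^ e * ψ (p i) := by
    intro i
    have h1 : ∀ j ∈ range (e + 1), ι (rename Fin.succ (homogeneousComponent j (p i)) * X 0 ^ (e - j))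
        = ι (X 0) ^ e * ψ (homogeneousComponent j (p i)) := by
      intro j hj
      have hj' := Finset.mem_range.mp hj
      have h2 := aeval_scale (homogeneousComponent j (p i)) (homogeneousComponent_isHomogeneous j _)
        (ι (X 0)) (fun l => ι (X l.succ) / ι (X 0))
      have h3 : (fun l : Fin N => ι (X 0) * (ι (X l.succ) / ι (X 0))) = fun l => ι (X l.succ) := by
        funext l
        rw [mul_div_assoc', mul_div_cancel_left₀ _ hX0]
      have h4 : ι (rename Fin.succ (homogeneousComponent j (p i)))
          = aeval (fun l : Fin N => ι (X l.succ)) (homogeneousComponent j (p i)) := by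
        rw [hι, aeval_rename]
        rfl
      rw [map_mul, map_pow, h4, ← h3, h2]
      change _ = ι (X 0) ^ e * aeval (fun l => ι (X l.succ) / ι (X 0)) (homogeneousComponent j (p i))
      have h6 : ι (X 0) ^ e = ι (X 0) ^ j * ι (X 0) ^ (e - j) := by
        rw [← pow_add]; congr 1; omega
      rw [h6]; ring
    simp only [hP, map_sum]
    rw [Finset.sum_congr rfl h1, ← Finset.mul_sum, ← map_sum]
    congr 2
    have h2 := sum_homogeneousComponent (p i)
    conv_rhs => rw [← h2]
    symm
    apply Finset.sum_subset
    · intro j hj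
      have := Finset.mem_range.mp hj
      exact Finset.mem_range.mpr (by have := he i; omega)
    · intro j _ hj
      apply homogeneousComponent_eq_zero
      have := mt Finset.mem_range.mpr hj
      omega
  refine ⟨e, P, ?_, ?_, ?_⟩
  · intro i
    refine IsHomogeneous.sum _ _ _ fun j hj => ?_
    have hj' := Finset.mem_range.mp hj
    have h1 : (rename Fin.succ (homogeneousComponent j (p i)) : MvPolynomial (Fin (N + 1)) ℂ).IsHomogeneous j :=
      (homogeneousComponent_isHomogeneous j _).rename_isHomogeneous
    have h2 := h1.mul (isHomogeneous_X_pow (R := ℂ) (0 : Fin (N + 1)) (e - j))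
    rwa [show j + (e - j) = e by omega] at h2
  · intro h0
    apply hx
    funext i
    have h1 := hθ i
    rw [h0, Pi.zero_apply, map_zero] at h1
    have h2 := hp' i
    rw [← h1, map_zero] at h2
    exact (mul_eq_zero.mp h2.symm).resolve_left hq0
  · intro d G hG
    have hxp : aeval x G = 0 ↔ aeval p G = 0 := by
      have h1 : algebraMap _ (FractionRing (MvPolynomial (Fin N) ℂ)) (aeval p G)
          = (algebraMap _ (FractionRing (MvPolynomial (Fin N) ℂ)) (q : MvPolynomial (Fin N) ℂ)) ^ d
            * aeval x G := by
        rw [← aeval_scale G hG, ← MvPolynomial.aeval_algebraMap_apply]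
        congr 2
        funext i
        exact hp' i
      constructor
      · intro h
        rw [h, mul_zero, IsFractionRing.to_map_eq_zero_iff] at h1
        exact h1
      · intro h
        rw [h, map_zero] at h1
        exact (mul_eq_zero.mp h1.symm).resolve_left (pow_ne_zero _ hq0)
    rw [hxp]
    constructor
    · intro h
      have h1 := congrArg θ h
      rw [map_zero, MvPolynomial.comp_aeval_apply] at h1
      rw [← h1]
      congr 2
      funext i
      exact (hθ i).symm
    · intro h
      have h1 : ι (aeval P G) = (ι (X 0) ^ e) ^ d * ψ (aeval p G) := by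
        rw [MvPolynomial.comp_aeval_apply, ← aeval_scale G hG]
        have h2 : ι (aeval P G) = aeval (fun i => ι (P i)) G := by
          rw [← MvPolynomial.aeval_algebraMap_apply]; rfl
        rw [h2]
        congr 2
        funext i
        exact hψ i
      rw [h, map_zero, mul_zero, IsFractionRing.to_map_eq_zero_iff] at h1
      exact h1

end W560.Sep
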