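import Mathlib
import Pool.Agent.W560.Sep.Low3
import Pool.Agent.W560.Sep.Low4
import Pool.Agent.W560.Sep.Form

/-! The lower bound: a smooth unirational hypersurface of degree `d` in `P^n` has `d ≤ n`. -/

namespace W560.Sep

open MvPolynomial Finset

/-- a homogeneous parametrisation of degree `e` in `N` variables -/
def HPar {σ : Type} (F : MvPolynomial σ ℂ) (N e : ℕ) (P : σ → MvPolynomial (Fin N) ℂ) : Prop :=
  (∀ i, (P i).IsHomogeneous e) ∧ P ≠ 0 ∧ aeval P F = 0 ∧
    ∀ (k : ℕ) (G : MvPolynomial σ ℂ), G.IsHomogeneous k → aeval P G = 0 →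
      ∀ p : σ → ℂ, eval p F = 0 → eval p G = 0

/-- minimal parametrisations are primitive -/
theorem exists_primitive {σ : Type} (F : MvPolynomial σ ℂ) (d N : ℕ)
    (hF : F.IsHomogeneous d) (h : ∃ e P, HPar F N e P) :
    ∃ e P, HPar F N e P ∧ ∀ π : MvPolynomial (Fin N) ℂ, Prime π → ∃ i, ¬ π ∣ P i := by
  classical
  have hex : ∃ e, ∃ P, HPar F N e P := h
  obtain ⟨P, hP⟩ := Nat.find_spec hex
  set e := Nat.find hex with he
  refine ⟨e, P, hP, fun π hπ => ?_⟩
  by_contra hcon
  push Not at hcon
  obtain ⟨hhom, hne, hPF, hdense⟩ := hP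
  choose q hq using hcon
  set l := π.totalDegree with hl
  have hl1 : 1 ≤ l := by
    rcases Nat.eq_zero_or_pos l with h0 | h0
    · exfalso
      obtain h1 := totalDegree_eq_zero_iff_eq_C.mp h0
      apply hπ.not_isUnit
      rw [h1]
      have h2 : coeff 0 π ≠ 0 := by
        intro h3
        rw [h3, map_zero] at h1
        exact hπ.ne_zero h1
      exact (h2.isUnit).map C
    · exact h0
  obtain ⟨i0, hi0⟩ : ∃ i, P i ≠ 0 := by
    by_contra hc
    push Not at hc
    exact hne (funext hc)
  have hdegq : ∀ i, P i ≠ 0 → l + (q i).totalDegree = e := by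
    intro i hi
    have h1 := (hhom i).totalDegree hi
    have hqi : q i ≠ 0 := by
      intro h2
      apply hi
      rw [hq i, h2, mul_zero]
    rw [hq i, totalDegree_mul_of_isDomain hπ.ne_zero hqi] at h1
    exact h1
  have hle : l ≤ e := by have := hdegq i0 hi0; omega
  set π' := homogeneousComponent l π with hπ'
  set P' : σ → MvPolynomial (Fin N) ℂ := fun i => homogeneousComponent (e - l) (q i) with hP'
  have hfac : ∀ i, P i = π' * P' i := by
    intro i
    have h1 : homogeneousComponent e (P i) = P i := homogeneousComponent_eq_self (hhom i)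
    have h2 : (q i).totalDegree ≤ e - l := by
      by_cases hi : P i = 0
      · have : q i = 0 := by
          have := hq i
          rw [hi] at this
          exact (mul_eq_zero.mp this.symm).resolve_left hπ.ne_zero
        rw [this]; simp
      · have := hdegq i hi; omega
    have h3 := hc_mul π (q i) l (e - l) le_rfl h2
    rw [← hq i, show l + (e - l) = e by omega, h1] at h3
    exact h3
  have hlt : e - l < Nat.find hex := by omega
  apply Nat.find_min hex hlt
  refine ⟨P', fun i => homogeneousComponent_isHomogeneous _ _, ?_, ?_, ?_⟩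
  · intro h0
    apply hi0
    rw [hfac i0, h0, Pi.zero_apply, mul_zero]
  · have h1 := aeval_scale F hF π' P'
    have h2 : (fun i => π' * P' i) = P := (funext hfac).symm
    rw [h2, hPF] at h1
    have hπ0 : π' ≠ 0 := by
      intro h0
      apply hi0
      rw [hfac i0, h0, zero_mul]
    exact (mul_eq_zero.mp h1.symm).resolve_left (pow_ne_zero _ hπ0)
  · intro k G hG hGP p hp
    apply hdense k G hG _ p hp
    have h1 := aeval_scale G hG π' P'
    have h2 : (fun i => π' * P' i) = P := (funext hfac).symm
    rw [h2, hGP, mul_zero] at h1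
    exact h1

/-- density for all polynomials -/
theorem dense_all {σ : Type} {F : MvPolynomial σ ℂ} {N e : ℕ} {P : σ → MvPolynomial (Fin N) ℂ}
    (hP : HPar F N e P) (he : 1 ≤ e) (G : MvPolynomial σ ℂ) (hG : aeval P G = 0) (p : σ → ℂ)
    (hp : eval p F = 0) : eval p G = 0 := by
  obtain ⟨hhom, hne, hPF, hdense⟩ := hP
  have hcomp : ∀ k, aeval P (homogeneousComponent k G) = 0 := by
    intro k
    have h1 : ∀ j, (aeval P (homogeneousComponent j G)).IsHomogeneous (e * j) := fun j =>
      (homogeneousComponent_isHomogeneous j G).aeval _ hhom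
    have h2 := congrArg (fun g => homogeneousComponent (e * k) (aeval P g)) (sum_homogeneousComponent G)
    simp only [map_sum, hG, map_zero] at h2
    have h3 : ∀ j, homogeneousComponent (e * k) (aeval P (homogeneousComponent j G))
        = if j = k then aeval P (homogeneousComponent k G) else 0 := by
      intro j
      by_cases hj : j = k
      · subst hj
        rw [if_pos rfl]
        exact homogeneousComponent_eq_self (h1 j)
      · rw [if_neg hj, homogeneousComponent_of_mem (h1 j), if_neg]
        intro h4
        exact hj (Nat.eq_of_mul_eq_mul_left (by omega) h4.symm)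
    rw [Finset.sum_congr rfl fun j _ => h3 j, Finset.sum_ite_eq'] at h2
    by_cases hk : k ∈ range (G.totalDegree + 1)
    · rw [if_pos hk] at h2; exact h2
    · have : homogeneousComponent k G = 0 := by
        apply homogeneousComponent_eq_zero
        have := mt Finset.mem_range.mpr hk
        omega
      rw [this, map_zero]
  rw [← sum_homogeneousComponent G, map_sum]
  exact Finset.sum_eq_zero fun k _ => hdense k _ (homogeneousComponent_isHomogeneous k G) (hcomp k) p hp

theorem indep_of_dense {τ : Type} {F : MvPolynomial (Option τ) ℂ} {N : ℕ}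
    {P : Option τ → MvPolynomial (Fin N) ℂ}
    (hdeg : 0 < (optionEquivLeft ℂ τ F).natDegree)
    (hdense : ∀ G : MvPolynomial (Option τ) ℂ, aeval P G = 0 →
      ∀ p : Option τ → ℂ, eval p F = 0 → eval p G = 0) :
    AlgebraicIndependent ℂ (fun i : τ => P (some i)) := by
  rw [algebraicIndependent_iff]
  intro G hG
  set f := optionEquivLeft ℂ τ F with hf
  set A := f.leadingCoeff with hA
  have hA0 : A ≠ 0 := by
    rw [hA, Ne, Polynomial.leadingCoeff_eq_zero]
    intro h
    rw [h, Polynomial.natDegree_zero] at hdeg
    exact lt_irrefl _ hdeg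
  have key : A * G = 0 := by
    apply MvPolynomial.funext
    intro q
    rw [map_mul, map_zero]
    by_cases hq : eval q A = 0
    · rw [hq, zero_mul]
    · have h1 : (f.map (eval q)).degree ≠ 0 := by
        have h2 := Polynomial.natDegree_map_of_leadingCoeff_ne_zero (eval q) hq
        intro h3
        rw [Polynomial.natDegree_eq_zero_iff_degree_le_zero.mpr h3.le] at h2
        omega
      obtain ⟨T, hT⟩ := IsAlgClosed.exists_root _ h1
      have h2 : eval (fun o : Option τ => o.elim T q) F = 0 := by
        have h3 := aeval_option (k := ℂ) (E := ℂ) (fun o : Option τ => o.elim T q) F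
        rw [← hf] at h3
        have h4 : aeval (fun o : Option τ => o.elim T q) F = eval (fun o : Option τ => o.elim T q) F := by
          rw [aeval_def, eval₂_eq, eval_eq]
          rfl
        rw [← h4, h3]
        rw [Polynomial.IsRoot.def, Polynomial.eval_map] at hT
        rw [← hT]
        congr 1
      have h3 := hdense (rename some G) (by rw [aeval_rename]; exact hG) _ h2
      rw [eval_rename] at h3
      have h4 : (fun o : Option τ => o.elim T q) ∘ some = q := by funext i; rfl
      rw [h4] at h3
      rw [h3, mul_zero]
  exact (mul_eq_zero.mp key).resolve_left hA0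

end W560.Sep
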