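import Mathlib
import Pool.Agent.W560.Sep.Low5
import Pool.Agent.W560.Sep.Final

/-! The lower bound, assembly. -/

namespace W560.Sep

open MvPolynomial Finset

theorem peval_aeval {σ k : Type} [Field k] (f : σ → Polynomial k) (t : k)
    (G : MvPolynomial σ k) : Polynomial.eval t (aeval f G) = eval (fun i => Polynomial.eval t (f i)) G := by
  induction G using MvPolynomial.induction_on with
  | C c => simp
  | add p q hp hq => rw [map_add, map_add, Polynomial.eval_add, hp, hq]
  | mul_X p i hp => rw [map_mul, map_mul, Polynomial.eval_mul, hp, aeval_X, eval_X]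

theorem eval_scale {σ : Type} (G : MvPolynomial σ ℂ) {d : ℕ} (hG : G.IsHomogeneous d) (t : ℂ)
    (y : σ → ℂ) : eval (fun i => t * y i) G = t ^ d * eval y G := by
  rw [eval_eq, eval_eq, Finset.mul_sum]
  refine Finset.sum_congr rfl fun m hm => ?_
  have h1 : ∏ i ∈ m.support, (t * y i) ^ m i = t ^ d * ∏ i ∈ m.support, y i ^ m i := by
    simp only [mul_pow]
    rw [Finset.prod_mul_distrib, Finset.prod_pow_eq_pow_sum, ← hG.degree_eq_sum_deg_support hm]
  rw [h1]
  ring

theorem e_zero {σ : Type} [Fintype σ] [DecidableEq σ] (F : MvPolynomial σ ℂ) (d N : ℕ)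
    (hF : F.IsHomogeneous d) (hd : 2 ≤ d)
    (hsm : ∀ p : σ → ℂ, p ≠ 0 → eval p F = 0 → ∃ i, eval p (pderiv i F) ≠ 0)
    (P : σ → MvPolynomial (Fin N) ℂ) (hP : HPar F N 0 P) : False := by
  obtain ⟨hhom, hne, hPF, hdense⟩ := hP
  obtain ⟨c, hc⟩ : ∃ c : σ → ℂ, ∀ i, P i = C (c i) := by
    refine ⟨fun i => coeff 0 (P i), fun i => ?_⟩
    exact totalDegree_eq_zero_iff_eq_C.mp (Nat.le_zero.mp (hhom i).totalDegree_le)
  have hcne : c ≠ 0 := by
    intro h
    apply hne
    funext i
    rw [hc i, h, Pi.zero_apply, map_zero, Pi.zero_apply]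
  have hFc : eval c F = 0 := by
    have h1 := congrArg (eval (0 : Fin N → ℂ)) hPF
    rw [eval_aeval, map_zero] at h1
    rw [← h1]
    congr 2
    funext i
    rw [hc i, eval_C]
  have hline : ∀ p, eval p F = 0 → ∀ i j, c i * p j = c j * p i := by
    intro p hp i j
    have h1 := hdense 1 (C (c i) * X j - C (c j) * X i)
      (((isHomogeneous_C_mul_X _ _)).sub (isHomogeneous_C_mul_X _ _)) (by
        rw [map_sub, map_mul, map_mul, aeval_X, aeval_X, hc i, hc j, aeval_C, aeval_C]
        simp only [algebraMap_eq]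
        ring) p hp
    rw [map_sub, map_mul, map_mul, eval_C, eval_C, eval_X, eval_X] at h1
    linear_combination h1
  obtain ⟨a, ha⟩ : ∃ a, c a ≠ 0 := by
    by_contra h
    push Not at h
    exact hcne (funext h)
  obtain ⟨i, hi⟩ := hsm c hcne hFc
  -- the point `e_i` is not on the line
  set δ : σ → ℂ := Pi.single i 1 with hδ
  have hno : ∀ t, eval (fun j => c j * t + δ j) F ≠ 0 := by
    intro t h0
    have h1 := hline _ h0
    have h2 : ∀ j, c a * δ j = c j * δ a := by
      intro j
      have := h1 a j
      linear_combination this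
    have hai : a = i := by
      by_contra hne'
      have := h2 i
      rw [hδ, Pi.single_eq_same, Pi.single_eq_of_ne hne', mul_one, mul_zero] at this
      exact ha this
    subst hai
    have h3 : ∀ j, j ≠ a → c j = 0 := by
      intro j hj
      have := h2 j
      rw [hδ, Pi.single_eq_same, Pi.single_eq_of_ne hj, mul_one, mul_zero] at this
      exact this.symm
    have h4 := congrArg (eval c) hF.sum_X_mul_pderiv
    rw [map_sum, Finset.sum_eq_single a, nsmul_eq_mul, map_mul, map_mul, hFc, mul_zero, eval_X] at h4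
    · rcases mul_eq_zero.mp h4 with h5 | h5
      · exact ha h5
      · exact hi h5
    · intro j _ hj
      rw [map_mul, eval_X, h3 j hj, zero_mul]
    · simp
  set h : Polynomial ℂ := aeval (fun j => Polynomial.C (c j) * Polynomial.X + Polynomial.C (δ j)) F with hh
  have hheval : ∀ t, h.eval t = eval (fun j => c j * t + δ j) F := by
    intro t
    rw [hh, peval_aeval]
    congr 2
    funext j
    simp
  have hdeg : h.degree = 0 := by
    by_contra hcon
    obtain ⟨t, ht⟩ := IsAlgClosed.exists_root h hcon
    rw [Polynomial.IsRoot.def, hheval] at ht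
    exact hno t ht
  have hκ := Polynomial.eq_C_of_degree_eq_zero hdeg
  set κ := h.coeff 0 with hκdef
  set f : Polynomial ℂ := aeval (fun j => Polynomial.C (c j) + Polynomial.C (δ j) * Polynomial.X) F with hf
  have hfeval : ∀ t, f.eval t = eval (fun j => c j + δ j * t) F := by
    intro t
    rw [hf, peval_aeval]
    congr 2
    funext j
    simp
  have hft : ∀ t, t ≠ 0 → f.eval t = κ * t ^ d := by
    intro t ht
    rw [hfeval]
    have h1 := eval_scale F hF t (fun j => c j * t⁻¹ + δ j)
    have h2 : (fun j => t * (c j * t⁻¹ + δ j)) = fun j => c j + δ j * t := by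
      funext j
      field_simp
    rw [h2, ← hheval, hκ, Polynomial.eval_C] at h1
    rw [h1]; ring
  have hfX : Polynomial.X * f = Polynomial.X * (Polynomial.C κ * Polynomial.X ^ d) := by
    apply Polynomial.funext
    intro t
    by_cases ht : t = 0
    · subst ht; simp
    · simp [hft t ht]
  have hfeq : f = Polynomial.C κ * Polynomial.X ^ d := mul_left_cancel₀ Polynomial.X_ne_zero hfX
  have hder := der_aeval (k := ℂ) (Polynomial.derivative' : Derivation ℂ (Polynomial ℂ) (Polynomial ℂ))
    (fun j => Polynomial.C (c j) + Polynomial.C (δ j) * Polynomial.X) F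
  have h1 : ∀ j, (Polynomial.derivative' : Derivation ℂ (Polynomial ℂ) (Polynomial ℂ))
      (Polynomial.C (c j) + Polynomial.C (δ j) * Polynomial.X) = Polynomial.C (δ j) := by
    intro j
    change Polynomial.derivative (Polynomial.C (c j) + Polynomial.C (δ j) * Polynomial.X) = _
    simp
  simp only [h1] at hder
  have h2 := congrArg (Polynomial.eval 0) hder
  change Polynomial.eval 0 (Polynomial.derivative f) = _ at h2
  rw [hfeq, Polynomial.eval_finsetSum, Finset.sum_eq_single i] at h2
  · rw [smul_eq_mul, Polynomial.eval_mul, peval_aeval, hδ, Pi.single_eq_same] at h2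
    obtain ⟨d', rfl⟩ := Nat.exists_eq_add_of_le' hd
    simp at h2
    exact hi h2.symm
  · intro j _ hj
    rw [hδ, Pi.single_eq_of_ne hj]
    simp
  · simp

end W560.Sep
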