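import Mathlib
import Pool.Agent.W560.Sep.Low6

/-! The lower bound, conclusion. -/

namespace W560.Sep

open MvPolynomial Finset

theorem lower_opt {τ : Type} [Fintype τ] [DecidableEq τ] (F : MvPolynomial (Option τ) ℂ) (d N : ℕ)
    (hF : F.IsHomogeneous d)
    (hsm : ∀ p : Option τ → ℂ, p ≠ 0 → eval p F = 0 → ∃ i, eval p (pderiv i F) ≠ 0)
    (hdeg : 0 < (optionEquivLeft ℂ τ F).natDegree) (hτ : 0 < Fintype.card τ)
    (x : Option τ → FractionRing (MvPolynomial (Fin N) ℂ)) (hx : x ≠ 0) (hxF : aeval x F = 0)
    (hdense : ∀ (k : ℕ) (G : MvPolynomial (Option τ) ℂ), G.IsHomogeneous k → aeval x G = 0 →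
      ∀ p : Option τ → ℂ, eval p F = 0 → eval p G = 0) : d ≤ Fintype.card τ := by
  by_contra hcon
  obtain ⟨e0, P0, h1, h2, h3⟩ := homogenise x hx
  have hex : ∃ e P, HPar F (N + 1) e P :=
    ⟨e0, P0, h1, h2, (h3 d F hF).mpr hxF, fun k G hG hGP => hdense k G hG ((h3 k G hG).mp hGP)⟩
  obtain ⟨e, P, hP, hprim⟩ := exists_primitive F d (N + 1) hF hex
  rcases Nat.eq_zero_or_pos e with he | he
  · subst he
    exact e_zero F d (N + 1) hF (by omega) hsm P hP
  · exact core F d e (N + 1) hF hsm (by omega) P hP.1 he hprim hP.2.2.1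
      (indep_of_dense hdeg (dense_all hP he)) hτ

/-- a smooth unirational hypersurface of degree `d ≥ 1` in `P^n` has `d ≤ n` -/
theorem lower (d n N : ℕ) (hd : 1 ≤ d) (F : MvPolynomial (Fin (n + 1)) ℂ)
    (hF : F.IsHomogeneous d)
    (hsm : ∀ p : Fin (n + 1) → ℂ, p ≠ 0 → eval p F = 0 → ∃ i, eval p (pderiv i F) ≠ 0)
    (x : Fin (n + 1) → FractionRing (MvPolynomial (Fin N) ℂ)) (hx : x ≠ 0) (hxF : aeval x F = 0)
    (hdense : ∀ (k : ℕ) (G : MvPolynomial (Fin (n + 1)) ℂ), G.IsHomogeneous k → aeval x G = 0 →
      ∀ p : Fin (n + 1) → ℂ, eval p F = 0 → eval p G = 0) : d ≤ n := by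
  classical
  rcases Nat.eq_zero_or_pos n with hn | hn
  · exfalso
    subst hn
    have hz : ∀ i : Fin (0 + 1), i = 0 := by
      intro i
      apply Fin.ext
      have := i.2
      simp only [Fin.val_zero]
      omega
    have hx0 : x 0 ≠ 0 := by
      intro h
      apply hx
      funext i
      rw [hz i, h]; rfl
    have h1 := aeval_scale F hF (x 0) (fun _ => (1 : FractionRing (MvPolynomial (Fin N) ℂ)))
    have h2 : (fun _ : Fin 1 => x 0 * 1) = x := by
      funext i
      rw [hz i, mul_one]
    rw [h2, hxF] at h1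
    have h3 : aeval (fun _ : Fin 1 => (1 : FractionRing (MvPolynomial (Fin N) ℂ))) F = 0 :=
      (mul_eq_zero.mp h1.symm).resolve_left (pow_ne_zero _ hx0)
    have h4 : ∀ G : MvPolynomial (Fin 1) ℂ,
        aeval (fun _ : Fin 1 => (1 : FractionRing (MvPolynomial (Fin N) ℂ))) G
        = algebraMap ℂ _ (eval (fun _ => 1) G) := by
      intro G
      induction G using MvPolynomial.induction_on with
      | C c => rw [aeval_C, eval_C]
      | add p q hp hq => rw [map_add, map_add, map_add, hp, hq]
      | mul_X p i hp => rw [map_mul, map_mul, map_mul, hp, aeval_X, eval_X, map_one]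
    rw [h4, map_eq_zero] at h3
    have h5 : (fun _ : Fin 1 => (1 : ℂ)) ≠ 0 := by
      intro h
      exact one_ne_zero (congrFun h 0)
    obtain ⟨i, hi⟩ := hsm _ h5 h3
    have h6 := congrArg (eval (fun _ : Fin 1 => (1 : ℂ))) hF.sum_X_mul_pderiv
    rw [nsmul_eq_mul, map_mul, h3, mul_zero, Fin.sum_univ_one, map_mul, eval_X, one_mul] at h6
    rw [hz i] at hi
    exact hi h6
  · have hF0 : F ≠ 0 := by
      rintro rfl
      have h5 : (fun _ : Fin (n + 1) => (1 : ℂ)) ≠ 0 := by
        intro h
        exact one_ne_zero (congrFun h 0)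
      obtain ⟨i, hi⟩ := hsm _ h5 (by simp)
      apply hi; simp
    obtain ⟨m, hm⟩ := MvPolynomial.ne_zero_iff.mp hF0
    have hmdeg : m.degree = d := by
      by_contra h
      exact hm (hF.coeff_eq_zero h)
    obtain ⟨a, ha⟩ : ∃ a, m a ≠ 0 := by
      by_contra h
      push Not at h
      have : m = 0 := Finsupp.ext h
      rw [this] at hmdeg
      simp at hmdeg
      omega
    let τ := {i : Fin (n + 1) // i ≠ a}
    let ε : Fin (n + 1) ≃ Option τ := (Equiv.optionSubtypeNe a).symm
    have hεa : ε a = none := by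
      change (Equiv.optionSubtypeNe a).symm a = none
      rw [Equiv.symm_apply_eq]
      simp
    have hcard : Fintype.card τ = n := by
      have := Fintype.card_congr ε
      rw [Fintype.card_option, Fintype.card_fin] at this
      omega
    have hpos : 0 < Fintype.card τ := by omega
    have := lower_opt (τ := τ) (rename ε F) d N hF.rename_isHomogeneous ?_ ?_ hpos
      (fun o => x (ε.symm o)) ?_ ?_ ?_
    · rw [hcard] at this; exact this
    · intro p hp hpF
      rw [eval_rename] at hpF
      obtain ⟨i, hi⟩ := hsm (p ∘ ε) (by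
        intro h
        apply hp
        funext o
        have := congrFun h (ε.symm o)
        simpa using this) hpF
      refine ⟨ε i, ?_⟩
      rw [pderiv_rename ε.injective, eval_rename]
      exact hi
    · rw [natDegree_optionEquivLeft, ← hεa, degreeOf_rename_of_injective ε.injective]
      rw [degreeOf_eq_sup]
      refine lt_of_lt_of_le (Nat.pos_of_ne_zero ha) ?_
      exact Finset.le_sup (f := fun m : Fin (n + 1) →₀ ℕ => m a) (mem_support_iff.mpr hm)
    · intro h
      apply hx
      funext i
      have := congrFun h (ε i)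
      simpa using this
    · rw [aeval_rename]
      have : (fun o => x (ε.symm o)) ∘ ε = x := by funext i; simp
      rw [this, hxF]
    · intro k G hG hGx p hp
      obtain ⟨G', rfl⟩ := (renameEquiv ℂ ε).surjective G
      change (rename ε G').IsHomogeneous k at hG
      change aeval _ (rename ε G') = 0 at hGx
      change eval p (rename ε G') = 0
      rw [IsHomogeneous.rename_isHomogeneous_iff ε.injective] at hG
      rw [aeval_rename] at hGx
      have h1 : (fun o => x (ε.symm o)) ∘ ε = x := by funext i; simp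
      rw [h1] at hGx
      rw [eval_rename] at hp ⊢
      exact hdense k G' hG hGx _ hp

end W560.Sep
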